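import Pool.Agent.Lib.TWN1.RtA
import Pool.Agent.Lib.TWN1.Nf

/-!
# TANK W, text N1', (G3'): linear independence after an adjustment

`A` critical of value `a`, not null; `E j` in the limit of `p`-th powers at `a + p ^ N b j`. There
are `δ j` of `K`, of value `≥ b j`, such that `A` is independent, with a margin, of the
`E j + A * δ j ^ p ^ N`, over the `p ^ N`-th powers of `F`.
-/

set_option autoImplicit false

open Finset

namespace Pool.Agent.TWNI

open Pool.Agent.H15JM (RVal)
open Pool.Agent.TWM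
open Pool.Agent.TWII (PG LP)
open Pool.Agent.TWN1

universe u

variable {k Ω : Type u} [Field k] [Field Ω] [Algebra k Ω] {v : RVal Ω}
  {K F : IntermediateField k Ω} {p : ℕ} [hp : Fact p.Prime] [CharP Ω p]

theorem ind_adj {ι : Type*} (hi : Imm v K F) {N : ℕ} (hN : 1 ≤ N) {A : Ω} {a : ℝ}
    (hA : LP p v F a A) (hA' : ¬ PG p v F a A) (S : Finset ι) (E : ι → Ω) (b : ι → ℝ)
    (hE : ∀ j ∈ S, LP p v F (a + p ^ N * b j) (E j)) :
    ∃ δ : ι → Ω, (∀ j, δ j ∈ K) ∧ (∀ j ∈ S, v.Ge (b j) (δ j)) ∧ ∃ μ : ℝ, 0 < μ ∧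
      ∀ x ∈ F, ∀ t : ι → Ω, (∀ j, t j ∈ F) → ∀ c : ℝ, (∀ j ∈ S, v.Ge (c - b j - μ) (t j)) →
        LP p v F (a + p ^ N * c)
          (A * x ^ p ^ N + ∑ j ∈ S, (E j + A * δ j ^ p ^ N) * t j ^ p ^ N) →
        v.Ge c x := by
  classical
  have hp0 : (0 : ℝ) < p := by exact_mod_cast hp.out.pos
  have hQ0 : (0 : ℝ) < (p : ℝ) ^ N := by positivity
  induction S using Finset.induction_on with
  | empty =>
    refine ⟨fun _ => 0, fun _ => K.zero_mem, fun j hj => absurd hj (notMem_empty j), 1, one_pos,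
      fun x hx t _ c _ h => ?_⟩
    rw [sum_empty, add_zero] at h
    exact rt_dom hN hA' hx h
  | insert i S hiS ih =>
    obtain ⟨δ, hδK, hδb, μ, hμ, hP⟩ := ih fun j hj => hE j (mem_insert_of_mem hj)
    have hEi := hE i (mem_insert_self i S)
    -- replace the value at `i`
    have hup : ∀ (d : Ω) (t : ι → Ω), ∑ j ∈ S, (E j + A * (Function.update δ i d) j ^ p ^ N) *
        t j ^ p ^ N = ∑ j ∈ S, (E j + A * δ j ^ p ^ N) * t j ^ p ^ N := by
      intro d t
      refine sum_congr rfl fun j hj => ?_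
      rw [Function.update_of_ne (ne_of_mem_of_not_mem hj hiS)]
    by_cases hcase : ∀ x ∈ F, ∀ t : ι → Ω, (∀ j, t j ∈ F) → ∀ c : ℝ,
        (∀ j ∈ S, v.Ge (c - b j - μ / 2) (t j)) → v.Ge (c - b i - μ / 2) (t i) →
        LP p v F (a + p ^ N * c)
          (A * x ^ p ^ N + (E i * t i ^ p ^ N + ∑ j ∈ S, (E j + A * δ j ^ p ^ N) * t j ^ p ^ N)) →
        v.Ge c x
    · refine ⟨Function.update δ i 0, fun j => ?_, fun j hj => ?_, μ / 2, half_pos hμ,
        fun x hx t ht c hc h => ?_⟩
      · by_cases hj : j = i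
        · rw [hj, Function.update_self]
          exact K.zero_mem
        · rw [Function.update_of_ne hj]
          exact hδK j
      · by_cases hj' : j = i
        · rw [hj', Function.update_self]
          exact RVal.Ge.zero
        · rw [Function.update_of_ne hj']
          exact hδb j ((mem_insert.1 hj).resolve_left hj')
      · rw [sum_insert hiS, hup 0 t, Function.update_self, zero_pow
          (pow_ne_zero _ hp.out.ne_zero), mul_zero, add_zero] at h
        exact hcase x hx t ht c (fun j hj => hc j (mem_insert_of_mem hj))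
          (hc i (mem_insert_self i S)) h
    · push Not at hcase
      obtain ⟨x, hx, t, ht, c, htj, hti, hl, hnx⟩ := hcase
      -- `t i` is large
      have hti0 : ¬ v.Ge (c - b i) (t i) := by
        intro h1
        refine hnx (hP x hx t ht c (fun j hj => (htj j hj).mono (by linarith)) ?_)
        have h2 := (hl.sub (lp_mono (lp_mul_powq hEi (ht i) hN h1) (c' := a + p ^ N * c)
          (le_of_eq (by ring))))
        have e1 : A * x ^ p ^ N + (E i * t i ^ p ^ N + ∑ j ∈ S, (E j + A * δ j ^ p ^ N) *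
            t j ^ p ^ N) - E i * t i ^ p ^ N =
            A * x ^ p ^ N + ∑ j ∈ S, (E j + A * δ j ^ p ^ N) * t j ^ p ^ N := by ring
        rwa [e1] at h2
      have ht0 : t i ≠ 0 := by
        intro h1
        rw [h1] at hti0
        exact hti0 RVal.Ge.zero
      have hvt : v (t i) < c - b i := by
        by_contra h1
        exact hti0 fun _ => not_lt.1 h1
      have hvt2 : c - b i - μ / 2 ≤ v (t i) := hti ht0
      have hinv : v.Ge (-v (t i)) (t i)⁻¹ := fun _ => by rw [v.map_inv ht0]
      obtain ⟨c', hc'⟩ : ∃ c', c' = c - v (t i) := ⟨_, rfl⟩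
      obtain ⟨z, hz⟩ : ∃ z, z = x * (t i)⁻¹ := ⟨_, rfl⟩
      obtain ⟨Y, hY⟩ : ∃ Y : ι → Ω, Y = fun j => t j * (t i)⁻¹ := ⟨_, rfl⟩
      have hzF : z ∈ F := hz ▸ F.mul_mem hx (F.inv_mem (ht i))
      have hYF : ∀ j, Y j ∈ F := fun j => by rw [hY]; exact F.mul_mem (ht j) (F.inv_mem (ht i))
      have hYv : ∀ j ∈ S, v.Ge (c' - b j - μ / 2) (Y j) := by
        intro j hj
        rw [hY]
        refine ((htj j hj).mul hinv).mono (le_of_eq ?_)
        rw [hc']
        ring
      -- the relation, divided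
      have hrel : LP p v F (a + p ^ N * c')
          (A * z ^ p ^ N + E i + ∑ j ∈ S, (E j + A * δ j ^ p ^ N) * Y j ^ p ^ N) := by
        have h1 := lp_mul_powq hl (F.inv_mem (ht i)) hN hinv
        have e1 : (A * x ^ p ^ N + (E i * t i ^ p ^ N + ∑ j ∈ S, (E j + A * δ j ^ p ^ N) *
            t j ^ p ^ N)) * (t i)⁻¹ ^ p ^ N =
            A * z ^ p ^ N + E i + ∑ j ∈ S, (E j + A * δ j ^ p ^ N) * Y j ^ p ^ N := by
          have e2 : (t i) ^ p ^ N * (t i)⁻¹ ^ p ^ N = 1 := by
            rw [← mul_pow, mul_inv_cancel₀ ht0, one_pow]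
          rw [add_mul, add_mul, sum_mul, hz, mul_pow, mul_assoc (E i), e2, mul_one, ← mul_assoc,
            add_assoc]
          congr 2
          refine sum_congr rfl fun j _ => ?_
          rw [hY, mul_pow, mul_assoc]
        rw [e1] at h1
        exact lp_mono h1 (le_of_eq (by rw [hc']; ring))
      have hcb : b i < c' := by rw [hc']; linarith
      -- the size of `z`
      have hzb : v.Ge (b i) z := by
        refine hP z hzF Y hYF (b i) (fun j hj => (hYv j hj).mono (by linarith)) ?_
        have h1 : LP p v F (a + p ^ N * b i)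
            (A * z ^ p ^ N + E i + ∑ j ∈ S, (E j + A * δ j ^ p ^ N) * Y j ^ p ^ N) :=
          lp_mono hrel (by nlinarith)
        have h2 := h1.sub hEi
        have e1 : A * z ^ p ^ N + E i + ∑ j ∈ S, (E j + A * δ j ^ p ^ N) * Y j ^ p ^ N - E i =
            A * z ^ p ^ N + ∑ j ∈ S, (E j + A * δ j ^ p ^ N) * Y j ^ p ^ N := by ring
        rwa [e1] at h2
      obtain ⟨d, hd, hdv, hdz⟩ := exists_lead hi hzF hzb
      obtain ⟨μ₀, hμ₀, hdz'⟩ := TWLM.exists_ge_of_gt hdz
      refine ⟨Function.update δ i d, fun j => ?_, fun j hj => ?_,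
        min (min μ₀ (c' - b i)) (μ / 2), lt_min (lt_min hμ₀ (by linarith)) (half_pos hμ),
        fun x' hx' t' ht' c₁ hc₁ h => ?_⟩
      · by_cases hj : j = i
        · rw [hj, Function.update_self]
          exact hd
        · rw [Function.update_of_ne hj]
          exact hδK j
      · by_cases hj' : j = i
        · rw [hj', Function.update_self]
          intro h0
          rw [hdv h0]
        · rw [Function.update_of_ne hj']
          exact hδb j ((mem_insert.1 hj).resolve_left hj')
      · rw [sum_insert hiS, hup d t', Function.update_self] at h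
        have hm1 := min_le_left (min μ₀ (c' - b i)) (μ / 2)
        have hm2 := min_le_right (min μ₀ (c' - b i)) (μ / 2)
        have hm3 := min_le_left μ₀ (c' - b i)
        have hm4 := min_le_right μ₀ (c' - b i)
        obtain ⟨μ₁, hμ₁⟩ : ∃ μ₁, μ₁ = min (min μ₀ (c' - b i)) (μ / 2) := ⟨_, rfl⟩
        rw [← hμ₁] at hm1 hm2
        have hti' : v.Ge (c₁ - b i - μ₁) (t' i) := by
          rw [hμ₁]
          exact hc₁ i (mem_insert_self i S)
        refine hP x' hx' (fun j => t' j - Y j * t' i)
          (fun j => F.sub_mem (ht' j) (F.mul_mem (hYF j) (ht' i))) c₁ (fun j hj => ?_) ?_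
        · refine RVal.Ge.sub ((hc₁ j (mem_insert_of_mem hj)).mono ?_)
            (((hYv j hj).mul hti').mono ?_)
          · rw [← hμ₁]
            linarith
          · linarith
        · -- the remainder
          have h1 : LP p v F (a + p ^ N * (b i + μ₁))
              (A * z ^ p ^ N + E i + ∑ j ∈ S, (E j + A * δ j ^ p ^ N) * Y j ^ p ^ N) :=
            lp_mono hrel (by
              have : (p : ℝ) ^ N * (b i + μ₁) ≤ p ^ N * c' :=
                mul_le_mul_of_nonneg_left (by linarith) hQ0.le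
              linarith)
          have h2 : LP p v F (a + p ^ N * (b i + μ₁)) (A * (z - d) ^ p ^ N) :=
            lp_mul_powq hA (F.sub_mem hzF (hi.le hd)) hN (hdz'.mono (by linarith))
          have h3 := lp_mul_powq (h1.sub h2) (ht' i) hN hti'
          have h4 := h.sub (lp_mono h3 (c' := a + p ^ N * c₁) (le_of_eq (by ring)))
          have e1 : ∑ j ∈ S, (E j + A * δ j ^ p ^ N) * (t' j - Y j * t' i) ^ p ^ N =
              ∑ j ∈ S, (E j + A * δ j ^ p ^ N) * t' j ^ p ^ N -
                (∑ j ∈ S, (E j + A * δ j ^ p ^ N) * Y j ^ p ^ N) * t' i ^ p ^ N := by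
            rw [sum_mul, ← sum_sub_distrib]
            refine sum_congr rfl fun j _ => ?_
            rw [sub_pow_char_pow, mul_pow]
            ring
          rw [e1]
          rw [sub_pow_char_pow] at h4
          have e2 : A * x' ^ p ^ N + ((E i + A * d ^ p ^ N) * t' i ^ p ^ N +
              ∑ j ∈ S, (E j + A * δ j ^ p ^ N) * t' j ^ p ^ N) -
              (A * z ^ p ^ N + E i + ∑ j ∈ S, (E j + A * δ j ^ p ^ N) * Y j ^ p ^ N -
                A * (z ^ p ^ N - d ^ p ^ N)) * t' i ^ p ^ N =
              A * x' ^ p ^ N + (∑ j ∈ S, (E j + A * δ j ^ p ^ N) * t' j ^ p ^ N -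
                (∑ j ∈ S, (E j + A * δ j ^ p ^ N) * Y j ^ p ^ N) * t' i ^ p ^ N) := by
            ring
          rwa [e2] at h4

end Pool.Agent.TWNI
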