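import Pool.Agent.Lib.TWNI.Ch3
import Pool.Agent.Lib.TWNI.Ind
import Pool.Agent.Lib.TWN1.Rat

/-!
# TANK W, text N1', (G3'): preliminaries

* `OcX`: the outputs of section 1 used by (G3'), for the series `Zc Φ c`, in terms of the radius
  `σ`;
* `Wd`: the world at a strict record; `shape_lead`: the leading term of `Φ^S_(Q (J n' + m)) f`.
-/

set_option autoImplicit false
set_option linter.unusedSectionVars false

open Polynomial Finset

namespace Pool.Agent.TWNI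

open Pool.Agent.H15JM (RVal)
open Pool.Agent.TWM
open Pool.Agent.TWII (PG)
open Pool.Agent.TWLM (HSd Oi)
open Pool.Agent.TWN1

universe u

variable {k Ω : Type u} [Field k] [Field Ω] [Algebra k Ω] {v : RVal Ω}
  {K : IntermediateField k Ω} {Φ : ℕ → Ω → Ω} {w y : Ω} {Z : PowerSeries Ω} {ρ σ : ℝ}
  {p : ℕ} [hp : Fact p.Prime] [CharP Ω p]
  {e : Ω} {A : ℕ → Ω} {N J L m m₁ n' : ℕ} {B R θ θ₀ : Polynomial Ω} {s ν μ g g₁ η e₀ eps t : ℝ}

/-- The outputs of section 1 used by (G3'), with the radius `σ`. -/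
structure OcX (p : ℕ) (v : RVal Ω) (C : IntermediateField k Ω) (Φ : ℕ → Ω → Ω) (w : Ω)
    (ρ σ : ℝ) : Prop where
  oc : ∀ (ν : ℝ) (l₀ : ℕ) (f : Polynomial Ω), f ∈ PI C → p ∣ l₀ →
    (∀ l, l₀ < l → ¬ p ∣ l → hasseDeriv l f = 0) →
    (∀ l, l₀ < l → p ∣ l → PG p v (cadj v C w) (ν - l * ρ) ((hasseDeriv l f).eval w)) →
    ∃ (m₁ : ℕ) (δ : ℝ), m₁ ≠ 0 ∧ 0 < δ ∧ ∀ ψ ∈ C, v.Ge (ρ - δ) (w - ψ) →
      ∃ n₀ : ℕ, ∀ n' : ℕ, n₀ ≤ n' → ∀ c ∈ C, v.Ge (ρ - δ) (w - c) →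
        ∀ N : ℕ, N ≠ 0 → l₀ * n' ≤ N → PG p v (cadj v C w) (ν - N * σ)
          (PhS Φ w (Zc Φ c) n' N f - ∑ i ∈ antidiagonal N with i.1 ≠ 0 ∧ i.1 < m₁,
            Φ i.1 ((hasseDeriv l₀ f).eval ψ) *
              PowerSeries.coeff i.2 (Tn Φ w (Zc Φ c) n' ψ ^ l₀))
  two : ∀ (ν : ℝ) (l₀ : ℕ) (f : Polynomial Ω), f ∈ PI C → p ∣ l₀ →
    (∀ l, l₀ < l → ¬ p ∣ l → hasseDeriv l f = 0) →
    (∀ l, l₀ < l → p ∣ l → PG p v (cadj v C w) (ν - l * ρ) ((hasseDeriv l f).eval w)) →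
    ∃ (m₁ : ℕ) (δ : ℝ), 0 < δ ∧ ∀ n' : ℕ, m₁ ≤ n' → ∀ c ∈ C, v.Ge (ρ - δ) (w - c) →
      ∀ N : ℕ, N ≠ 0 → l₀ * n' + m₁ ≤ N → PG p v (cadj v C w) (ν - N * σ)
        (PhS Φ w (Zc Φ c) n' N f)
  tge : ∀ ψ ∈ C, ∀ δ : ℝ, 0 ≤ δ → v.Ge (ρ - δ) (w - ψ) → ∀ M : ℝ, ∃ n₁ : ℕ, ∀ n' : ℕ, n₁ ≤ n' →
    ∀ c ∈ C, v.Ge (ρ - δ) (w - c) →
      (∀ n : ℕ, v.Ge (ρ - δ - n * σ) (PowerSeries.coeff n (Tn Φ w (Zc Φ c) n' ψ))) ∧
      ∀ n : ℕ, n' ≤ n → v.Ge (M - n * σ) (PowerSeries.coeff n (Tn Φ w (Zc Φ c) n' ψ))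

/-! ### Generalities -/

/-- Every element has a lower bound. -/
theorem exists_ge_val (v : RVal Ω) (x : Ω) : ∃ b : ℝ, v.Ge b x := ⟨v x, fun _ => le_rfl⟩

theorem exists_ge_fin {ι : Type*} (v : RVal Ω) (S : Finset ι) (f : ι → Ω) :
    ∃ b : ℝ, ∀ i ∈ S, v.Ge b (f i) := by
  classical
  induction S using Finset.induction_on with
  | empty => exact ⟨0, fun i hi => absurd hi (notMem_empty i)⟩
  | insert i S hi ih =>
    obtain ⟨b, hb⟩ := ih
    obtain ⟨b', hb'⟩ := exists_ge_val v (f i)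
    refine ⟨min b b', fun j hj => ?_⟩
    rcases mem_insert.1 hj with rfl | hj
    · exact hb'.mono (min_le_right _ _)
    · exact (hb j hj).mono (min_le_left _ _)

/-- Powers of a series with a strict record at `n'`. -/
theorem pow_strict {X : PowerSeries Ω} {a b : ℝ} (h0 : ∀ n, n < n' → PowerSeries.coeff n X = 0)
    (h1 : ∀ n : ℕ, v.Ge (a - n * σ) (PowerSeries.coeff n X))
    (h2 : ∀ n : ℕ, n' < n → v.Ge (b - n * σ) (PowerSeries.coeff n X)) (J : ℕ) {n : ℕ}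
    (hn : J * n' < n) :
    v.Ge (((J : ℝ) - 1) * a + b - n * σ) (PowerSeries.coeff n (X ^ J)) := by
  induction J generalizing n with
  | zero =>
    rw [pow_zero, PowerSeries.coeff_one, if_neg (by omega)]
    exact RVal.Ge.zero
  | succ J ih =>
    rw [pow_succ, PowerSeries.coeff_mul]
    refine RVal.Ge.sum _ _ fun x hx => ?_
    have h3 : x.1 + x.2 = n := by simpa using hx
    have h3' : (n : ℝ) = x.1 + x.2 := by rw [← h3]; push_cast; ring
    have h4 : (J + 1) * n' = J * n' + n' := by ring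
    rcases lt_trichotomy x.2 n' with h5 | h5 | h5
    · rw [h0 _ h5, mul_zero]
      exact RVal.Ge.zero
    · refine ((ih (n := x.1) (by omega)).mul (h1 x.2)).mono (le_of_eq ?_)
      rw [h3']
      push_cast
      ring
    · refine ((pow_ge h1 J x.1).mul (h2 x.2 h5)).mono (le_of_eq ?_)
      rw [h3']
      push_cast
      ring

section phi

variable (h : HSd K Φ) (hiso : ∀ n : ℕ, ∀ x ∈ K, ∀ b, v.Ge b x → v.Ge (b - n * σ) (Φ n x))
include h hiso

/-- The coefficients along the arc. -/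
theorem pc_phi {x : Ω} (hx : x ∈ K) {b : ℝ} (hb : PC p v K b x) (n : ℕ) :
    PC p v K (b - n * σ) (Φ n x) := by
  obtain ⟨G, hG, h1⟩ := hb
  have h2 := hiso n _ (sub_mem hx (pow_mem hG p)) _ h1
  rw [h.sub n hx (pow_mem hG p), phi_pow h hG] at h2
  split_ifs at h2
  · exact ⟨_, h.mem _ _ hG, h2⟩
  · rw [sub_zero] at h2
    exact PC.of_ge h2

theorem lp_phi {x : Ω} (hx : x ∈ K) {b : ℝ} (hb : TWII.LP p v K b x) (n : ℕ) :
    TWII.LP p v K (b - n * σ) (Φ n x) :=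
  lp_iff.2 fun c' hc => (pc_phi h hiso hx (hb.pc (c' := c' + n * σ) (by linarith)) n).mono
    (by linarith)

/-- The powers of exponent `p ^ N` along the arc. -/
theorem phi_powq {c : Ω} (hc : c ∈ K) {b : ℝ} (hb : v.Ge b c) (hN : 1 ≤ N) (m : ℕ) :
    ∃ d ∈ K, Φ m (c ^ p ^ N) = d ^ p ∧ v.Ge (p ^ N * b - m * σ) (d ^ p) := by
  by_cases hm : p ^ N ∣ m
  · obtain ⟨m', rfl⟩ := hm
    refine ⟨(Φ m' c) ^ p ^ (N - 1), pow_mem (h.mem m' c hc) _, ?_, ?_⟩
    · rw [h.pow_mul p hc N m', ← pow_mul, ← pow_succ, Nat.sub_add_cancel hN]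
    · rw [← pow_mul, ← pow_succ, Nat.sub_add_cancel hN]
      refine (ge_pow (hiso m' c hc b hb) (p ^ N)).mono (le_of_eq ?_)
      push_cast
      ring
  · refine ⟨0, K.zero_mem, ?_, ?_⟩
    · rw [h.pow_zero p hc N m hm, zero_pow hp.out.ne_zero]
    · rw [zero_pow hp.out.ne_zero]
      exact RVal.Ge.zero

/-- `Φ (Q m) (a c ^ Q)` is `a (Φ m c) ^ Q`, up to a negligible error. -/
theorem phi_mulq {a c : Ω} (ha : a ∈ K) (hc : c ∈ K) {b b₁ : ℝ} (hb : v.Ge b c) (hN : 1 ≤ N)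
    (haΦ : ∀ m : ℕ, m ≠ 0 → PC p v K (b₁ - m * σ) (Φ m a)) (m : ℕ) :
    PC p v K (b₁ + p ^ N * b - (p ^ N * m : ℕ) * σ)
      (Φ (p ^ N * m) (a * c ^ p ^ N) - a * Φ m c ^ p ^ N) := by
  classical
  have hcQ : c ^ p ^ N ∈ K := pow_mem hc _
  have e1 : Φ (p ^ N * m) (a * c ^ p ^ N) - a * Φ m c ^ p ^ N =
      ∑ i ∈ (antidiagonal (p ^ N * m)).erase (0, p ^ N * m), Φ i.1 a * Φ i.2 (c ^ p ^ N) := by
    rw [sum_erase_eq_sub (by simp), h.mul _ a ha _ hcQ, h.c0 a ha, h.pow_mul p hc N m]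
  rw [e1]
  refine PC.sum _ _ fun i hi => ?_
  obtain ⟨h1, h2⟩ := mem_erase.1 hi
  have h3 : i.1 + i.2 = p ^ N * m := by simpa using h2
  have h4 : i.1 ≠ 0 := fun h4 => h1 (Prod.ext h4 (by simp only; omega))
  have h3' : ((p ^ N * m : ℕ) : ℝ) = i.1 + i.2 := by rw [← h3]; push_cast; ring
  obtain ⟨d, hd, hd1, hd2⟩ := phi_powq h hiso hc hb hN i.2
  rw [hd1]
  refine ((haΦ i.1 h4).mul_pow hd hd2).mono (le_of_eq ?_)
  rw [h3']
  ring

end phi

/-! ### The world at a strict record -/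

/-- The world at a strict record. -/
structure Wd (v : RVal Ω) (K : IntermediateField k Ω) (Φ : ℕ → Ω → Ω) (w : Ω)
    (Z : PowerSeries Ω) (ρ σ η g g₁ : ℝ) (n' : ℕ) : Prop where
  set : SetJ v K Φ w Z ρ (σ + η)
  η0 : 0 ≤ η
  n0 : n' ≠ 0
  g10 : 0 ≤ g₁
  gg : g₁ < g
  z0 : PowerSeries.coeff n' Z ≠ 0
  zv : v (PowerSeries.coeff n' Z) = ρ - n' * σ - g
  zf : ∀ n : ℕ, n' < n → v.Ge (ρ - n * σ - g₁) (PowerSeries.coeff n Z)

section wd

variable (h : Wd v K Φ w Z ρ σ η g g₁ n')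
include h

theorem Wd.g0 : 0 < g := h.g10.trans_lt h.gg

/-- The record, radius `σ`. -/
theorem Wd.zg (n : ℕ) (hn : n' ≤ n) : v.Ge (ρ - n * σ - g) (PowerSeries.coeff n Z) := by
  rcases hn.eq_or_lt with rfl | hlt
  · intro _
    rw [h.zv]
  · exact (h.zf n hlt).mono (by linarith [h.gg])

/-- The record, radius `σ + η`. -/
theorem Wd.zg' (n : ℕ) (hn : n' ≤ n) :
    v.Ge (ρ - n * (σ + η) - (g - n' * η)) (PowerSeries.coeff n Z) := by
  refine (h.zg n hn).mono ?_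
  have h1 : (n' : ℝ) * η ≤ n * η :=
    mul_le_mul_of_nonneg_right (by exact_mod_cast hn) h.η0
  linarith

theorem Wd.yn (n : ℕ) :
    PowerSeries.coeff n (-Yn Z n') = if n < n' then 0 else -PowerSeries.coeff n Z := by
  rw [map_neg, Yn, PowerSeries.coeff_mk]
  split_ifs
  exacts [neg_zero, rfl]

/-- The powers of `Y`, radius `σ`. -/
theorem Wd.y_pow (j : ℕ) : (∀ n, n < j * n' → PowerSeries.coeff n ((-Yn Z n') ^ j) = 0) ∧
    PowerSeries.coeff (j * n') ((-Yn Z n') ^ j) = (-PowerSeries.coeff n' Z) ^ j ∧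
    (∀ n : ℕ, v.Ge (j * (ρ - g) - n * σ) (PowerSeries.coeff n ((-Yn Z n') ^ j))) ∧
    (∀ n : ℕ, j * n' < n → v.Ge (((j : ℝ) - 1) * (ρ - g) + (ρ - g₁) - n * σ)
      (PowerSeries.coeff n ((-Yn Z n') ^ j))) ∧
    ∀ n, PowerSeries.coeff n ((-Yn Z n') ^ j) ∈ K := by
  have e := h.yn
  obtain ⟨h1, h2⟩ := pow_low (A := -Yn Z n') (n' := n') (fun n hn => by rw [e, if_pos hn]) j
  have h3 : ∀ m : ℕ, v.Ge (ρ - g - m * σ) (PowerSeries.coeff m (-Yn Z n')) := by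
    intro m
    rw [e]
    split_ifs with hm
    · exact RVal.Ge.zero
    · exact ((h.zg m (by omega)).mono (by linarith)).neg
  refine ⟨h1, ?_, fun n => pow_ge h3 j n, fun n hn => pow_strict
    (fun n hn => by rw [e, if_pos hn]) h3 (fun m hm => ?_) j hn, pow_coeff_mem K (fun m => ?_) j⟩
  · rw [h2, e, if_neg (lt_irrefl n')]
  · rw [e, if_neg (by omega)]
    exact ((h.zf m hm).mono (by linarith)).neg
  · rw [e]
    split_ifs
    exacts [K.zero_mem, neg_mem (h.set.zmem m)]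

/-- The unit `z`. -/
theorem Wd.zu (J : ℕ) : (-PowerSeries.coeff n' Z) ^ J ≠ 0 ∧
    v ((-PowerSeries.coeff n' Z) ^ J) = J * (ρ - n' * σ - g) ∧
    (-PowerSeries.coeff n' Z) ^ J ∈ K := by
  have h1 : -PowerSeries.coeff n' Z ≠ 0 := neg_ne_zero.2 h.z0
  exact ⟨pow_ne_zero _ h1, by rw [v.map_pow h1, v.map_neg _ h.z0, h.zv],
    pow_mem (neg_mem (h.set.zmem n')) J⟩

end wd

section lead

variable [IsAlgClosed Ω]

/-- The leading term of `Φ^S_(Q (J n' + m)) f`, with `D^[Q J] f` near an element of `K`. -/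
theorem shape_lead (h : Wd v K Φ w Z ρ σ η g g₁ n')
    (hiso : ∀ n : ℕ, ∀ x ∈ K, ∀ b, v.Ge b x → v.Ge (b - n * σ) (Φ n x))
    {f : Polynomial Ω} (hf : f ∈ PI K)
    (hX : ∀ l, 2 ≤ l → ¬ p ∣ l → hasseDeriv l f = 0) (h1 : v.Ge (ν - ρ) ((hasseDeriv 1 f).eval w))
    (hlp : TWII.LP p v (cadj v K w) (ν - eps) (f.eval w)) (heps : 0 ≤ eps) (hN : 1 ≤ N)
    (hJ : J ≠ 0) {x : Ω} (hx : x ∈ K)
    (hxl : TWII.LP p v K (ν - (p ^ N * J : ℕ) * ρ - eps) x)
    (hxd : PC p v (cadj v K w) (ν - (p ^ N * J : ℕ) * ρ + μ)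
      ((hasseDeriv (p ^ N * J) f).eval w - x)) (hμ : (p ^ N * m : ℕ) * η ≤ μ)
    (hm : p ^ N * m < n') (h2 : ((p ^ N * (J * n' + m) : ℕ) : ℝ) * η ≤ g)
    (h3 : m * η ≤ g - g₁) :
    TWII.LP p v (cadj v K w)
      (ν - (p ^ N * (J * n' + m) : ℕ) * σ - (p ^ N * J : ℕ) * g - eps)
      (PhS Φ w Z n' (p ^ N * (J * n' + m)) f) := by
  have hW := h.set
  have hg0 := h.g0
  have hη0 := h.η0
  have hp2 := hp.out.two_le
  have hQ0 : 0 < p ^ N := Nat.pow_pos hp.out.pos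
  have hpQ : p ∣ p ^ N := dvd_pow_self p (by omega)
  have hpL : p ∣ p ^ N * J := hpQ.mul_right J
  obtain ⟨L, hL⟩ : ∃ L, L = p ^ N * J := ⟨_, rfl⟩
  obtain ⟨n, hn⟩ : ∃ n, n = p ^ N * (J * n' + m) := ⟨_, rfl⟩
  have hnL : n = L * n' + p ^ N * m := by rw [hn, hL]; ring
  rw [← hL] at hxl hxd hpL ⊢
  rw [← hn] at h2 ⊢
  have hL2 : 2 ≤ L := hp2.trans (Nat.le_of_dvd (by rw [hL]; positivity) hpL)
  have hLR : (2 : ℝ) ≤ L := by exact_mod_cast hL2
  have hG : hasseDeriv L f ∈ PI K := hasse_mem_PI hf L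
  rw [hW.phS_one hf le_rfl]
  refine lp_sum _ _ fun j _ => ?_
  have hnη : 0 ≤ (n : ℝ) * η := by positivity
  have hn'η : 0 ≤ (n' : ℝ) * η := by positivity
  rcases lt_trichotomy j L with hj | hj | hj
  · -- `j < L`
    have hjL : (j : ℝ) ≤ L - 1 := by
      have : j + 1 ≤ L := hj
      have : ((j + 1 : ℕ) : ℝ) ≤ L := by exact_mod_cast this
      push_cast at this
      linarith
    have hjg : (j : ℝ) * (g - n' * η) ≤ (L - 1) * g := by
      have a1 : (j : ℝ) * (g - n' * η) ≤ j * g := mul_le_mul_of_nonneg_left (by linarith) (by positivity)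
      have a2 : (j : ℝ) * g ≤ (L - 1) * g := mul_le_mul_of_nonneg_right hjL hg0.le
      linarith
    by_cases hpj : p ∣ j
    · have h4 := shape_j (t := ν - eps - j * (g - n' * η)) (i := 0) hW hf hX h.zg' (dvd_zero p) n j
        (fun _ => lp_mono (hlp.hjet hW.tl hf j) (by simp)) (fun _ h5 => by
          rw [h5] at hpj
          exact absurd (Nat.le_of_dvd one_pos hpj) (by omega))
      rw [hasseDeriv_zero'] at h4
      refine lp_mono h4 ?_
      push_cast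
      linarith
    · have h4 := shape_j (t := ν - (g - n' * η)) (i := 0) hW hf hX h.zg' (dvd_zero p) n j
        (fun h5 => absurd h5 hpj) (fun _ _ => h1.mono (by linarith))
      rw [hasseDeriv_zero'] at h4
      refine lp_mono h4 ?_
      push_cast
      nlinarith
  · -- `j = L`
    rw [hj]
    refine lp_sum _ _ fun i hi => ?_
    have h4 : i.1 + i.2 = n := by simpa using hi
    have h4' : (n : ℝ) = i.1 + i.2 := by rw [← h4]; push_cast; ring
    have e1 : (-Yn Z n') ^ L = ((-Yn Z n') ^ J) ^ p ^ N := by rw [hL, mul_comm, pow_mul]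
    rw [e1]
    by_cases hd : p ^ N ∣ i.2
    swap
    · rw [TWLM.coeff_ps_pow_zero p _ _ _ hd, mul_zero]
      exact lp_of_ge RVal.Ge.zero
    obtain ⟨b, hb⟩ := hd
    rw [hb, TWLM.coeff_ps_pow_pow]
    obtain ⟨y1, y2, y3, y4, y5⟩ := h.y_pow J
    have hi2 : (i.2 : ℝ) = p ^ N * b := by rw [hb]; push_cast; ring
    have hLc : (L : ℝ) = p ^ N * J := by rw [hL]; push_cast; ring
    have hQR : (0 : ℝ) < (p : ℝ) ^ N := by
      have : (0 : ℝ) < p := by exact_mod_cast hp.out.pos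
      positivity
    rcases lt_trichotomy b (J * n') with hb1 | hb1 | hb1
    · rw [y1 b hb1, zero_pow hQ0.ne', mul_zero]
      exact lp_of_ge RVal.Ge.zero
    · -- the leading term
      rw [hb1, y2]
      have hi1 : i.1 = p ^ N * m := by
        have a1 : n = p ^ N * (J * n') + p ^ N * m := by rw [hn]; ring
        rw [hb, hb1] at h4
        omega
      have h5 : TWII.LP p v (cadj v K w) (ν - L * ρ - eps - (i.1 : ℕ) * σ)
          (Ph Φ w Z i.1 (hasseDeriv L f)) := by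
        have a1 := pc_ph hW (sub_mem hG (C_mem_PI hx)) (by
          rw [eval_sub, eval_C]
          exact hxd) i.1
        rw [ph_sub hW.hsd hG (C_mem_PI hx), ph_C hW.hsd hx] at a1
        have a2 := lp_phi hW.hsd hiso hx hxl i.1
        have a3 := lp_add (lp_mono a1.lp (c' := ν - L * ρ - eps - (i.1 : ℕ) * σ) (by
          rw [← hi1] at hμ
          linarith)) (TWII.LP.up (w := w) a2)
        rwa [sub_add_cancel] at a3
      obtain ⟨z1, z2, z3⟩ := h.zu J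
      have h6 := lp_mul_powq h5 (le_cadj v K w z3) hN (b := J * (ρ - n' * σ - g)) (by
        intro _
        rw [z2])
      refine lp_mono h6 (le_of_eq ?_)
      rw [h4', hi2, hb1, hLc]
      push_cast
      ring
    · have h5 : TWII.LP p v (cadj v K w) (ν - eps - L * ρ - (i.1 : ℕ) * (σ + η))
          (Ph Φ w Z i.1 (hasseDeriv L f)) := lp_ph hW hG (hlp.hjet hW.tl hf L) i.1
      have h6 := lp_mul_powq h5 (le_cadj v K w (y5 b)) hN (y4 b hb1)
      refine lp_mono h6 ?_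
      have hi1 : i.1 ≤ p ^ N * m := by
        have a1 : n = p ^ N * (J * n') + p ^ N * m := by rw [hn]; ring
        have a2 : p ^ N * (J * n') ≤ p ^ N * b := Nat.mul_le_mul_left _ hb1.le
        omega
      have hi1' : (i.1 : ℝ) * η ≤ p ^ N * (g - g₁) := by
        have a1 : (i.1 : ℝ) ≤ p ^ N * m := by exact_mod_cast hi1
        have a2 : (i.1 : ℝ) * η ≤ p ^ N * m * η := mul_le_mul_of_nonneg_right a1 hη0
        have a3 : (p : ℝ) ^ N * (m * η) ≤ p ^ N * (g - g₁) := mul_le_mul_of_nonneg_left h3 hQR.le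
        linarith
      rw [h4', hi2, hLc]
      nlinarith
  · -- `j > L`
    refine lp_sum _ _ fun i hi => ?_
    have h4 : i.1 + i.2 = n := by simpa using hi
    have h5 : (L + 1) * n' ≤ j * n' := Nat.mul_le_mul_right n' hj
    have h6 : (L + 1) * n' = L * n' + n' := by ring
    rw [(h.y_pow j).1 i.2 (by omega), mul_zero]
    exact lp_of_ge RVal.Ge.zero

end lead

end Pool.Agent.TWNI
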