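import Pool.Agent.Lib.TWNI.OcI
import Pool.Agent.Lib.TWNI.RtI

/-!
# TANK W, text N1' (exact arcs): the outputs of section 1 for (G3')
-/

set_option autoImplicit false

open Polynomial Finset

namespace Pool.Agent.TWNI

open Pool.Agent.H15JM (RVal)
open Pool.Agent.TWM

universe u

variable {k Ω : Type u} [Field k] [Field Ω] [Algebra k Ω] {v : RVal Ω}
  {C : IntermediateField k Ω} {Φ : ℕ → Ω → Ω} {w : Ω} {ρ σ : ℝ} {p : ℕ} [hp : Fact p.Prime]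
  [CharP Ω p] [IsAlgClosed Ω]

theorem ArcI.ocX (h : ArcI p v C Φ w ρ σ) : OcX p v C Φ w ρ σ where
  oc := fun ν l₀ f hf hl hz hn => by
    obtain ⟨m₁, δ, hm₁, hδ, h1⟩ := h.oc (ν := ν) hf hl hz hn
    refine ⟨m₁, δ, hm₁, hδ, fun ψ hψ hwψ => ?_⟩
    obtain ⟨n₀, h2⟩ := h1 ψ hψ hwψ
    exact ⟨n₀, fun n' hn' c hc hwc => (h2 n' hn' c hc hwc).2.2⟩
  two := fun ν l₀ f hf hl hz hn => by
    obtain ⟨m₁, -, δ, hδ, n₀, h1⟩ := h.oc_two (ν := ν) hf hl hz hn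
    exact ⟨max m₁ n₀, δ, hδ, fun n' hn' c hc hwc N _ hN =>
      h1 n' (by omega) c hc hwc N (by omega)⟩
  tge := fun ψ hψ δ _ hwψ M => h.T_ge hψ hwψ M

end Pool.Agent.TWNI
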