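import Pool.Agent.Lib.TWNI.RtK

/-!
# TANK W, text N1', (G3'): the downward induction, `top_jet`

* `Bse.hoc2`: OC for all the Hasse derivatives;
* `Bse.step`: `Att m` from `Att m'`, `m' > m`;
* `exists_bse`, `top_jet`.
-/

set_option autoImplicit false
set_option linter.unusedSectionVars false

open Polynomial Finset

namespace Pool.Agent.TWNI

open Pool.Agent.H15JM (RVal)
open Pool.Agent.TWM
open Pool.Agent.TWII (PG)
open Pool.Agent.TWLM (HSd Oi)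
open Pool.Agent.TWN1

universe u

variable {k Ω : Type u} [Field k] [Field Ω] [Algebra k Ω] {v : RVal Ω}
  {K : IntermediateField k Ω} {Φ : ℕ → Ω → Ω} {w y κ ψ : Ω} {Z : PowerSeries Ω} {ρ σ : ℝ}
  {p : ℕ} [hp : Fact p.Prime] [CharP Ω p] [IsAlgClosed Ω]
  {e : Ω} {A : ℕ → Ω} {N J L m m₁ m₂ n' : ℕ} {B R θ θ₀ θ₁ Δ : Polynomial Ω}
  {s ν μ μ₂ μI δ₀ δ g g₁ g₂ η e₀ ε ε₁ t β M : ℝ} {u : ℕ → Ω} {S : Finset ℕ}

namespace Bse

variable (b : Bse p v K Φ w y ρ σ s ν e A N B J R θ₀ e₀ μ μ₂ δ₀ κ)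
include b

theorem hz : ∀ l, p ^ N * J < l → ¬ p ∣ l → hasseDeriv l (fth p e A N B θ₀) = 0 :=
  fun l hl hpl => b.nrm.clsX b.ok.cls l (by have := b.L0; omega) hpl

theorem hn : ∀ l : ℕ, p ^ N * J < l → p ∣ l →
    PG p v (cadj v K w) (ν - l * ρ) ((hasseDeriv l (fth p e A N B θ₀)).eval w) := by
  intro l hl hpl
  rw [rt_fth_hi (rt_coset b.ok.co) hl]
  exact b.top l hl hpl

/-- OC for the Hasse derivatives of `fth θ₀`. -/
theorem hoc2 (ho : OcH p v K Φ w ρ σ) (hx : OcX p v K Φ w ρ σ) :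
    ∃ (m₂ : ℕ) (δ : ℝ), 0 < δ ∧ ∀ n' : ℕ, m₂ ≤ n' → ∀ c ∈ K, v.Ge (ρ - δ) (w - c) →
      ∀ i n : ℕ, n ≠ 0 → p ∣ i → p ^ N * J * n' + m₂ ≤ n + i * n' →
        PG p v (cadj v K w) (ν - i * ρ - n * σ)
          (PhS Φ w (Zc Φ c) n' n (hasseDeriv i (fth p e A N B θ₀))) := by
  classical
  obtain ⟨L, hL⟩ : ∃ L, L = p ^ N * J := ⟨_, rfl⟩
  obtain ⟨f, hf⟩ : ∃ f, f = fth p e A N B θ₀ := ⟨_, rfl⟩
  have hLp := b.pL
  have hL0 := b.L0
  have hz := b.hz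
  have hn := b.hn
  have hfm := b.fm b.ok
  rw [← hf] at hz hn hfm ⊢
  rw [← hL] at hLp hL0 hz hn ⊢
  have hL2 : 2 ≤ L := hp.out.two_le.trans (Nat.le_of_dvd hL0 hLp)
  have hz' : ∀ i l : ℕ, p ∣ i → L < l + i → ¬ p ∣ l → hasseDeriv l (hasseDeriv i f) = 0 := by
    intro i l hi hl hpl
    rw [hasse_hasse, hz (l + i) hl (fun h1 => hpl ((Nat.dvd_add_left hi).1 h1)), mul_zero]
  have hn'' : ∀ i l : ℕ, p ∣ i → L < l + i → p ∣ l →
      PG p v (cadj v K w) (ν - i * ρ - l * ρ) ((hasseDeriv l (hasseDeriv i f)).eval w) := by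
    intro i l hi hl hpl
    rw [hasse_hasse, eval_mul, eval_C]
    refine PG.natCast_mul ((hn (l + i) (by omega) (dvd_add hpl hi)).mono (le_of_eq ?_)) _
    push_cast
    ring
  obtain ⟨δ, hδ, h1⟩ := exists_min_pos (range (max L f.natDegree + 1))
    (fun i δ => ∃ m : ℕ, ∀ m' : ℕ, m ≤ m' → p ∣ i → ∀ n' : ℕ, m' ≤ n' → ∀ c ∈ K,
      v.Ge (ρ - δ) (w - c) → ∀ n : ℕ, n ≠ 0 → L * n' + m' ≤ n + i * n' →
      PG p v (cadj v K w) (ν - i * ρ - n * σ) (PhS Φ w (Zc Φ c) n' n (hasseDeriv i f)))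
    (fun i a c hac h2 => by
      obtain ⟨m, hm⟩ := h2
      exact ⟨m, fun m' hm' hi n' hn' c hc hwc => hm m' hm' hi n' hn' c hc
        (hwc.mono (by linarith))⟩)
    (fun i _ => by
      by_cases hi : p ∣ i
      swap
      · exact ⟨1, one_pos, 0, fun _ _ h1 => absurd h1 hi⟩
      by_cases hiL : i ≤ L
      · obtain ⟨m₁, δ, hδ, h1⟩ := hx.two (ν - i * ρ) (L - i) (hasseDeriv i f)
          (hasse_mem_PI hfm i) (Nat.dvd_sub hLp hi) (fun l hl hpl => hz' i l hi (by omega) hpl)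
          (fun l hl hpl => hn'' i l hi (by omega) hpl)
        refine ⟨δ, hδ, m₁, fun m hm _ n' hn' c hc hwc n hn0 hle => ?_⟩
        refine h1 n' (by omega) c hc hwc n hn0 ?_
        have h2 : L * n' = (L - i) * n' + i * n' := by rw [← add_mul, Nat.sub_add_cancel hiL]
        omega
      · obtain ⟨δ, hδ, n₀, h1⟩ := ho.one (ν - i * ρ) 0 (hasseDeriv i f)
          (hasse_mem_PI hfm i) (dvd_zero p) (fun l hl hpl => hz' i l hi (by omega) hpl)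
          (fun l hl hpl => hn'' i l hi (by omega) hpl)
          (lp_of_pg (hn'' i 0 hi (by omega) (dvd_zero p)))
        exact ⟨δ, hδ, n₀, fun m hm _ n' hn' c hc hwc n hn0 _ =>
          h1 n' (by omega) δ hδ le_rfl c hc hwc n hn0 (by omega)⟩)
  obtain ⟨m₂, h2⟩ := rt_max _ _ h1
  refine ⟨m₂, δ, hδ, fun n' hn' c hc hwc i n hn0 hi hle => ?_⟩
  by_cases hiD : i ≤ max L f.natDegree
  · exact h2 m₂ le_rfl i (mem_range.2 (by omega)) hi n' hn' c hc hwc n hn0 hle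
  · rw [hasseDeriv_eq_zero_of_lt_natDegree f i (by omega), rt_phS_zero]
    exact PG.of_gt Gt.zero

/-- The margins of the high Hasse derivatives. -/
theorem top_mar : ∃ g₀ : ℝ, 0 < g₀ ∧ ∀ g : ℝ, g ≤ g₀ → ∀ l : ℕ, p ^ N * J < l → p ∣ l →
    TWII.LP p v (cadj v K w) (ν - l * ρ + l * g) ((hasseDeriv l (fth p e A N B R)).eval w) := by
  obtain ⟨g₁, hg₁, hgm⟩ := rt_min (range ((fth p e A N B R).natDegree + 1))
    (fun l g => p ^ N * J < l → p ∣ l → PC p v (cadj v K w) (ν - l * ρ + l * g)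
      ((hasseDeriv l (fth p e A N B R)).eval w))
    (fun l a b hab hb h1 h2 => (hb h1 h2).mono (by
      have : (l : ℝ) * a ≤ l * b := mul_le_mul_of_nonneg_left hab (Nat.cast_nonneg l)
      linarith))
    (fun l _ => by
      by_cases hl : p ^ N * J < l ∧ p ∣ l
      · obtain ⟨m, hm, h1⟩ := PG.exists_pc (b.top l hl.1 hl.2)
        have hl0 : (0 : ℝ) < l := by
          have : 0 < l := by omega
          exact_mod_cast this
        refine ⟨m / l, by positivity, fun _ _ => ?_⟩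
        rwa [mul_div_cancel₀ _ hl0.ne']
      · exact ⟨1, one_pos, fun h1 h2 => absurd ⟨h1, h2⟩ hl⟩)
  refine ⟨g₁, hg₁, fun g hg l hl hpl => ?_⟩
  by_cases hlD : l ≤ (fth p e A N B R).natDegree
  · refine lp_mono (hgm l (mem_range.2 (by omega)) hl hpl).lp ?_
    have : (l : ℝ) * g ≤ l * g₁ := mul_le_mul_of_nonneg_left hg (Nat.cast_nonneg l)
    linarith
  · rw [hasseDeriv_eq_zero_of_lt_natDegree _ _ (by omega), eval_zero]
    exact lp_of_ge RVal.Ge.zero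

omit b in
/-- The jets of the correction are very small. -/
theorem corrI_jet (hT1 : ∀ n : ℕ, v.Ge (ρ - δ - n * σ) (PowerSeries.coeff n (Tn Φ w Z n' ψ)))
    (hT2 : ∀ n : ℕ, n' ≤ n → v.Ge (M - n * σ) (PowerSeries.coeff n (Tn Φ w Z n' ψ)))
    (hu : ∀ j ∈ S, v.Ge (β - j * σ) (u j)) (hS : ∀ j ∈ S, j < m₁) (hm₁ : m₁ ≤ n')
    (hJ : J ≠ 0) {i : ℕ} (hi : i ≠ 0)
    (hM : s - β + J * |ρ| + J * |ρ - δ| ≤ M) :
    v.Ge (s - i * ρ - (J * n' + m : ℕ) * σ) (∑ j ∈ S, u j * (((J.choose i : ℕ) : Ω) *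
        PowerSeries.coeff (J * n' + m - j) (Tn Φ w Z n' ψ ^ (J - i)))) := by
  have hJ1 : 1 * n' ≤ J * n' := Nat.mul_le_mul_right n' (by omega)
  refine RVal.Ge.sum _ _ fun j hj => ?_
  have hjm := hS j hj
  have hjn : j ≤ J * n' + m := by omega
  rcases lt_trichotomy i J with hiJ | hiJ | hiJ
  · have h6 : (J - i) * n' ≤ J * n' + m - j := by
      have h7 : J * n' = (J - i) * n' + i * n' := by rw [← add_mul, Nat.sub_add_cancel hiJ.le]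
      have h8 : 1 * n' ≤ i * n' := Nat.mul_le_mul_right n' (by omega)
      omega
    have h7 := pow_ge_far hT1 hT2 (l := J - i) (by omega) h6
    refine ((hu j hj).mul ((ge_natCast v (J.choose i)).mul h7)).mono ?_
    rw [Nat.cast_sub hjn, Nat.cast_sub hiJ.le]
    have hiR : (i : ℝ) + 1 ≤ J := by exact_mod_cast hiJ
    have hi0 : (0 : ℝ) ≤ i := Nat.cast_nonneg i
    have a1 : -(i * ρ) ≤ J * |ρ| := by
      have h1 : -(i * ρ) ≤ i * |ρ| := by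
        have := mul_le_mul_of_nonneg_left (neg_abs_le ρ) hi0
        linarith
      have h2 : (i : ℝ) * |ρ| ≤ J * |ρ| := mul_le_mul_of_nonneg_right (by linarith) (abs_nonneg ρ)
      linarith
    have a2 : -(((J : ℝ) - i - 1) * (ρ - δ)) ≤ J * |ρ - δ| := by
      have h1 : -(((J : ℝ) - i - 1) * (ρ - δ)) ≤ ((J : ℝ) - i - 1) * |ρ - δ| := by
        have := mul_le_mul_of_nonneg_left (neg_abs_le (ρ - δ))
          (show (0 : ℝ) ≤ (J : ℝ) - i - 1 by linarith)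
        linarith
      have h2 : ((J : ℝ) - i - 1) * |ρ - δ| ≤ J * |ρ - δ| :=
        mul_le_mul_of_nonneg_right (by linarith) (abs_nonneg _)
      linarith
    nlinarith
  · rw [hiJ, Nat.sub_self, pow_zero, PowerSeries.coeff_one, if_neg (by omega), mul_zero, mul_zero]
    exact RVal.Ge.zero
  · rw [Nat.choose_eq_zero_of_lt hiJ, Nat.cast_zero, zero_mul, mul_zero]
    exact RVal.Ge.zero

/-- The jets of `Φ^S_(J n' + m) (θ₁ - θ₀)`. -/
theorem jetA (hθ : Ok p v K w y s ν e A N B J R ε θ) (hε : 0 < ε) (hεe : ε ≤ e₀)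
    (h : Wd v K Φ w Z ρ σ η g g₁ n') (hμ : p ^ N * (e₀ + J * (g - n' * η)) < μ)
    (hhi : ∀ l : ℕ, p ^ N * J < l → p ∣ l → TWII.LP p v (cadj v K w) (ν - l * ρ + l * g)
      ((hasseDeriv l (fth p e A N B R)).eval w))
    (hoc : ∀ i n : ℕ, n ≠ 0 → p ^ N * J * n' + m₂ ≤ p ^ N * n + p ^ N * i * n' →
      PG p v (cadj v K w) (ν - (p ^ N * i : ℕ) * ρ - (p ^ N * n : ℕ) * (σ + η))
        (PhS Φ w Z n' (p ^ N * n) (hasseDeriv (p ^ N * i) (fth p e A N B θ₀))))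
    (hm₂ : m₂ ≤ n') (hη : ((J * n' + m : ℕ) : ℝ) * η ≤ g / 4) (hεg : ε ≤ g / 4) {i : ℕ}
    (hi : i ≠ 0) :
    v.Ge (s - i * ρ - (J * n' + m : ℕ) * σ - ((J : ℝ) - i) * g - g / 2)
      (PhS Φ w Z n' (J * n' + m) (hasseDeriv i (θ - θ₀))) := by
  have hW := h.set
  have hη0 := h.η0
  have hg0 := h.g0
  have hQ0 : 0 < p ^ N := Nat.pow_pos hp.out.pos
  have hQR := b.Q0
  by_cases hiJ : i ≤ J
  swap
  · rw [hasseDeriv_eq_zero_of_lt_natDegree _ _ ((b.hJd hθ).trans_lt (by omega)), rt_phS_zero]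
    exact RVal.Ge.zero
  obtain ⟨n, hn⟩ : ∃ n, n = J * n' + m := ⟨_, rfl⟩
  rw [← hn] at hη ⊢
  have hn'n : n' ≤ n := by
    have : 1 * n' ≤ J * n' := Nat.mul_le_mul_right n' (Nat.one_le_iff_ne_zero.2 b.J0)
    omega
  have hn'η : (n' : ℝ) * η ≤ n * η := mul_le_mul_of_nonneg_right (by exact_mod_cast hn'n) hη0
  have hn'0 : 0 ≤ (n' : ℝ) * η := by positivity
  have hiR : (i : ℝ) ≤ J := by exact_mod_cast hiJ
  have h1 := g1 (i := i) (n := n) (L := p ^ N * J) (m₁ := m₂) (eps := ε) hW b.nrm.toDt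
    (mar_mono b.mar (by linarith)) hθ.mem b.ok.mem b.nrm.BC (b.hJd hθ) b.e₀0.le
    (b.hΔv hθ hεe) (by linarith : 0 ≤ g - n' * η) h.zg' hμ
    (b.nrm.clsX hθ.cls) (b.nrm.cls1 hθ.cls) hθ.lp hε (by have := b.L0; omega)
    (fun l hl hpl => by
      rw [rt_fth_hi (rt_coset hθ.co) hl]
      refine lp_mono (hhi l hl hpl) ?_
      have : (l : ℝ) * (g - n' * η) ≤ l * g :=
        mul_le_mul_of_nonneg_left (by linarith) (by positivity)
      linarith) hoc (by have := h.n0; omega) (by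
        have h3 : p ^ N * n = p ^ N * J * n' + p ^ N * m := by rw [hn]; ring
        have h4 : 1 * n' ≤ p ^ N * i * n' :=
          Nat.mul_le_mul_right _ (Nat.mul_pos hQ0 (Nat.pos_of_ne_zero hi))
        omega)
  refine h1.mono ?_
  have h5 : ((p ^ N * J - p ^ N * i : ℕ) : ℝ) = (p : ℝ) ^ N * ((J : ℝ) - i) := by
    rw [← Nat.mul_sub, Nat.cast_mul, Nat.cast_sub hiJ]
    push_cast
    ring
  have h6 : ((p : ℝ) ^ N * ((J : ℝ) - i) * (g - n' * η) + ε) / (p : ℝ) ^ N =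
      ((J : ℝ) - i) * (g - n' * η) + ε / (p : ℝ) ^ N := by
    field_simp
  have h7 : ε / (p : ℝ) ^ N ≤ ε :=
    div_le_self hε.le (one_le_pow₀ (by exact_mod_cast hp.out.one_lt.le))
  have h8 : ((J : ℝ) - i) * (g - n' * η) ≤ ((J : ℝ) - i) * g :=
    mul_le_mul_of_nonneg_left (by linarith) (by linarith)
  rw [h5, h6]
  nlinarith

/-- The end of the step. -/
theorem att_of_key (h : Wd v K Φ w Z ρ σ η g g₁ n') (hψ : ψ ∈ K) (hu : ∀ j, u j ∈ K)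
    (hkey : ∀ ε : ℝ, 0 < ε → ε ≤ e₀ → ∀ θ : Polynomial Ω, Ok p v K w y s ν e A N B J R ε θ →
      v.Ge (s - (J * n' + m : ℕ) * σ - J * g - ε / p ^ N)
        (PhS Φ w Z n' (J * n' + m) (θ - θ₀) - corrI S u Φ w Z n' ψ J (J * n' + m)))
    (hη : ((J * n' + m : ℕ) : ℝ) * η ≤ g / 4)
    (hA : ∀ ε : ℝ, 0 < ε → ε ≤ e₀ → ε ≤ g / 4 → ∀ θ : Polynomial Ω,
      Ok p v K w y s ν e A N B J R ε θ → ∀ i : ℕ, i ≠ 0 →
      v.Ge (s - i * ρ - (J * n' + m : ℕ) * σ - ((J : ℝ) - i) * g - g / 2)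
        (PhS Φ w Z n' (J * n' + m) (hasseDeriv i (θ - θ₀))))
    (hB : ∀ i : ℕ, i ≠ 0 → v.Ge (s - i * ρ - (J * n' + m : ℕ) * σ) (∑ j ∈ S, u j *
      (((J.choose i : ℕ) : Ω) *
        PowerSeries.coeff (J * n' + m - j) (Tn Φ w Z n' ψ ^ (J - i))))) :
    Att p v K Φ w y ρ σ s ν e A N B J R θ₀ m := by
  have hW := h.set
  have hg0 := h.g0
  have hgg := h.gg
  have hJ1 : (1 : ℝ) ≤ J := by exact_mod_cast Nat.one_le_iff_ne_zero.2 b.J0
  obtain ⟨n, hn⟩ : ∃ n, n = J * n' + m := ⟨_, rfl⟩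
  have hnR : (n : ℝ) = J * n' + m := by rw [hn]; push_cast; ring
  obtain ⟨g₂, hg₂⟩ : ∃ g₂, g₂ = max g₁ (g / 2) := ⟨_, rfl⟩
  have hg21 : g₁ ≤ g₂ := hg₂ ▸ le_max_left _ _
  have hg22 : g / 2 ≤ g₂ := hg₂ ▸ le_max_right _ _
  have hg2g : g₂ < g := by
    rw [hg₂]
    exact max_lt hgg (by linarith)
  obtain ⟨ε₁, hε₁0, hε₁e, hε₁g, hε₁2⟩ : ∃ ε₁ : ℝ, 0 < ε₁ ∧ ε₁ ≤ e₀ ∧ ε₁ ≤ g / 4 ∧ ε₁ ≤ g - g₂ := by
    refine ⟨min e₀ (min (g / 4) (g - g₂)), lt_min b.e₀0 (lt_min (by linarith) (by linarith)),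
      min_le_left _ _, (min_le_right _ _).trans (min_le_left _ _),
      (min_le_right _ _).trans (min_le_right _ _)⟩
  obtain ⟨θ₁, hθ₁⟩ := Nrm.exists_ok b.nrm hε₁0
  obtain ⟨z, hz⟩ : ∃ z, z = (-PowerSeries.coeff n' Z) ^ J := ⟨_, rfl⟩
  obtain ⟨hz0, hzv, hzm⟩ := h.zu J
  rw [← hz] at hz0 hzv hzm
  have hzi : v.Ge (-(J * (ρ - n' * σ - g))) z⁻¹ := by
    intro _
    rw [v.map_inv hz0, hzv]
  obtain ⟨Pa, hPa, -, hPaj⟩ := hW.phS_poly (b.hΔ hθ₁) n' n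
  obtain ⟨Pb, hPb, hPb0, hPbj⟩ := corrI_poly (S := S) (J := J) (n' := n') hW hψ hu n
  rw [← hn] at hkey hA hB hη
  have hcK₁ := b.cK hθ₁
  obtain ⟨c₁, hc₁⟩ : ∃ c₁, c₁ = Φ m ((θ₁ - θ₀).coeff J) := ⟨_, rfl⟩
  have hc₁K : c₁ ∈ K := hc₁ ▸ b.arc.hsd.mem m _ hcK₁
  have hPS : C c₁ - C z⁻¹ * (Pa - Pb) ∈ PI K :=
    sub_mem (C_mem_PI hc₁K) (mul_mem (C_mem_PI (K.inv_mem hzm)) (sub_mem hPa hPb))
  -- the jets
  have hjets : ∀ i : ℕ, i ≠ 0 → v.Ge (s - J * ρ - m * σ - i * (ρ - g / 2))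
      ((hasseDeriv i (C c₁ - C z⁻¹ * (Pa - Pb))).eval w) := by
    intro i hi
    rw [map_sub, hasseDeriv_C i _ (Nat.pos_of_ne_zero hi), zero_sub, hasse_C_mul, map_sub,
      eval_neg, eval_mul, eval_C, eval_sub, hPaj, hPbj]
    have hi1 : (1 : ℝ) ≤ i := by exact_mod_cast (Nat.one_le_iff_ne_zero.2 hi)
    have ha := hA ε₁ hε₁0 hε₁e hε₁g θ₁ hθ₁ i hi
    have hig : g ≤ i * g := by nlinarith
    by_cases hiJ : i ≤ J
    · have hiJ' : (i : ℝ) ≤ J := by exact_mod_cast hiJ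
      have h1 : (0 : ℝ) ≤ ((J : ℝ) - i) * g := mul_nonneg (by linarith) hg0.le
      refine ((hzi.mul (ha.sub ((hB i hi).mono (by linarith)))).neg).mono ?_
      rw [hnR]
      nlinarith
    · have e1 : PhS Φ w Z n' n (hasseDeriv i (θ₁ - θ₀)) = 0 := by
        rw [hasseDeriv_eq_zero_of_lt_natDegree _ _ ((b.hJd hθ₁).trans_lt (by omega)), rt_phS_zero]
      have e2 : ∑ j ∈ S, u j * (((J.choose i : ℕ) : Ω) *
          PowerSeries.coeff (n - j) (Tn Φ w Z n' ψ ^ (J - i))) = 0 := by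
        refine sum_eq_zero fun j _ => ?_
        rw [Nat.choose_eq_zero_of_lt (by omega), Nat.cast_zero, zero_mul, mul_zero]
      rw [e1, e2, sub_zero, mul_zero, neg_zero]
      exact RVal.Ge.zero
  obtain ⟨ψ', hψ', hwψ'⟩ := b.arc.tl.lim (g / 2) (half_pos hg0)
  have hjet0 := rt_point_ge hjets hwψ'
  refine ⟨_, eval_mem hPS hψ', ε₁, hε₁0, fun ε hε hεε₁ θ hθ => ?_⟩
  have hk := hkey ε hε (by linarith) θ hθ
  -- the difference of the two approximants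
  have hy2 : v.Ge (s - ε₁) ((θ - θ₁).eval w) := by
    have e1 : (θ - θ₁).eval w = (y - θ₁.eval w) - (y - θ.eval w) := by
      rw [eval_sub]
      ring
    rw [e1]
    exact hθ₁.near.sub (hθ.near.mono (by linarith))
  have hJd2 : (θ - θ₁).natDegree ≤ J := rt_coset fun i hi => (hθ.co i hi).trans (hθ₁.co i hi).symm
  have hΔ2 : θ - θ₁ ∈ PI K := sub_mem hθ.mem hθ₁.mem
  have hlin := lin2 (m := m) h b.arc.iso hΔ2 hJd2 hy2 hg21 (by
    rw [← hn]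
    linarith)
  rw [← hn, ← hz] at hlin
  have ec : Φ m ((θ - θ₀).coeff J) = c₁ + Φ m ((θ - θ₁).coeff J) := by
    rw [hc₁, ← b.arc.hsd.add m _ hcK₁ _ (hΔ2 J)]
    congr 1
    rw [coeff_sub, coeff_sub, coeff_sub]
    ring
  have ephs : PhS Φ w Z n' n (θ - θ₁) =
      PhS Φ w Z n' n (θ - θ₀) - PhS Φ w Z n' n (θ₁ - θ₀) := by
    rw [PhS, PhS, PhS, ← ph_sub hW.hsd (b.hΔ hθ) (b.hΔ hθ₁), sub_sub_sub_cancel_right]
  -- the final computation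
  have hPw : (C c₁ - C z⁻¹ * (Pa - Pb)).eval w = c₁ -
      z⁻¹ * (PhS Φ w Z n' n (θ₁ - θ₀) - corrI S u Φ w Z n' ψ J n) := by
    have h3 := hPaj 0
    rw [hasseDeriv_zero', hasseDeriv_zero'] at h3
    rw [eval_sub, eval_C, eval_mul, eval_C, eval_sub, h3, hPb0]
  have e2 : Φ m ((θ - θ₀).coeff J) - (C c₁ - C z⁻¹ * (Pa - Pb)).eval ψ' =
      z⁻¹ * ((PhS Φ w Z n' n (θ - θ₀) - corrI S u Φ w Z n' ψ J n) -
        (PhS Φ w Z n' n (θ - θ₁) - z * Φ m ((θ - θ₁).coeff J))) +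
      ((C c₁ - C z⁻¹ * (Pa - Pb)).eval w - (C c₁ - C z⁻¹ * (Pa - Pb)).eval ψ') := by
    rw [hPw, ephs, ec]
    field_simp
    ring
  rw [e2]
  have hεQ : ε / (p : ℝ) ^ N ≤ ε :=
    div_le_self hε.le (one_le_pow₀ (by exact_mod_cast hp.out.one_lt.le))
  have h9 : v.Ge (s - n * σ - J * g - ε)
      ((PhS Φ w Z n' n (θ - θ₀) - corrI S u Φ w Z n' ψ J n) -
        (PhS Φ w Z n' n (θ - θ₁) - z * Φ m ((θ - θ₁).coeff J))) :=
    (hk.mono (by linarith)).sub (hlin.mono (by nlinarith))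
  refine ((hzi.mul h9).mono ?_).add (hjet0.mono (by linarith))
  rw [hnR]
  nlinarith

/-- **The step** of the downward induction. -/
theorem step (ho : OcH p v K Φ w ρ σ) (hx : OcX p v K Φ w ρ σ)
    (hatt : ∀ m' : ℕ, m < m' → Att p v K Φ w y ρ σ s ν e A N B J R θ₀ m') :
    Att p v K Φ w y ρ σ s ν e A N B J R θ₀ m := by
  classical
  have hQ0 : 0 < p ^ N := Nat.pow_pos hp.out.pos
  have hQR := b.Q0
  have hL0 := b.L0
  have hJ := b.J0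
  have hJR : (0 : ℝ) < J := by exact_mod_cast Nat.pos_of_ne_zero hJ
  have hLR : (0 : ℝ) < (p ^ N * J : ℕ) := by exact_mod_cast hL0
  have hμ := b.mar.pos
  obtain ⟨m₁, δ₁, hm₁, hδ₁, hoc⟩ := hx.oc ν (p ^ N * J) _ (b.fm b.ok) b.pL b.hz b.hn
  obtain ⟨m₂, δ₂, hδ₂, hoc2⟩ := b.hoc2 ho hx
  obtain ⟨g₀, hg₀, htm⟩ := b.top_mar
  obtain ⟨S, hS⟩ : ∃ S, S = (range m₁).filter fun j => m < j ∧ p ^ N * j < m₁ := ⟨_, rfl⟩
  have hSm : ∀ j ∈ S, j < m₁ := fun j hj => by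
    rw [hS, mem_filter, mem_range] at hj
    exact hj.1
  obtain ⟨u, hu, μI, hμI, hI⟩ := b.exists_u S fun j hj => hatt j (by
    rw [hS, mem_filter] at hj
    exact hj.2.1)
  -- the point
  obtain ⟨δ, hδ0, hδ1, hδ2, hδ3, hLδ, hJδ⟩ : ∃ δ : ℝ, 0 < δ ∧ δ ≤ δ₁ ∧ δ ≤ δ₂ ∧ δ ≤ δ₀ ∧
      (p ^ N * J : ℕ) * δ < μ₂ ∧ J * δ ≤ μI := by
    refine ⟨min (min δ₁ δ₂) (min δ₀ (min (μ₂ / (2 * (p ^ N * J : ℕ))) (μI / J))), ?_, ?_, ?_, ?_,
      ?_, ?_⟩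
    · have := b.δ₀0
      have := b.μ₂0
      positivity
    · exact (min_le_left _ _).trans (min_le_left _ _)
    · exact (min_le_left _ _).trans (min_le_right _ _)
    · exact (min_le_right _ _).trans (min_le_left _ _)
    · have h1 : min (min δ₁ δ₂) (min δ₀ (min (μ₂ / (2 * (p ^ N * J : ℕ))) (μI / J))) ≤
          μ₂ / (2 * (p ^ N * J : ℕ)) :=
        (min_le_right _ _).trans ((min_le_right _ _).trans (min_le_left _ _))
      rw [le_div_iff₀ (by positivity)] at h1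
      linarith [b.μ₂0]
    · have h1 : min (min δ₁ δ₂) (min δ₀ (min (μ₂ / (2 * (p ^ N * J : ℕ))) (μI / J))) ≤ μI / J :=
        (min_le_right _ _).trans ((min_le_right _ _).trans (min_le_right _ _))
      rw [le_div_iff₀ hJR] at h1
      linarith
  obtain ⟨ψ, hψ, hwψ⟩ := b.arc.tl.lim δ hδ0
  obtain ⟨β, hβ⟩ := exists_ge_val v ((hasseDeriv (p ^ N * J) (fth p e A N B θ₀)).eval ψ)
  obtain ⟨β₁, hβ₁⟩ := exists_ge_fin v S u
  obtain ⟨β₂, hβ₂⟩ : ∃ β₂, β₂ = β₁ - m₁ * |σ| := ⟨_, rfl⟩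
  have huβ : ∀ j ∈ S, v.Ge (β₂ - j * σ) (u j) := by
    intro j hj
    refine (hβ₁ j hj).mono ?_
    have h1 : (j : ℝ) ≤ m₁ := by exact_mod_cast (hSm j hj).le
    have h2 : -(j * σ) ≤ j * |σ| := by
      have := mul_le_mul_of_nonneg_left (neg_abs_le σ) (Nat.cast_nonneg (α := ℝ) j)
      linarith
    have h3 : (j : ℝ) * |σ| ≤ m₁ * |σ| := mul_le_mul_of_nonneg_right h1 (abs_nonneg σ)
    rw [hβ₂]
    linarith
  obtain ⟨M, hM1, hM2⟩ : ∃ M : ℝ, ν < M + ((p ^ N * J : ℕ) - 1) * (ρ - δ) + β ∧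
      s - β₂ + J * |ρ| + J * |ρ - δ| ≤ M := by
    refine ⟨max (ν - ((p ^ N * J : ℕ) - 1) * (ρ - δ) - β + 1) (s - β₂ + J * |ρ| + J * |ρ - δ|),
      ?_, le_max_right _ _⟩
    have := le_max_left (ν - ((p ^ N * J : ℕ) - 1) * (ρ - δ) - β + 1)
      (s - β₂ + J * |ρ| + J * |ρ - δ|)
    linarith
  obtain ⟨n₀, hn₀⟩ := hoc ψ hψ (hwψ.mono (by linarith))
  obtain ⟨n₁, hT⟩ := hx.tge ψ hψ δ hδ0.le hwψ M
  -- the record
  obtain ⟨n', g, g₁, η₀, hn', hn'0, hg₁0, hgg, hgη, hη₀, hrec⟩ := ho.recd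
    (min g₀ (μ / (8 * (p ^ N * J : ℕ)))) (max (max n₀ n₁) (max (max m₁ m₂) (p ^ N * m + 1)))
    (lt_min hg₀ (by positivity))
  have hg0 : 0 < g := hg₁0.trans hgg
  obtain ⟨hn'1, hn'2, hn'3, hn'4, hn'5⟩ : n₀ ≤ n' ∧ n₁ ≤ n' ∧ m₁ ≤ n' ∧ m₂ ≤ n' ∧
      p ^ N * m < n' := by omega
  have hgg₀ : g ≤ g₀ := hgη.le.trans (min_le_left _ _)
  have hLg : ((p ^ N * J : ℕ) : ℝ) * g ≤ μ / 8 := by
    have h1 : g ≤ μ / (8 * (p ^ N * J : ℕ)) := hgη.le.trans (min_le_right _ _)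
    rw [le_div_iff₀ (by positivity)] at h1
    linarith
  have hn'n : n' ≤ J * n' + m := by
    have : 1 * n' ≤ J * n' := Nat.mul_le_mul_right n' (Nat.one_le_iff_ne_zero.2 hJ)
    omega
  have hn0 : 0 < J * n' + m := by omega
  have hNp : (0 : ℝ) < (p ^ N * (J * n' + m) : ℕ) := by
    exact_mod_cast Nat.mul_pos hQ0 hn0
  -- the noise
  obtain ⟨η, hη0, hη1, hη2, hη3, hη4, hη5, hη6⟩ : ∃ η : ℝ, 0 < η ∧ η ≤ η₀ ∧ η ≤ δ ∧ η ≤ g₁ ∧
      ((p ^ N * (J * n' + m) : ℕ) : ℝ) * η ≤ g / 4 ∧ m * η ≤ g - g₁ ∧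
      (p ^ N * m : ℕ) * η ≤ μ₂ := by
    have hμ₂ := b.μ₂0
    have hgg' : 0 < g - g₁ := by linarith
    obtain ⟨x, hx⟩ : ∃ x : ℝ, x = min (min (min η₀ δ) (min g₁
      (g / (4 * (p ^ N * (J * n' + m) : ℕ))))) (min ((g - g₁) / (m + 1))
        (μ₂ / ((p ^ N * m : ℕ) + 1))) := ⟨_, rfl⟩
    have hx0 : 0 < x := by
      rw [hx]
      positivity
    refine ⟨x, hx0, ?_, ?_, ?_, ?_, ?_, ?_⟩
    · rw [hx]
      exact (min_le_left _ _).trans ((min_le_left _ _).trans (min_le_left _ _))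
    · rw [hx]
      exact (min_le_left _ _).trans ((min_le_left _ _).trans (min_le_right _ _))
    · rw [hx]
      exact (min_le_left _ _).trans ((min_le_right _ _).trans (min_le_left _ _))
    · have h1 : x ≤ g / (4 * (p ^ N * (J * n' + m) : ℕ)) := by
        rw [hx]
        exact (min_le_left _ _).trans ((min_le_right _ _).trans (min_le_right _ _))
      rw [le_div_iff₀ (by positivity)] at h1
      linarith
    · have h1 : x ≤ (g - g₁) / (m + 1) := by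
        rw [hx]
        exact (min_le_right _ _).trans (min_le_left _ _)
      rw [le_div_iff₀ (by positivity)] at h1
      linarith
    · have h1 : x ≤ μ₂ / ((p ^ N * m : ℕ) + 1) := by
        rw [hx]
        exact (min_le_right _ _).trans (min_le_right _ _)
      rw [le_div_iff₀ (by positivity)] at h1
      linarith
  obtain ⟨c, hc, hwc⟩ := b.arc.tl.lim η hη0
  obtain ⟨hz0, hvz, hgt⟩ := hrec η hη0 hη1 c hc hwc
  have e1 : PowerSeries.coeff n' (Zc Φ c) = Φ n' c := by rw [coeff_Zc, if_neg hn'0]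
  have hW : Wd v K Φ w (Zc Φ c) ρ σ η g g₁ n' :=
    { set := setJ_Zc b.arc.hsd b.arc.oi b.arc.tl b.arc.iso hη0.le hc hwc
      η0 := hη0.le
      n0 := hn'0
      g10 := hg₁0.le
      gg := hgg
      z0 := by rwa [e1]
      zv := by rw [e1, hvz]
      zf := fun n hn => by
        rw [coeff_Zc, if_neg (by omega)]
        have h1 := hgt n hn
        rwa [max_eq_left hη3] at h1 }
  obtain ⟨hT1, hT2⟩ := hT n' hn'2 c hc (hwc.mono (by linarith))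
  have hnη : ((J * n' + m : ℕ) : ℝ) * η ≤ g / 4 := by
    refine le_trans ?_ hη4
    refine mul_le_mul_of_nonneg_right ?_ hη0.le
    exact_mod_cast Nat.le_mul_of_pos_left _ hQ0
  have hn'η : (n' : ℝ) * η ≤ g / 4 := by
    refine le_trans ?_ hnη
    refine mul_le_mul_of_nonneg_right ?_ hη0.le
    exact_mod_cast hn'n
  have hn'η0 : 0 ≤ (n' : ℝ) * η := by positivity
  have hf0 := b.phS_f0 (m := m) (M := M) (β := β) hW.set hψ hδ3 hwψ hLδ hT1 hT2 hβ hM1 hn'3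
    (hn₀ n' hn'1 c hc (hwc.mono (by linarith)) _ (Nat.mul_pos hQ0 hn0).ne' (by
      have : p ^ N * (J * n' + m) = p ^ N * J * n' + p ^ N * m := by ring
      omega)) hS
  have hμ' : (p : ℝ) ^ N * (e₀ + J * (g - n' * η)) < μ := by
    have h1 : (p : ℝ) ^ N * (J * (g - n' * η)) ≤ ((p ^ N * J : ℕ) : ℝ) * g := by
      have h2 : (J : ℝ) * (g - n' * η) ≤ J * g :=
        mul_le_mul_of_nonneg_left (by linarith) hJR.le
      have h3 := mul_le_mul_of_nonneg_left h2 hQR.le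
      push_cast
      linarith
    rw [mul_add]
    linarith [b.e₀μ]
  have hoc' : ∀ i n : ℕ, n ≠ 0 → p ^ N * J * n' + m₂ ≤ p ^ N * n + p ^ N * i * n' →
      PG p v (cadj v K w) (ν - (p ^ N * i : ℕ) * ρ - (p ^ N * n : ℕ) * (σ + η))
        (PhS Φ w (Zc Φ c) n' (p ^ N * n) (hasseDeriv (p ^ N * i) (fth p e A N B θ₀))) := by
    intro i n hn hin
    refine (hoc2 n' hn'4 c hc (hwc.mono (by linarith)) _ _ (Nat.mul_ne_zero hQ0.ne' hn)
      ((dvd_pow_self p (by have := b.nrm.N1; omega)).trans (dvd_mul_right _ _)) hin).mono ?_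
    have : 0 ≤ ((p ^ N * n : ℕ) : ℝ) * η := by positivity
    linarith
  have hkey : ∀ ε : ℝ, 0 < ε → ε ≤ e₀ → ∀ θ : Polynomial Ω,
      Ok p v K w y s ν e A N B J R ε θ →
      v.Ge (s - (J * n' + m : ℕ) * σ - J * g - ε / p ^ N)
        (PhS Φ w (Zc Φ c) n' (J * n' + m) (θ - θ₀) -
          corrI S u Φ w (Zc Φ c) n' ψ J (J * n' + m)) :=
    fun ε hε hεe θ hθ => b.key2 hθ hε hεe hW hψ hT1 hf0 hμ' (htm g hgg₀) hoc' hn'4 hn'5
      (by linarith) hη5 hη6 hu hJδ (fun j hj => by have := hSm j hj; omega) hI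
  exact b.att_of_key hW hψ hu hkey hnη
    (fun ε hε hεe hεg θ hθ i hi => b.jetA hθ hε hεe hW hμ' (htm g hgg₀) hoc' hn'4 hnη hεg hi)
    (fun i hi => corrI_jet hT1 hT2 huβ hSm hn'3 hJ hi hM2)

end Bse

/-- The base data exist. -/
theorem exists_bse (h : ArcI p v K Φ w ρ σ) (hN : Nrm p v K w y ρ s ν e A N B J R) (hJ : J ≠ 0)
    (htop : Top p v K w ρ ν e A N B J R) :
    ∃ (θ₀ : Polynomial Ω) (e₀ μ μ₂ δ₀ : ℝ) (κ : Ω),
      Bse p v K Φ w y ρ σ s ν e A N B J R θ₀ e₀ μ μ₂ δ₀ κ := by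
  obtain ⟨μ, hM⟩ := exists_mar h hN.toDt
  have hμ := hM.pos
  have hp0 : (0 : ℝ) < p := by exact_mod_cast hp.out.pos
  have he₀0 : 0 < μ / (4 * p ^ N) := by positivity
  obtain ⟨θ₀, hθ₀⟩ := Nrm.exists_ok hN he₀0
  have hf₀ : fth p e A N B θ₀ ∈ PI K := fth_mem hN.toDt hN.BC hθ₀.mem
  have hpL : p ∣ p ^ N * J := (dvd_pow_self p (by have := hN.N1; omega)).mul_right J
  have hL0 : 0 < p ^ N * J := Nat.mul_pos (Nat.pow_pos hp.out.pos) (Nat.pos_of_ne_zero hJ)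
  have hz : ∀ l, p ^ N * J < l → ¬ p ∣ l → hasseDeriv l (fth p e A N B θ₀) = 0 :=
    fun l hl hpl => hN.clsX hθ₀.cls l (by omega) hpl
  have hn : ∀ l : ℕ, p ^ N * J < l → p ∣ l →
      PG p v (cadj v K w) (ν - l * ρ) ((hasseDeriv l (fth p e A N B θ₀)).eval w) := by
    intro l hl hpl
    rw [rt_fth_hi (rt_coset hθ₀.co) hl]
    exact htop l hl hpl
  obtain ⟨μ', δ', hμ', hδ', hdeep⟩ := exists_deep h.tl hf₀ hn
  obtain ⟨D, hD⟩ : ∃ D : ℕ, D = (fth p e A N B θ₀).natDegree := ⟨_, rfl⟩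
  obtain ⟨δ, hδ0, hδ1, hδ2⟩ : ∃ δ : ℝ, 0 < δ ∧ δ ≤ δ' ∧ D * δ ≤ μ' / 2 := by
    refine ⟨min δ' (μ' / (2 * (D + 1))), lt_min hδ' (by positivity), min_le_left _ _, ?_⟩
    have h1 : min δ' (μ' / (2 * (D + 1))) ≤ μ' / (2 * (D + 1)) := min_le_right _ _
    have h2 : 0 < min δ' (μ' / (2 * (D + 1))) := lt_min hδ' (by positivity)
    rw [le_div_iff₀ (by positivity)] at h1
    linarith
  obtain ⟨ψ, hψ, hwψ⟩ := h.tl.lim δ hδ0
  refine ⟨θ₀, _, μ, μ' / 2, δ, (hasseDeriv (p ^ N * J) (fth p e A N B θ₀)).eval ψ,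
    { arc := h
      nrm := hN
      top := htop
      mar := hM
      J0 := hJ
      ok := hθ₀
      e₀0 := he₀0
      e₀μ := le_of_eq (by field_simp)
      μ₂0 := half_pos hμ'
      δ₀0 := hδ0
      κK := eval_mem (hasse_mem_PI hf₀ _) hψ
      κn := fun x hx hwx => jet_diff hpL hz hψ
        (hdeep ψ hψ (hwψ.mono (by linarith))) hδ0.le (by rw [← hD]; exact hδ2)
        (le_cadj v K w) hx ?_ }⟩
  have e1 : x - ψ = (w - ψ) - (w - x) := by ring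
  rw [e1]
  exact hwψ.sub hwx

/-- All the coefficients along the arc are attained. -/
theorem Bse.att (b : Bse p v K Φ w y ρ σ s ν e A N B J R θ₀ e₀ μ μ₂ δ₀ κ)
    (ho : OcH p v K Φ w ρ σ) (hx : OcX p v K Φ w ρ σ) (m : ℕ) :
    Att p v K Φ w y ρ σ s ν e A N B J R θ₀ m := by
  obtain ⟨M, hM⟩ := b.att_large
  have key : ∀ n m : ℕ, M ≤ m + n → Att p v K Φ w y ρ σ s ν e A N B J R θ₀ m := by
    intro n
    induction n with
    | zero => exact fun m hm => hM m (by omega)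
    | succ n ih =>
      intro m hm
      exact b.step ho hx fun m' hm' => ih m' (by omega)
  exact key M m (by omega)

/-- (G3'): the top visible jet is attained: the coefficients of index `J` of the approximants
converge, up to the radius, to a coefficient in `K`. -/
theorem top_jet (h : ArcI p v K Φ w ρ σ) (ho : OcH p v K Φ w ρ σ) (hx : OcX p v K Φ w ρ σ)
    (hN : Nrm p v K w y ρ s ν e A N B J R) (hJ : J ≠ 0) (htop : Top p v K w ρ ν e A N B J R) :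
    ∃ θ₀ ∈ PI K, (∀ i, J < i → θ₀.coeff i = R.coeff i) ∧
      (e ≠ 0 → ∀ l, ¬ p ∣ l → hasseDeriv l θ₀ = 0) ∧
      ∃ c ∈ K, ∃ ε₁ : ℝ, 0 < ε₁ ∧ ∀ ε : ℝ, 0 < ε → ε ≤ ε₁ → ∀ θ ∈ PI K,
        (∀ i, J < i → θ.coeff i = R.coeff i) → (e ≠ 0 → ∀ l, ¬ p ∣ l → hasseDeriv l θ = 0) →
        v.Ge (s - ε) (y - θ.eval w) →
        TWII.LP p v (cadj v K w) (ν - ε) ((fth p e A N B θ).eval w) →
        v.Ge (s - J * ρ - ε) ((θ - θ₀).coeff J - c) := by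
  obtain ⟨θ₀, e₀, μ, μ₂, δ₀, κ, b⟩ := exists_bse h hN hJ htop
  obtain ⟨c, hc, ε₁, hε₁, h1⟩ := b.att ho hx 0
  refine ⟨θ₀, b.ok.mem, b.ok.co, b.ok.cls, c, hc, ε₁, hε₁, fun ε hε hεε θ hθ h2 h3 h4 h5 => ?_⟩
  have hθo : Ok p v K w y s ν e A N B J R ε θ := ⟨hθ, h2, h3, h4, h5⟩
  have h6 := h1 ε hε hεε θ hθo
  rw [h.hsd.c0 _ (b.cK hθo)] at h6
  exact h6.mono (by simp)

end Pool.Agent.TWNI
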