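import Pool.Agent.Lib.TWN1.RatB
import Pool.Agent.Lib.TWNI.RtL

/-!
# TANK W, text N1': RAT for an exact arc, the conclusion

`ratI`: by induction on `J`, `y - g(w)` has constant approximants.
-/

set_option autoImplicit false
set_option linter.unusedSectionVars false

open Polynomial Finset

namespace Pool.Agent.TWNI

open Pool.Agent.H15JM (RVal)
open Pool.Agent.TWM
open Pool.Agent.TWII (PG LP)
open Pool.Agent.TWLM (HSd Oi)
open Pool.Agent.TWN1

universe u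

variable {k Ω : Type u} [Field k] [Field Ω] [Algebra k Ω] [IsAlgClosed Ω] {v : RVal Ω}
  {K : IntermediateField k Ω} {Φ : ℕ → Ω → Ω} {w y : Ω} {ρ σ : ℝ}
  {p : ℕ} [hp : Fact p.Prime] [CharP Ω p] {e : Ω} {A : ℕ → Ω} {N J : ℕ}
  {B R : Polynomial Ω} {s ν : ℝ}

/-- One step. The new family is `θ - θ₀ - C c * X ^ J - C (c_θ - c) * (X - C ψ) ^ J`,
`g = θ₀ + C c * X ^ J`, `ψ` near `w`. -/
theorem stepI (h : ArcI p v K Φ w ρ σ) (ho : OcH p v K Φ w ρ σ)
    (hx : OcX p v K Φ w ρ σ)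
    (hN : Nrm p v K w y ρ s ν e A N B J R) (hJ : J ≠ 0) (hpJ : e ≠ 0 → p ∣ J)
    (htop : Top p v K w ρ ν e A N B J R) :
    ∃ g ∈ PI K, Nrm p v K w (y - g.eval w) ρ s ν e A N (fth p e A N B g) (J - 1) 0 := by
  obtain ⟨θ₀, hθ₀, h0, h1, c, hc, ε₁, hε₁, h2⟩ := top_jet h ho hx hN hJ htop
  have hX : e ≠ 0 → ∀ l, ¬ p ∣ l → hasseDeriv l (θ₀ + C c * X ^ J) = 0 := by
    intro he l hl
    rw [map_add, h1 he l hl, zero_add, hasse_C_mul, rb_hasse_pow (hpJ he) hl, mul_zero]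
  have hg : θ₀ + C c * X ^ J ∈ PI K := add_mem hθ₀ (mul_mem (C_mem_PI hc) (pow_mem X_mem_PI _))
  refine ⟨θ₀ + C c * X ^ J, hg,
    { toDt := hN.toDt
      toAdm := rb_adm
      BC := fth_mem hN.toDt hN.BC hg
      BX := hN.clsX hX
      B1 := hN.cls1 hX
      eB := hN.eB.imp_right fun h3 => by rw [hN.cls hX (Nat.Prime.not_dvd_one hp.out), h3]
      fam := fun ε hε => ?_ }⟩
  have hJ0 : (0 : ℝ) < J := by exact_mod_cast Nat.pos_of_ne_zero hJ
  have hp0 : (0 : ℝ) < p := by exact_mod_cast hp.out.pos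
  have hQ0 : (0 : ℝ) < (p : ℝ) ^ N := by positivity
  have hQ1 : (1 : ℝ) ≤ (p : ℝ) ^ N := one_le_pow₀ (by exact_mod_cast hp.out.one_lt.le)
  obtain ⟨η, hη, hη1, hη2, hη3⟩ : ∃ η : ℝ, 0 < η ∧ η ≤ ε₁ ∧ 2 * η ≤ ε ∧ p ^ N * (2 * η) ≤ ε := by
    refine ⟨min ε₁ (ε / (2 * p ^ N)), lt_min hε₁ (by positivity), min_le_left _ _, ?_, ?_⟩
    · have h3 : min ε₁ (ε / (2 * p ^ N)) ≤ ε / (2 * p ^ N) := min_le_right _ _
      rw [le_div_iff₀ (by positivity)] at h3
      have h4 : 0 < min ε₁ (ε / (2 * p ^ N)) := lt_min hε₁ (by positivity)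
      nlinarith
    · have h3 : min ε₁ (ε / (2 * p ^ N)) ≤ ε / (2 * p ^ N) := min_le_right _ _
      rw [le_div_iff₀ (by positivity)] at h3
      linarith
  obtain ⟨θ, hθ, h3, h4, h5, h6⟩ := hN.fam η hη
  have h7 := h2 η hη hη1 θ hθ h3 h4 h5 h6
  obtain ⟨ψ, hψ, h8⟩ := h.tl.lim (η / J) (by positivity)
  set d : Ω := (θ - θ₀).coeff J - c with hd
  have hdK : d ∈ K := sub_mem (by rw [coeff_sub]; exact sub_mem (hθ J) (hθ₀ J)) hc
  have hP : C d * (X - C ψ) ^ J ∈ PI K :=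
    mul_mem (C_mem_PI hdK) (pow_mem (sub_mem X_mem_PI (C_mem_PI hψ)) _)
  have hPv : v.Ge (s - 2 * η) ((C d * (X - C ψ) ^ J).eval w) := by
    rw [eval_mul, eval_C, eval_pow, eval_sub, eval_X, eval_C]
    refine (h7.mul (ge_pow h8 J)).mono (le_of_eq ?_)
    field_simp
    ring
  have hmon : ((X - C ψ) ^ J).Monic := (monic_X_sub_C ψ).pow J
  have hdeg : ((X - C ψ) ^ J).natDegree = J := by
    rw [(monic_X_sub_C ψ).natDegree_pow, natDegree_X_sub_C, mul_one]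
  refine ⟨θ - (θ₀ + C c * X ^ J) - C d * (X - C ψ) ^ J, sub_mem (sub_mem hθ hg) hP, ?_, ?_, ?_, ?_⟩
  · intro i hi
    rw [coeff_zero, coeff_sub, coeff_sub, coeff_add, coeff_C_mul, coeff_C_mul, coeff_X_pow]
    by_cases hiJ : i = J
    · subst hiJ
      have h9 : ((X - C ψ) ^ i).coeff i = 1 := by
        have h10 := hmon.coeff_natDegree
        rwa [hdeg] at h10
      rw [if_pos rfl, h9, hd, coeff_sub]
      ring
    · have h9 : ((X - C ψ) ^ J).coeff i = 0 :=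
        coeff_eq_zero_of_natDegree_lt (by rw [hdeg]; omega)
      rw [if_neg hiJ, h9, h3 i (by omega), h0 i (by omega)]
      ring
  · intro he l hl
    rw [map_sub, map_sub, h4 he l hl, hX he l hl, hasse_C_mul, rb_hasse_pow (hpJ he) hl, mul_zero,
      sub_zero, sub_zero]
  · have e1 : y - (θ₀ + C c * X ^ J).eval w - (θ - (θ₀ + C c * X ^ J) - C d * (X - C ψ) ^ J).eval w =
        (y - θ.eval w) + (C d * (X - C ψ) ^ J).eval w := by
      rw [eval_sub (θ - (θ₀ + C c * X ^ J)), eval_sub θ]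
      ring
    rw [e1]
    exact (h5.mono (by linarith)).add (hPv.mono (by linarith))
  · rw [rb_fth]
    have e2 : θ - (θ₀ + C c * X ^ J) - C d * (X - C ψ) ^ J + (θ₀ + C c * X ^ J) =
        θ - C d * (X - C ψ) ^ J := by ring
    rw [e2]
    refine lp_mono (hN.lev (sub_mem hθ hP) (η := 2 * η) (by positivity) ?_) (by linarith)
    have e3 : y - (θ - C d * (X - C ψ) ^ J).eval w =
        (y - θ.eval w) + (C d * (X - C ψ) ^ J).eval w := by
      rw [eval_sub]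
      ring
    rw [e3]
    exact (h5.mono (by linarith)).add hPv

/-- **RAT** for an exact arc. -/
theorem ratI (h : ArcI p v K Φ w ρ σ) (ho : OcH p v K Φ w ρ σ) (hx : OcX p v K Φ w ρ σ)
    (hN : Nrm p v K w y ρ s ν e A N B J 0) :
    ∃ g ∈ PI K, Nrm p v K w (y - g.eval w) ρ s ν e A N (fth p e A N B g) 0 0 := by
  induction J generalizing y B with
  | zero =>
    refine ⟨0, zero_mem _, ?_⟩
    have e1 : fth p e A N B 0 = B := by
      rw [fth, mul_zero, zero_add, sum_eq_zero, zero_add]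
      intro i _
      rw [zero_pow (pow_ne_zero _ hp.out.ne_zero), mul_zero]
    rwa [eval_zero, sub_zero, e1]
  | succ J ih =>
    by_cases he : e ≠ 0 ∧ ¬ p ∣ J + 1
    · exact ih (hN.low_e he.1 he.2)
    · obtain ⟨R', hR', htop⟩ := exists_R h ho (by omega : 1 ≤ J + 1) hN
      obtain ⟨g₁, hg₁, h1⟩ := stepI h ho hx hR' (Nat.succ_ne_zero J)
        (fun h2 => by_contra fun h3 => he ⟨h2, h3⟩) htop
      obtain ⟨g₂, hg₂, h2⟩ := ih h1
      refine ⟨g₂ + g₁, add_mem hg₂ hg₁, ?_⟩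
      rw [rb_fth] at h2
      have e1 : y - (g₂ + g₁).eval w = y - g₁.eval w - g₂.eval w := by
        rw [eval_add]
        ring
      rwa [e1]

/-- **RAT**, the consequence for the type. -/
theorem ratI_tl (h : ArcI p v K Φ w ρ σ) (ho : OcH p v K Φ w ρ σ) (hx : OcX p v K Φ w ρ σ)
    (hy : TL v (cadj v K w) y s) (hN : Nrm p v K w y ρ s ν e A N B J 0) :
    ∃ g ∈ PI K, Nrm p v K w (y - g.eval w) ρ s ν e A N (fth p e A N B g) 0 0 ∧
      TL v K (y - g.eval w) s := by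
  obtain ⟨g, hg, h1⟩ := ratI h ho hx hN
  refine ⟨g, hg, h1, h1.tl ?_⟩
  exact hy.sub_mem (eval_mem (PI_mono (le_cadj v K w) hg) (self_mem_cadj v K w))

end Pool.Agent.TWNI
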