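import Pool.Agent.Lib.TWNI.EndE
import Pool.Agent.Lib.TWNI.OcC
import Pool.Agent.Lib.TWNI.RatI

/-!
# TANK W, text N1' (exact arcs): H0 and RAT, and the final form of the dichotomy

* `ArcI.h0w`, `ArcI.ratH`: H0 and RAT for an exact arc with infinitely many jets of positive size;
* `ArcI.resI`: **N1'** without hypothesis: every critical element of `C(w, y₀)` satisfies `ResE`.
-/

set_option autoImplicit false

open Polynomial Finset

namespace Pool.Agent.TWNI

open Pool.Agent.H15JM (RVal)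
open Pool.Agent.TWM
open Pool.Agent.TWII (PG LP)
open Pool.Agent.TWN1
open Pool.Agent.TWRR (H0w RatH)

universe u

variable {k Ω : Type u} [Field k] [Field Ω] [Algebra k Ω] [IsAlgClosed Ω] {v : RVal Ω}
  {C K : IntermediateField k Ω} {Φ : ℕ → Ω → Ω} {w y₀ : Ω} {ρ σ s ν : ℝ} {p : ℕ}
  [hp : Fact p.Prime] [CharP Ω p]

/-- **H0** for an exact arc. -/
theorem ArcI.h0w (h : ArcI p v C Φ w ρ σ) (hinf : InfI v C Φ w ρ σ) : H0w p v C w ρ :=
  fun f ν hf hX hν l hl hpl => (ocH h hinf).h0 ν f hf hX hν l hl hpl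

/-- **RAT** for an exact arc. -/
theorem ArcI.ratH (h : ArcI p v C Φ w ρ σ) (hinf : InfI v C Φ w ρ σ) : RatH p v C w ρ :=
  fun _ _ _ _ _ _ _ _ hN => ratI h (ocH h hinf) h.ocX hN

/-- **N1'**: an exact arc, one letter `y₀` over `C(w)`; every critical element satisfies the
dichotomy. -/
theorem ArcI.resI (hΩ : CompleteV v) (h : ArcI p v C Φ w ρ σ)
    (hy : TL v (cadj v C w) y₀ s) (hK : K = cadj v (cadj v C w) y₀) {a : Ω} (ha : a ∈ K)
    (hlp : LP p v K ν a) : ResE p v C K σ Φ ν a :=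
  h.resE hΩ h.h0w h.ratH hy hK ha hlp

end Pool.Agent.TWNI
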