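import Pool.Agent.Lib.TWNI.Ch3

/-!
# TANK W, text N1': exact arcs from pointwise properties

`arcI_mk`: an isometric overconvergent arc which is pointwise strict and null on limits of `p`-th
powers, coefficient by coefficient, is an `ArcI`.
-/

set_option autoImplicit false
set_option linter.unusedSectionVars false

open Polynomial Finset

namespace Pool.Agent.TWNI

open Pool.Agent.H15JM (RVal)
open Pool.Agent.TWM
open Pool.Agent.TWII (PG LP)
open Pool.Agent.TWLM (HSd Oi)
open Pool.Agent.TWN1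

universe u

variable {k Ω : Type u} [Field k] [Field Ω] [Algebra k Ω] {v : RVal Ω}
  {C : IntermediateField k Ω} {Φ : ℕ → Ω → Ω} {w : Ω} {ρ σ : ℝ}
  {p : ℕ} [hp : Fact p.Prime] [CharP Ω p] [IsAlgClosed Ω]

/-- An exact arc from its pointwise properties. -/
theorem arcI_mk (hΦ : HSd C Φ) (hoi : Oi v C σ Φ) (hw : TL v C w ρ)
    (hiso : ∀ n : ℕ, ∀ x ∈ C, ∀ b, v.Ge b x → v.Ge (b - n * σ) (Φ n x))
    (hptw : ∀ n : ℕ, n ≠ 0 → ∀ x ∈ C, ∀ b, v.Ge b x → Gt v (b - n * σ) (Φ n x))
    (hnull : ∀ n : ℕ, n ≠ 0 → ∀ c : ℝ, ∀ x ∈ C, LP p v C c x → PG p v C (c - n * σ) (Φ n x)) :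
    ArcI p v C Φ w ρ σ where
  hsd := hΦ
  oi := hoi
  tl := hw
  iso := hiso
  em := fun x hx b hb => by
    obtain ⟨M, hM⟩ := hoi x hx (b + 1)
    obtain ⟨μ, hμ, h1⟩ := exists_min_pos (range M)
      (fun m a => m ≠ 0 → v.Ge (b - m * σ + a) (Φ m x))
      (fun m a a' ha h2 hm => (h2 hm).mono (by linarith))
      (fun m _ => by
        by_cases hm : m = 0
        · exact ⟨1, one_pos, fun h => absurd hm h⟩
        · obtain ⟨a, ha, h2⟩ := TWLM.exists_ge_of_gt (hptw m hm x hx b hb)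
          exact ⟨a, ha, fun _ => h2⟩)
    refine ⟨min μ 1, lt_min hμ one_pos, fun m hm => ?_⟩
    by_cases h2 : m < M
    · exact (h1 m (mem_range.2 h2) hm).mono (by linarith [min_le_left μ 1])
    · exact (hM m (not_lt.1 h2)).mono (by linarith [min_le_right μ 1])
  crit := fun c x hx hl => by
    obtain ⟨M, hM⟩ := hoi x hx (c + 1)
    obtain ⟨μ, hμ, h1⟩ := exists_min_pos (range M)
      (fun m a => m ≠ 0 → PC p v C (c - m * σ + a) (Φ m x))
      (fun m a a' ha h2 hm => (h2 hm).mono (by linarith))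
      (fun m _ => by
        by_cases hm : m = 0
        · exact ⟨1, one_pos, fun h => absurd hm h⟩
        · obtain ⟨a, ha, h2⟩ := PG.exists_pc (hnull m hm c x hx hl)
          exact ⟨a, ha, fun _ => h2⟩)
    refine ⟨min μ 1, lt_min hμ one_pos, fun m hm => ?_⟩
    by_cases h2 : m < M
    · exact (h1 m (mem_range.2 h2) hm).mono (by linarith [min_le_left μ 1])
    · exact PC.of_ge ((hM m (not_lt.1 h2)).mono (by linarith [min_le_right μ 1]))

end Pool.Agent.TWNI
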