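import Pool.Agent.Lib.TWN1.Chain3

/-!
# TANK W, text N1' (exact arcs): the isometric setting

`SetJ v C Φ w Z ρ σ`: `Φ` is an overconvergent arc of `C` of radius `σ` (isometric, not strict), `w`
is of transcendental type over `C` with radius `ρ`, and `Z n` is near `Φ n c` for `c` near `w`.
If `Φ` is isometric of radius `σ` and `Z n = Φ n c`, `w - c` of value `≥ ρ - η`, this holds for
`σ + η`.
-/

set_option autoImplicit false
set_option linter.unusedSectionVars false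

open Polynomial Finset

namespace Pool.Agent.TWNI

open Pool.Agent.H15JM (RVal)
open Pool.Agent.TWM
open Pool.Agent.TWII (PG LP)
open Pool.Agent.TWLM (HSd Oi)
open Pool.Agent.TWN1

universe u

variable {k Ω : Type u} [Field k] [Field Ω] [Algebra k Ω] {v : RVal Ω}
  {C : IntermediateField k Ω} {Φ : ℕ → Ω → Ω} {w : Ω} {Z : PowerSeries Ω} {ρ σ : ℝ}

/-- The isometric setting. -/
structure SetJ (v : RVal Ω) (C : IntermediateField k Ω) (Φ : ℕ → Ω → Ω) (w : Ω)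
    (Z : PowerSeries Ω) (ρ σ : ℝ) : Prop where
  hsd : HSd C Φ
  oi : Oi v C σ Φ
  tl : TL v C w ρ
  z0 : PowerSeries.coeff 0 Z = 0
  zmem : ∀ n, PowerSeries.coeff n Z ∈ C
  iso : ∀ n : ℕ, ∀ x ∈ C, ∀ b, v.Ge b x → v.Ge (b - n * σ) (Φ n x)
  near : ∀ n : ℕ, n ≠ 0 → ∀ c ∈ C, ∀ b, v.Ge b (w - c) →
    v.Ge (min b ρ - n * σ) (PowerSeries.coeff n Z - Φ n c)

/-- The passage from `σ` to `σ + η`. -/
theorem setJ_mk (hΦ : HSd C Φ) (hoi : Oi v C σ Φ) (hw : TL v C w ρ)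
    (hiso : ∀ n : ℕ, ∀ x ∈ C, ∀ b, v.Ge b x → v.Ge (b - n * σ) (Φ n x)) {η : ℝ} (hη : 0 ≤ η)
    (h0 : PowerSeries.coeff 0 Z = 0) (hZ : ∀ n, PowerSeries.coeff n Z ∈ C)
    (hnear : ∀ n : ℕ, n ≠ 0 → ∀ c ∈ C, ∀ b, v.Ge b (w - c) →
      v.Ge (min b (ρ - η) - n * σ) (PowerSeries.coeff n Z - Φ n c)) :
    SetJ v C Φ w Z ρ (σ + η) where
  hsd := hΦ
  oi := fun x hx b => by
    obtain ⟨n₀, h1⟩ := hoi x hx b
    refine ⟨n₀, fun n hn => (h1 n hn).mono ?_⟩
    have : (0 : ℝ) ≤ n * η := by positivity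
    linarith
  tl := hw
  z0 := h0
  zmem := hZ
  iso := fun n x hx b hb => (hiso n x hx b hb).mono (by
    have : (0 : ℝ) ≤ n * η := by positivity
    linarith)
  near := fun n hn c hc b hb => (hnear n hn c hc b hb).mono (by
    have h1 : (1 : ℝ) ≤ n := by exact_mod_cast Nat.one_le_iff_ne_zero.2 hn
    have h2 : η ≤ n * η := le_mul_of_one_le_left hη h1
    have h3 : min b ρ - η ≤ min b (ρ - η) :=
      le_min (by linarith [min_le_left b ρ]) (by linarith [min_le_right b ρ])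
    linarith)

/-- The standard choice of `Z`. -/
noncomputable def Zc (Φ : ℕ → Ω → Ω) (c : Ω) : PowerSeries Ω :=
  PowerSeries.mk fun n => if n = 0 then 0 else Φ n c

theorem coeff_Zc (Φ : ℕ → Ω → Ω) (c : Ω) (n : ℕ) :
    PowerSeries.coeff n (Zc Φ c) = if n = 0 then 0 else Φ n c := by
  rw [Zc, PowerSeries.coeff_mk]

theorem near_Zc (hΦ : HSd C Φ)
    (hiso : ∀ n : ℕ, ∀ x ∈ C, ∀ b, v.Ge b x → v.Ge (b - n * σ) (Φ n x)) {η : ℝ}
    {c₀ : Ω} (hc₀ : c₀ ∈ C) (hw : v.Ge (ρ - η) (w - c₀)) :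
    ∀ n : ℕ, n ≠ 0 → ∀ c ∈ C, ∀ b, v.Ge b (w - c) →
      v.Ge (min b (ρ - η) - n * σ) (PowerSeries.coeff n (Zc Φ c₀) - Φ n c) := by
  intro n hn c hc b hb
  rw [coeff_Zc, if_neg hn, ← hΦ.sub n hc₀ hc]
  refine hiso n _ (sub_mem hc₀ hc) _ ?_
  have e : c₀ - c = (w - c) - (w - c₀) := by ring
  rw [e]
  exact (hb.mono (min_le_left _ _)).sub (hw.mono (min_le_right _ _))

/-- The standard choice is in the setting. -/
theorem setJ_Zc (hΦ : HSd C Φ) (hoi : Oi v C σ Φ) (hw : TL v C w ρ)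
    (hiso : ∀ n : ℕ, ∀ x ∈ C, ∀ b, v.Ge b x → v.Ge (b - n * σ) (Φ n x)) {η : ℝ} (hη : 0 ≤ η)
    {c₀ : Ω} (hc₀ : c₀ ∈ C) (hwc : v.Ge (ρ - η) (w - c₀)) :
    SetJ v C Φ w (Zc Φ c₀) ρ (σ + η) :=
  setJ_mk hΦ hoi hw hiso hη (by rw [coeff_Zc, if_pos rfl]) (fun n => by
    rw [coeff_Zc]
    split_ifs
    exacts [C.zero_mem, hΦ.mem n _ hc₀]) (near_Zc hΦ hiso hc₀ hwc)

namespace SetJ

variable (h : SetJ v C Φ w Z ρ σ)
include h

theorem ph_zero {f : Polynomial Ω} (hf : f ∈ PI C) : Ph Φ w Z 0 f = f.eval w := by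
  rw [Ph, EV, Polynomial.sum, map_sum, eval_eq_sum, Polynomial.sum]
  refine sum_congr rfl fun i _ => ?_
  have h1 : PowerSeries.coeff 0 ((PowerSeries.C w + Z) ^ i) = w ^ i := by
    rw [PowerSeries.coeff_zero_eq_constantCoeff_apply, map_pow, map_add,
      PowerSeries.constantCoeff_C, ← PowerSeries.coeff_zero_eq_constantCoeff_apply, h.z0, add_zero]
  rw [PowerSeries.coeff_mul, Finset.Nat.antidiagonal_zero, sum_singleton, coeff_ser,
    h.hsd.c0 _ (hf i), h1]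

theorem ph_mem {f : Polynomial Ω} (hf : f ∈ PI C) (n : ℕ) : Ph Φ w Z n f ∈ cadj v C w :=
  Set0.ph_mem' h.hsd h.zmem hf n

theorem sn_mem (n' n : ℕ) : PowerSeries.coeff n (Sn Z n') ∈ C := by
  rw [Sn, PowerSeries.coeff_mk]
  split_ifs
  exacts [h.zmem n, C.zero_mem]

theorem phS_mem {f : Polynomial Ω} (hf : f ∈ PI C) (n' n : ℕ) :
    PhS Φ w Z n' n f ∈ cadj v C w :=
  Set0.ph_mem' h.hsd (h.sn_mem n') hf n

/-- `Φ n` is isometric on the closure of `C(w)`. -/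
theorem ph_ge [IsAlgClosed Ω] (n : ℕ) {f : Polynomial Ω} (hf : f ∈ PI C) {b : ℝ}
    (hb : v.Ge b (f.eval w)) : v.Ge (b - n * σ) (Ph Φ w Z n f) := by
  classical
  refine ge_of_eps fun ε hε => ?_
  set L := f.natDegree with hL
  obtain ⟨δ, hδ, hdeep⟩ := TL.deep h.tl ((range (L + 1)).image fun l => hasseDeriv l f) (by
    intro g hg
    obtain ⟨l, -, rfl⟩ := mem_image.1 hg
    exact hasse_mem_PI hf l)
  -- the distance
  set δ' : ℝ := min δ (ε / (L + 1)) with hδ'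
  have hδ'0 : 0 < δ' := lt_min hδ (by positivity)
  have hδ'1 : δ' ≤ δ := min_le_left _ _
  have hδ'3 : ∀ l : ℕ, l ≤ L → (l : ℝ) * δ' ≤ ε := by
    intro l hl
    have h1 : δ' ≤ ε / (L + 1) := min_le_right _ _
    have h2 : (l : ℝ) ≤ L + 1 := by
      have : (l : ℝ) ≤ L := by exact_mod_cast hl
      linarith
    calc (l : ℝ) * δ' ≤ (L + 1) * δ' := mul_le_mul_of_nonneg_right h2 hδ'0.le
      _ ≤ (L + 1) * (ε / (L + 1)) := mul_le_mul_of_nonneg_left h1 (by positivity)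
      _ = ε := by field_simp
  obtain ⟨c, hc, hwc⟩ := h.tl.lim δ' hδ'0
  have hfl : ∀ l : ℕ, l ≤ L → v.Ge (b - l * ρ) ((hasseDeriv l f).eval c) := by
    intro l hl
    have h1 := (hdeep c (hwc.mono (by linarith)) (hasseDeriv l f)
      (mem_image.2 ⟨l, mem_range.2 (by omega), rfl⟩)).1 (b - l * ρ)
    exact h1.1 (TWLM.poly_norm h.tl hf l hb)
  -- the powers
  have hT : ∀ m : ℕ, v.Ge (ρ - δ' - m * σ)
      (PowerSeries.coeff m (PowerSeries.C w + Z - ser Φ c)) := by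
    intro m
    by_cases hm : m = 0
    · subst hm
      have e : PowerSeries.coeff 0 (PowerSeries.C w + Z - ser Φ c) = w - c := by
        rw [map_sub, map_add, PowerSeries.coeff_C, if_pos rfl, coeff_ser, h.z0, add_zero,
          h.hsd.c0 c hc]
      rw [e]
      exact hwc.mono (by simp)
    · have e : PowerSeries.coeff m (PowerSeries.C w + Z - ser Φ c) =
          PowerSeries.coeff m Z - Φ m c := by
        rw [map_sub, map_add, PowerSeries.coeff_C, if_neg hm, coeff_ser, zero_add]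
      rw [e]
      refine (h.near m hm c hc _ hwc).mono ?_
      rw [min_eq_left (by linarith)]
  rw [Ph, coeff_EV_point h.hsd hf hL.ge hc]
  refine RVal.Ge.sum _ _ fun l hl => RVal.Ge.sum _ _ fun i hi => ?_
  have hlL : l ≤ L := by
    have := mem_range.1 hl
    omega
  have hi' : i.1 + i.2 = n := by simpa using hi
  have hin : (n : ℝ) = i.1 + i.2 := by rw [← hi']; push_cast; ring
  have h1 := h.iso i.1 _ (eval_mem (hasse_mem_PI hf l) hc) _ (hfl l hlL)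
  refine (h1.mul (pow_ge hT l i.2)).mono ?_
  rw [hin]
  linarith [hδ'3 l hlL]

/-- Formula (1). -/
theorem phS_one {f : Polynomial Ω} (hf : f ∈ PI C) {L : ℕ} (hL : f.natDegree ≤ L) (n' N : ℕ) :
    PhS Φ w Z n' N f = ∑ j ∈ range (L + 1), ∑ i ∈ antidiagonal N,
      Ph Φ w Z i.1 (hasseDeriv j f) * PowerSeries.coeff i.2 ((-Yn Z n') ^ j) := by
  have e : PowerSeries.C w + Sn Z n' = (PowerSeries.C w + Z) + (-Yn Z n') := by
    ext n
    rw [map_add, map_add, map_add, map_neg, Sn, Yn, PowerSeries.coeff_mk, PowerSeries.coeff_mk]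
    split_ifs <;> ring
  rw [PhS, Ph, e, coeff_EV_taylor h.hsd hf hL]
  rfl

/-- Formula (2). -/
theorem phS_two {f : Polynomial Ω} (hf : f ∈ PI C) {L : ℕ} (hL : f.natDegree ≤ L) (n' N : ℕ)
    {c : Ω} (hc : c ∈ C) :
    PhS Φ w Z n' N f = ∑ l ∈ range (L + 1), ∑ i ∈ antidiagonal N,
      Φ i.1 ((hasseDeriv l f).eval c) *
        PowerSeries.coeff i.2 ((PowerSeries.C w + Sn Z n' - ser Φ c) ^ l) :=
  coeff_EV_point h.hsd hf hL hc _ _

/-- The bounds for the powers of `Y` at a record. -/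
theorem Y_pow {n' : ℕ} {g : ℝ} (hg : ∀ n : ℕ, n' ≤ n → v.Ge (ρ - n * σ - g) (PowerSeries.coeff n Z))
    (j : ℕ) : (∀ n, n < j * n' → PowerSeries.coeff n ((-Yn Z n') ^ j) = 0) ∧
      PowerSeries.coeff (j * n') ((-Yn Z n') ^ j) = (-PowerSeries.coeff n' Z) ^ j ∧
      (∀ n : ℕ, v.Ge (j * (ρ - g) - n * σ) (PowerSeries.coeff n ((-Yn Z n') ^ j))) ∧
      ∀ n, PowerSeries.coeff n ((-Yn Z n') ^ j) ∈ C := by
  have e : ∀ n, PowerSeries.coeff n (-Yn Z n') = if n < n' then 0 else -PowerSeries.coeff n Z := by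
    intro n
    rw [map_neg, Yn, PowerSeries.coeff_mk]
    split_ifs
    exacts [neg_zero, rfl]
  obtain ⟨h1, h2⟩ := pow_low (A := -Yn Z n') (n' := n') (fun n hn => by rw [e, if_pos hn]) j
  refine ⟨h1, ?_, fun n => pow_ge (fun m => ?_) j n, pow_coeff_mem C (fun m => ?_) j⟩
  · rw [h2, e, if_neg (lt_irrefl n')]
  · rw [e]
    split_ifs with hm
    · exact RVal.Ge.zero
    · exact ((hg m (by omega)).mono (by linarith)).neg
  · rw [e]
    split_ifs
    exacts [C.zero_mem, neg_mem (h.zmem m)]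

/-- The Hasse derivatives of `PhS` as a polynomial. -/
theorem phS_poly {f : Polynomial Ω} (hf : f ∈ PI C) (n' n : ℕ) : ∃ P ∈ PI C,
    P.natDegree ≤ f.natDegree ∧
    ∀ i : ℕ, (hasseDeriv i P).eval w = PhS Φ w Z n' n (hasseDeriv i f) := by
  refine ⟨EVP Φ (Sn Z n') n f, EVP_mem h.hsd (h.sn_mem n') n hf, ?_, fun i => ?_⟩
  · refine natDegree_le_iff_coeff_eq_zero.2 fun j hj => ?_
    rw [EVP_coeff, hasseDeriv_eq_zero_of_lt_natDegree f j hj, EV_zero, map_zero]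
  · rw [EVP_hasse h.hsd n hf i, EVP_eval h.hsd n (hasse_mem_PI hf i)]
    rfl

end SetJ

section Poly

variable [IsAlgClosed Ω] {p : ℕ} [hp : Fact p.Prime] [CharP Ω p] {c : ℝ}

/-- The coefficients along the arc. -/
theorem pc_ph (h : SetJ v C Φ w Z ρ σ) {f : Polynomial Ω} (hf : f ∈ PI C)
    (hl : PC p v (cadj v C w) c (f.eval w)) (n : ℕ) :
    PC p v (cadj v C w) (c - n * σ) (Ph Φ w Z n f) := by
  obtain ⟨G, hG, h1⟩ := PC.exists_poly h.tl hl
  have h2 := h.ph_ge n (sub_mem hf (pow_mem hG p)) h1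
  rw [ph_sub h.hsd hf (pow_mem hG p), ph_pow p h.hsd hG] at h2
  split_ifs at h2
  · exact ⟨_, h.ph_mem hG _, h2⟩
  · rw [sub_zero] at h2
    exact PC.of_ge h2

theorem lp_ph (h : SetJ v C Φ w Z ρ σ) {f : Polynomial Ω} (hf : f ∈ PI C)
    (hl : LP p v (cadj v C w) c (f.eval w)) (n : ℕ) :
    LP p v (cadj v C w) (c - n * σ) (Ph Φ w Z n f) :=
  lp_iff.2 fun c' hc => (pc_ph h hf (hl.pc (c' := c' + n * σ) (by linarith)) n).mono (by linarith)

end Poly

end Pool.Agent.TWNI
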