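import Pool.Agent.Lib.TWNI.BaseJ

/-!
# TANK W, text N1': the relations and the shape of `Φ^S (D^[i] f)`, isometric setting

The statements of `TWN1.Chain1` for `SetJ`.
-/

set_option autoImplicit false
set_option linter.unusedSectionVars false

open Polynomial Finset

namespace Pool.Agent.TWNI

open Pool.Agent.H15JM (RVal)
open Pool.Agent.TWM
open Pool.Agent.TWII (PG)
open Pool.Agent.TWLM (HSd Oi)
open Pool.Agent.TWN1

universe u

variable {k Ω : Type u} [Field k] [Field Ω] [Algebra k Ω] {v : RVal Ω}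
  {K : IntermediateField k Ω} {Φ : ℕ → Ω → Ω} {w : Ω} {Z : PowerSeries Ω} {ρ σ : ℝ}
  {p : ℕ} [hp : Fact p.Prime] [CharP Ω p] [IsAlgClosed Ω]
  {e : Ω} {A : ℕ → Ω} {N J L m₁ n' : ℕ} {B θ θ₀ : Polynomial Ω} {s ν μ g e₀ eps t : ℝ}

omit hp [CharP Ω p] in
/-- The a priori bound `|D^[i] ρ_n| ≤ e₀ + J g`. -/
theorem rho_ge (h : SetJ v K Φ w Z ρ σ) {Δ : Polynomial Ω} (hΔ : Δ ∈ PI K)
    (hJ : Δ.natDegree ≤ J) (he₀ : v.Ge (s - e₀) (Δ.eval w)) (hg0 : 0 ≤ g)
    (hg : ∀ n : ℕ, n' ≤ n → v.Ge (ρ - n * σ - g) (PowerSeries.coeff n Z)) (i n : ℕ) :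
    v.Ge (s - i * ρ - n * σ - (e₀ + J * g)) (PhS Φ w Z n' n (hasseDeriv i Δ)) := by
  have h1 : (hasseDeriv i Δ).natDegree ≤ J := (natDegree_hasseDeriv_le Δ i).trans (by omega)
  rw [h.phS_one (hasse_mem_PI hΔ i) h1]
  refine RVal.Ge.sum _ _ fun j hj => RVal.Ge.sum _ _ fun x hx => ?_
  have h2 := TWLM.poly_norm h.tl (hasse_mem_PI hΔ i) j (TWLM.poly_norm h.tl hΔ i he₀)
  refine ((h.ph_ge x.1 (hasse_mem_PI (hasse_mem_PI hΔ i) j) h2).mul
    ((h.Y_pow hg j).2.2.1 x.2)).mono ?_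
  have h3 : (n : ℝ) = x.1 + x.2 := by
    have : x.1 + x.2 = n := by simpa using hx
    exact_mod_cast this.symm
  have h4 : (j : ℝ) * g ≤ J * g := by
    refine mul_le_mul_of_nonneg_right ?_ hg0
    have : j ≤ J := Nat.lt_succ_iff.1 (mem_range.1 hj)
    exact_mod_cast this
  rw [h3]
  nlinarith

theorem ps_C_mul (h : SetJ v K Φ w Z ρ σ) {c : Ω} (hc : c ∈ K) {f : Polynomial Ω}
    (hf : f ∈ PI K) (n : ℕ) :
    PhS Φ w Z n' n (C c * f) = ∑ x ∈ antidiagonal n, Φ x.1 c * PhS Φ w Z n' x.2 f := by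
  rw [PhS, ph_mul h.hsd (C_mem_PI hc) hf]
  refine sum_congr rfl fun x _ => ?_
  rw [ph_C h.hsd hc]
  rfl

omit [IsAlgClosed Ω] in
theorem ps_powq (h : SetJ v K Φ w Z ρ σ) {f : Polynomial Ω} (hf : f ∈ PI K) (i n m : ℕ)
    (hi : hasseDeriv i (f ^ p ^ m) =
      if p ^ m ∣ i then hasseDeriv (i / p ^ m) f ^ p ^ m else 0) :
    PhS Φ w Z n' n (hasseDeriv i (f ^ p ^ m)) = dl p Φ w Z n' f i n m ^ p ^ m := by
  have hpm : p ^ m ≠ 0 := (Nat.pow_pos hp.out.pos).ne'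
  rw [hi, dl]
  by_cases h1 : p ^ m ∣ i
  · rw [if_pos h1, PhS, ph_pow_pow p h.hsd (hasse_mem_PI hf _)]
    by_cases h2 : p ^ m ∣ n
    · rw [if_pos h2, if_pos ⟨h1, h2⟩]
      rfl
    · rw [if_neg h2, if_neg (fun h3 => h2 h3.2), zero_pow hpm]
  · rw [if_neg h1, if_neg (fun h3 => h1 h3.1), zero_pow hpm, PhS, Ph, EV_zero, map_zero]

theorem dl_mem (h : SetJ v K Φ w Z ρ σ) {f : Polynomial Ω} (hf : f ∈ PI K) (i n m : ℕ) :
    dl p Φ w Z n' f i n m ∈ cadj v K w := by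
  rw [dl]
  split_ifs
  · exact h.phS_mem (hasse_mem_PI hf _) _ _
  · exact zero_mem _

/-- The mixed terms of a product with a coefficient are negligible. -/
theorem mix_pg (h : SetJ v K Φ w Z ρ σ) {c : Ω} (hc : c ∈ K) {f : Polynomial Ω} (hf : f ∈ PI K)
    {n : ℕ} {b : ℝ}
    (hx : ∀ x ∈ antidiagonal n, x.1 ≠ 0 →
      PG p v (cadj v K w) b (Φ x.1 c * PhS Φ w Z n' x.2 f)) :
    PG p v (cadj v K w) b (PhS Φ w Z n' n (C c * f) - c * PhS Φ w Z n' n f) := by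
  classical
  rw [ps_C_mul h hc hf]
  have e1 : ∑ x ∈ antidiagonal n, Φ x.1 c * PhS Φ w Z n' x.2 f - c * PhS Φ w Z n' n f =
      ∑ x ∈ (antidiagonal n).erase (0, n), Φ x.1 c * PhS Φ w Z n' x.2 f := by
    rw [sum_erase_eq_sub (by simp), h.hsd.c0 c hc]
  rw [e1]
  refine PG.sum _ _ fun x hxm => ?_
  obtain ⟨h1, h2⟩ := mem_erase.1 hxm
  refine hx x h2 fun h3 => h1 ?_
  have h4 : x.1 + x.2 = n := by simpa using h2
  ext
  · exact h3
  · simp only
    omega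

/-- **The relation `(R_(i, n))`**, any `i`, any `n`. -/
theorem rel (h : SetJ v K Φ w Z ρ σ) (hD : Dt p v K (cadj v K w) s ν e A N)
    (hM : Mar p v K Φ σ s ν e A N μ) (hθ : θ ∈ PI K) (hθ₀ : θ₀ ∈ PI K) (hB : B ∈ PI K)
    (hJ : (θ - θ₀).natDegree ≤ J) (he₀0 : 0 ≤ e₀) (he₀ : v.Ge (s - e₀) ((θ - θ₀).eval w))
    (hg0 : 0 ≤ g) (hg : ∀ n : ℕ, n' ≤ n → v.Ge (ρ - n * σ - g) (PowerSeries.coeff n Z))
    (hμ : p ^ N * (e₀ + J * g) < μ) (i n : ℕ) :
    PG p v (cadj v K w) (ν - i * ρ - n * σ)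
      (e * PhS Φ w Z n' n (hasseDeriv i (θ - θ₀)) +
        ∑ m ∈ Icc 1 N, A m * dl p Φ w Z n' (θ - θ₀) i n m ^ p ^ m +
        PhS Φ w Z n' n (hasseDeriv i (fth p e A N B θ₀)) -
        PhS Φ w Z n' n (hasseDeriv i (fth p e A N B θ))) := by
  have hp1 : (1 : ℝ) ≤ p := by exact_mod_cast hp.out.one_lt.le
  have hJg : 0 ≤ e₀ + J * g := by positivity
  have hΔ : θ - θ₀ ∈ PI K := sub_mem hθ hθ₀
  have hρ := rho_ge h hΔ hJ he₀ hg0 hg
  -- the linear part
  have h1 : PG p v (cadj v K w) (ν - i * ρ - n * σ)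
      (PhS Φ w Z n' n (hasseDeriv i (C e * (θ - θ₀))) -
        e * PhS Φ w Z n' n (hasseDeriv i (θ - θ₀))) := by
    rw [hasse_C_mul]
    refine mix_pg h hD.eC (hasse_mem_PI hΔ i) fun x hx hx1 => PG.of_gt (Gt.of_ge
      ((hM.em x.1 hx1).mul (hρ i x.2)) ?_)
    have h3 : (n : ℝ) = x.1 + x.2 := by
      have : x.1 + x.2 = n := by simpa using hx
      exact_mod_cast this.symm
    have h4 : e₀ + J * g ≤ p ^ N * (e₀ + J * g) := le_mul_of_one_le_left hJg (one_le_pow₀ hp1)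
    rw [h3]
    linarith
  -- the additive part
  have h2 : ∀ m ∈ Icc 1 N, PG p v (cadj v K w) (ν - i * ρ - n * σ)
      (PhS Φ w Z n' n (hasseDeriv i (C (A m) * (θ - θ₀) ^ p ^ m)) -
        A m * dl p Φ w Z n' (θ - θ₀) i n m ^ p ^ m) := by
    intro m hm
    obtain ⟨hm1, hmN⟩ := mem_Icc.1 hm
    have hps := fun l => ps_powq (n' := n') (p := p) h hΔ i l m (hasse_powq _ m i)
    rw [hasse_C_mul, ← hps]
    refine mix_pg h (hD.AC m hm) (hasse_mem_PI (pow_mem hΔ _) i) fun x hx hx1 => ?_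
    rw [hps, dl]
    by_cases hd : p ^ m ∣ i ∧ p ^ m ∣ x.2
    · rw [if_pos hd]
      obtain ⟨⟨a, rfl⟩, b, hb⟩ := hd
      have hpm : 0 < p ^ m := Nat.pow_pos hp.out.pos
      rw [hb, Nat.mul_div_cancel_left _ hpm, Nat.mul_div_cancel_left _ hpm]
      have h5 := pg_mul_powq (((hM.Am m hm x.1 hx1).pg (c' := ν - p ^ m * s - x.1 * σ +
        p ^ N * (e₀ + J * g)) (by linarith)).up (w := w))
        (h.phS_mem (hasse_mem_PI hΔ a) n' b) hm1 (hρ a b)
      refine h5.mono ?_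
      have h3 : (n : ℝ) = x.1 + p ^ m * b := by
        have : x.1 + p ^ m * b = n := by rw [← hb]; simpa using hx
        exact_mod_cast this.symm
      have h4 : (p : ℝ) ^ m * (e₀ + J * g) ≤ p ^ N * (e₀ + J * g) :=
        mul_le_mul_of_nonneg_right (pow_le_pow_right₀ hp1 hmN) hJg
      rw [h3]
      push_cast
      nlinarith
    · rw [if_neg hd, zero_pow (Nat.pow_pos hp.out.pos).ne', mul_zero]
      exact .of_gt Gt.zero
  -- together
  have hmem : ∀ m ∈ Icc 1 N, C (A m) * (θ - θ₀) ^ p ^ m ∈ PI K := fun m hm =>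
    mul_mem (C_mem_PI (hD.AC m hm)) (pow_mem hΔ _)
  have e1 : PhS Φ w Z n' n (hasseDeriv i (fth p e A N B θ)) -
      PhS Φ w Z n' n (hasseDeriv i (fth p e A N B θ₀)) =
      PhS Φ w Z n' n (hasseDeriv i (C e * (θ - θ₀))) +
        ∑ m ∈ Icc 1 N, PhS Φ w Z n' n (hasseDeriv i (C (A m) * (θ - θ₀) ^ p ^ m)) := by
    rw [PhS, PhS, ← ph_sub h.hsd (hasse_mem_PI (fth_mem hD hB hθ) i)
      (hasse_mem_PI (fth_mem hD hB hθ₀) i), ← map_sub, fth_sub, map_add, map_sum,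
      ph_add h.hsd (hasse_mem_PI (mul_mem (C_mem_PI hD.eC) hΔ) i)
        (sum_mem fun m hm => hasse_mem_PI (hmem m hm) i),
      ph_sum h.hsd _ _ fun m hm => hasse_mem_PI (hmem m hm) i]
    rfl
  have h3 := (h1.add (PG.sum _ _ h2)).neg
  have e2 : e * PhS Φ w Z n' n (hasseDeriv i (θ - θ₀)) +
        ∑ m ∈ Icc 1 N, A m * dl p Φ w Z n' (θ - θ₀) i n m ^ p ^ m +
        PhS Φ w Z n' n (hasseDeriv i (fth p e A N B θ₀)) -
        PhS Φ w Z n' n (hasseDeriv i (fth p e A N B θ)) =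
      -(PhS Φ w Z n' n (hasseDeriv i (C e * (θ - θ₀))) -
        e * PhS Φ w Z n' n (hasseDeriv i (θ - θ₀)) + ∑ m ∈ Icc 1 N,
          (PhS Φ w Z n' n (hasseDeriv i (C (A m) * (θ - θ₀) ^ p ^ m)) -
            A m * dl p Φ w Z n' (θ - θ₀) i n m ^ p ^ m)) := by
    rw [sum_sub_distrib]
    linear_combination -e1
  rw [e2]
  exact h3

/-! ### The shape of `Φ^S (D^[i] f)` -/

/-- One term of formula (1). -/
theorem shape_j (h : SetJ v K Φ w Z ρ σ) {f : Polynomial Ω} (hf : f ∈ PI K)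
    (hX : ∀ l, 2 ≤ l → ¬ p ∣ l → hasseDeriv l f = 0)
    (hg : ∀ n : ℕ, n' ≤ n → v.Ge (ρ - n * σ - g) (PowerSeries.coeff n Z))
    {i : ℕ} (hi : p ∣ i) (n j : ℕ)
    (hj : p ∣ j → TWII.LP p v (cadj v K w) (t + j * g - (j + i : ℕ) * ρ)
      ((hasseDeriv (j + i) f).eval w))
    (hj1 : i = 0 → j = 1 → v.Ge (t + g - ρ) ((hasseDeriv 1 f).eval w)) :
    TWII.LP p v (cadj v K w) (t - i * ρ - n * σ)
      (∑ x ∈ antidiagonal n, Ph Φ w Z x.1 (hasseDeriv j (hasseDeriv i f)) *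
        PowerSeries.coeff x.2 ((-Yn Z n') ^ j)) := by
  refine lp_sum _ _ fun x hx => ?_
  have h3 : (n : ℝ) = x.1 + x.2 := by
    have : x.1 + x.2 = n := by simpa using hx
    exact_mod_cast this.symm
  have hG : hasseDeriv j (hasseDeriv i f) ∈ PI K := hasse_mem_PI (hasse_mem_PI hf i) j
  have hY := h.Y_pow hg j
  by_cases hpj : p ∣ j
  · have h1 : TWII.LP p v (cadj v K w) (t + j * g - (j + i : ℕ) * ρ)
        ((hasseDeriv j (hasseDeriv i f)).eval w) := by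
      rw [hasse_hasse, eval_mul, eval_C]
      have h2 := lp_sum (range ((j + i).choose j)) (fun _ => (hasseDeriv (j + i) f).eval w)
        fun _ _ => hj hpj
      rwa [sum_const, card_range, nsmul_eq_mul] at h2
    have h4 := lp_ph h hG h1 x.1
    obtain ⟨l, rfl⟩ := hpj
    have hYx := hY.2.2.1 x.2
    rw [coeff_pow_mul p] at hYx ⊢
    split_ifs at hYx ⊢ with hpx
    · refine lp_mono (lp_mul_pow h4 (le_cadj v K w ?_) hYx) (le_of_eq ?_)
      · exact (h.Y_pow hg l).2.2.2 _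
      · rw [h3]
        push_cast
        ring
    · rw [mul_zero]
      exact lp_of_ge RVal.Ge.zero
  · by_cases hl : 2 ≤ j + i
    · have h5 : ¬ p ∣ j + i := fun h6 => hpj ((Nat.dvd_add_left hi).1 h6)
      rw [hasse_hasse, hX _ hl h5, mul_zero, Ph, EV_zero, map_zero, zero_mul]
      exact lp_of_ge RVal.Ge.zero
    · have hj0 : j ≠ 0 := by
        rintro rfl
        exact hpj (dvd_zero p)
      obtain ⟨rfl, rfl⟩ : j = 1 ∧ i = 0 := by omega
      have h6 := hj1 rfl rfl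
      rw [hasseDeriv_zero'] at hG ⊢
      refine lp_of_ge (((h.ph_ge x.1 hG h6).mul (hY.2.2.1 x.2)).mono (le_of_eq ?_))
      rw [h3]
      push_cast
      ring

/-- The size of `Φ^S_n (D^[i] f)`, general form. -/
theorem shape0 (h : SetJ v K Φ w Z ρ σ) {f : Polynomial Ω} (hf : f ∈ PI K)
    (hX : ∀ l, 2 ≤ l → ¬ p ∣ l → hasseDeriv l f = 0)
    (hg : ∀ n : ℕ, n' ≤ n → v.Ge (ρ - n * σ - g) (PowerSeries.coeff n Z))
    {i : ℕ} (hi : p ∣ i) (n : ℕ)
    (hj : ∀ j : ℕ, p ∣ j → TWII.LP p v (cadj v K w) (t + j * g - (j + i : ℕ) * ρ)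
      ((hasseDeriv (j + i) f).eval w))
    (hj1 : i = 0 → v.Ge (t + g - ρ) ((hasseDeriv 1 f).eval w)) :
    TWII.LP p v (cadj v K w) (t - i * ρ - n * σ) (PhS Φ w Z n' n (hasseDeriv i f)) := by
  rw [h.phS_one (hasse_mem_PI hf i) le_rfl]
  exact lp_sum _ _ fun j _ => shape_j h hf hX hg hi n j (hj j) fun h1 _ => hj1 h1

/-- The size of `Φ^S_n (D^[i] f)`: `f` in class X, `lev f ≤ eps`, `D^[l] f` null for `l > L`. -/
theorem shape (h : SetJ v K Φ w Z ρ σ) {f : Polynomial Ω} (hf : f ∈ PI K)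
    (hX : ∀ l, 2 ≤ l → ¬ p ∣ l → hasseDeriv l f = 0) (h1 : v.Ge (ν - ρ) ((hasseDeriv 1 f).eval w))
    (hlp : TWII.LP p v (cadj v K w) (ν - eps) (f.eval w)) (heps : 0 ≤ eps) (hL1 : 1 ≤ L)
    (hhi : ∀ l : ℕ, L < l → p ∣ l →
      TWII.LP p v (cadj v K w) (ν - l * ρ + l * g) ((hasseDeriv l f).eval w))
    (hg0 : 0 ≤ g) (hg : ∀ n : ℕ, n' ≤ n → v.Ge (ρ - n * σ - g) (PowerSeries.coeff n Z))
    {i : ℕ} (hi : p ∣ i) (n : ℕ) :
    TWII.LP p v (cadj v K w) (ν - i * ρ - n * σ - (((L - i : ℕ) : ℝ) * g + eps))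
      (PhS Φ w Z n' n (hasseDeriv i f)) := by
  refine lp_mono (shape0 (t := ν - (((L - i : ℕ) : ℝ) * g + eps)) h hf hX hg hi n ?_ ?_)
    (le_of_eq (by ring))
  · intro j hj
    by_cases hl : j + i ≤ L
    · refine lp_mono (hlp.hjet h.tl hf (j + i)) ?_
      have h2 : (j : ℝ) * g ≤ ((L - i : ℕ) : ℝ) * g := by
        refine mul_le_mul_of_nonneg_right ?_ hg0
        have : j ≤ L - i := by omega
        exact_mod_cast this
      linarith
    · refine lp_mono (hhi (j + i) (by omega) (Dvd.dvd.add hj hi)) ?_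
      have h2 : (j : ℝ) * g ≤ ((j + i : ℕ) : ℝ) * g := by
        refine mul_le_mul_of_nonneg_right ?_ hg0
        have : j ≤ j + i := by omega
        exact_mod_cast this
      have h3 : 0 ≤ ((L - i : ℕ) : ℝ) * g := by positivity
      linarith
  · rintro rfl
    refine h1.mono ?_
    have h2 : (1 : ℝ) * g ≤ ((L - 0 : ℕ) : ℝ) * g := by
      refine mul_le_mul_of_nonneg_right ?_ hg0
      have : 1 ≤ L - 0 := by omega
      exact_mod_cast this
    linarith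

/-- Null Hasse derivatives: `Φ^S_n (D^[i] f)` is null. -/
theorem shape_null (h : SetJ v K Φ w Z ρ σ) {f : Polynomial Ω} (hf : f ∈ PI K)
    (hX : ∀ l, 2 ≤ l → ¬ p ∣ l → hasseDeriv l f = 0) {η : ℝ} (hη : 0 < η)
    (hhi : ∀ l : ℕ, L < l → p ∣ l →
      TWII.LP p v (cadj v K w) (ν - l * ρ + (l * g + η)) ((hasseDeriv l f).eval w))
    (hg0 : 0 ≤ g) (hg : ∀ n : ℕ, n' ≤ n → v.Ge (ρ - n * σ - g) (PowerSeries.coeff n Z))
    {i : ℕ} (hi : p ∣ i) (hLi : L < i) (n : ℕ) :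
    PG p v (cadj v K w) (ν - i * ρ - n * σ) (PhS Φ w Z n' n (hasseDeriv i f)) := by
  refine pg_of_lp (shape0 (t := ν + η) h hf hX hg hi n ?_ ?_) (by linarith)
  · intro j hj
    refine lp_mono (hhi (j + i) (by omega) (Dvd.dvd.add hj hi)) ?_
    have h2 : (j : ℝ) * g ≤ ((j + i : ℕ) : ℝ) * g := by
      refine mul_le_mul_of_nonneg_right ?_ hg0
      have : j ≤ j + i := by omega
      exact_mod_cast this
    linarith
  · rintro rfl
    omega

/-- The leading term of `Φ^S_n (D^[i] f)`, `n = (L - i) n'`. -/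
theorem shape_top (h : SetJ v K Φ w Z ρ σ) {f : Polynomial Ω} (hf : f ∈ PI K)
    (hX : ∀ l, 2 ≤ l → ¬ p ∣ l → hasseDeriv l f = 0) (h1 : v.Ge (ν - ρ) ((hasseDeriv 1 f).eval w))
    (hlp : TWII.LP p v (cadj v K w) (ν - eps) (f.eval w)) (heps : 0 ≤ eps) (hL : p ∣ L)
    (hhi : ∀ l : ℕ, L < l → p ∣ l →
      TWII.LP p v (cadj v K w) (ν - l * ρ + l * g) ((hasseDeriv l f).eval w))
    (hg0 : 0 ≤ g) (hg : ∀ n : ℕ, n' ≤ n → v.Ge (ρ - n * σ - g) (PowerSeries.coeff n Z))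
    {i : ℕ} (hi : p ∣ i) (hiL : i < L) :
    TWII.LP p v (cadj v K w)
      (ν - i * ρ - ((L - i) * n' : ℕ) * σ - (((L - i - 1 : ℕ) : ℝ) * g + eps))
      (PhS Φ w Z n' ((L - i) * n') (hasseDeriv i f) -
        ((L.choose i : ℕ) : Ω) * (hasseDeriv L f).eval w *
          (-PowerSeries.coeff n' Z) ^ (L - i)) := by
  classical
  have hp2 := hp.out.two_le
  have hL2 : 2 ≤ L := hp2.trans (Nat.le_of_dvd (by omega) hL)
  by_cases hdeg : L - i ≤ (hasseDeriv i f).natDegree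
  · rw [h.phS_one (hasse_mem_PI hf i) le_rfl]
    -- the term of degree `L - i`
    have e1 : ∑ x ∈ antidiagonal ((L - i) * n'), Ph Φ w Z x.1
        (hasseDeriv (L - i) (hasseDeriv i f)) * PowerSeries.coeff x.2 ((-Yn Z n') ^ (L - i)) =
        ((L.choose i : ℕ) : Ω) * (hasseDeriv L f).eval w *
          (-PowerSeries.coeff n' Z) ^ (L - i) := by
      have hY := h.Y_pow hg (L - i)
      rw [sum_eq_single (0, (L - i) * n')]
      · rw [h.ph_zero (hasse_mem_PI (hasse_mem_PI hf i) _), hY.2.1, hasse_hasse, eval_mul, eval_C,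
          Nat.sub_add_cancel hiL.le, Nat.choose_symm hiL.le]
      · intro x hx hne
        have h3 : x.1 + x.2 = (L - i) * n' := by simpa using hx
        rw [hY.1 x.2, mul_zero]
        by_contra h4
        apply hne
        ext
        · simp only
          omega
        · simp only
          omega
      · intro h3
        exact absurd (by simp) h3
    have hmem : L - i ∈ range ((hasseDeriv i f).natDegree + 1) := mem_range.2 (by omega)
    rw [← add_sum_erase _ _ hmem, e1, add_sub_cancel_left]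
    refine lp_mono (lp_sum _ _ fun j hj => shape_j
      (t := ν - (((L - i - 1 : ℕ) : ℝ) * g + eps)) h hf hX hg hi _ j ?_ ?_)
      (le_of_eq (by ring))
    · intro hpj
      have hj2 := (mem_erase.1 hj).1
      by_cases hl : j + i ≤ L
      · refine lp_mono (hlp.hjet h.tl hf (j + i)) ?_
        have h2 : (j : ℝ) * g ≤ ((L - i - 1 : ℕ) : ℝ) * g := by
          refine mul_le_mul_of_nonneg_right ?_ hg0
          have : j ≤ L - i - 1 := by omega
          exact_mod_cast this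
        linarith
      · refine lp_mono (hhi (j + i) (by omega) (Dvd.dvd.add hpj hi)) ?_
        have h2 : (j : ℝ) * g ≤ ((j + i : ℕ) : ℝ) * g := by
          refine mul_le_mul_of_nonneg_right ?_ hg0
          have : j ≤ j + i := by omega
          exact_mod_cast this
        have h3 : 0 ≤ ((L - i - 1 : ℕ) : ℝ) * g := by positivity
        linarith
    · rintro rfl rfl
      refine h1.mono ?_
      have h2 : (1 : ℝ) * g ≤ ((L - 0 - 1 : ℕ) : ℝ) * g := by
        refine mul_le_mul_of_nonneg_right ?_ hg0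
        have : 1 ≤ L - 0 - 1 := by omega
        exact_mod_cast this
      linarith
  · -- the degree is too small: the leading term vanishes
    have e2 : hasseDeriv (L - i) (hasseDeriv i f) = 0 :=
      hasseDeriv_eq_zero_of_lt_natDegree _ _ (by omega)
    have e3 : ((L.choose i : ℕ) : Ω) * (hasseDeriv L f).eval w = 0 := by
      have h2 := congrArg (Polynomial.eval w) e2
      rwa [hasse_hasse, eval_mul, eval_C, Nat.sub_add_cancel hiL.le, Nat.choose_symm hiL.le,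
        eval_zero] at h2
    rw [e3, zero_mul, sub_zero, h.phS_one (hasse_mem_PI hf i) le_rfl]
    refine lp_mono (lp_sum _ _ fun j hj => shape_j
      (t := ν - (((L - i - 1 : ℕ) : ℝ) * g + eps)) h hf hX hg hi _ j ?_ ?_)
      (le_of_eq (by ring))
    · intro hpj
      have hj2 := mem_range.1 hj
      refine lp_mono (hlp.hjet h.tl hf (j + i)) ?_
      have h2 : (j : ℝ) * g ≤ ((L - i - 1 : ℕ) : ℝ) * g := by
        refine mul_le_mul_of_nonneg_right ?_ hg0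
        have : j ≤ L - i - 1 := by omega
        exact_mod_cast this
      linarith
    · rintro rfl rfl
      refine h1.mono ?_
      have h2 : (1 : ℝ) * g ≤ ((L - 0 - 1 : ℕ) : ℝ) * g := by
        refine mul_le_mul_of_nonneg_right ?_ hg0
        have : 1 ≤ L - 0 - 1 := by omega
        exact_mod_cast this
      linarith

end Pool.Agent.TWNI
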