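import Pool.Agent.Lib.TWNI.Ch1

/-!
# TANK W, text N1': (G1), isometric setting

The statements of `TWN1.Chain` for `SetJ`.
-/

set_option autoImplicit false
set_option linter.unusedSectionVars false

open Polynomial Finset

namespace Pool.Agent.TWNI

open Pool.Agent.H15JM (RVal)
open Pool.Agent.TWM
open Pool.Agent.TWII (PG)
open Pool.Agent.TWLM (HSd Oi)
open Pool.Agent.TWN1

universe u

variable {k Ω : Type u} [Field k] [Field Ω] [Algebra k Ω] {v : RVal Ω}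
  {K : IntermediateField k Ω} {Φ : ℕ → Ω → Ω} {w : Ω} {Z : PowerSeries Ω} {ρ σ : ℝ}
  {p : ℕ} [hp : Fact p.Prime] [CharP Ω p] [IsAlgClosed Ω]
  {e : Ω} {A : ℕ → Ω} {N J L m₁ n' : ℕ} {B θ θ₀ : Polynomial Ω} {s ν μ g e₀ eps t : ℝ}

/-- **(G1)**: `|D^[i] ρ_n| ≤ ((L - Q i)^+ g + eps) / Q` for `Q n + Q i n' ≥ L n' + m₁`, `n ≥ 1`. -/
theorem g1 (h : SetJ v K Φ w Z ρ σ) (hD : Dt p v K (cadj v K w) s ν e A N)
    (hM : Mar p v K Φ σ s ν e A N μ) (hθ : θ ∈ PI K) (hθ₀ : θ₀ ∈ PI K) (hB : B ∈ PI K)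
    (hJ : (θ - θ₀).natDegree ≤ J) (he₀0 : 0 ≤ e₀) (he₀ : v.Ge (s - e₀) ((θ - θ₀).eval w))
    (hg0 : 0 ≤ g) (hg : ∀ n : ℕ, n' ≤ n → v.Ge (ρ - n * σ - g) (PowerSeries.coeff n Z))
    (hμ : p ^ N * (e₀ + J * g) < μ)
    (hX : ∀ l, 2 ≤ l → ¬ p ∣ l → hasseDeriv l (fth p e A N B θ) = 0)
    (h1 : v.Ge (ν - ρ) ((hasseDeriv 1 (fth p e A N B θ)).eval w))
    (hlp : TWII.LP p v (cadj v K w) (ν - eps) ((fth p e A N B θ).eval w)) (heps : 0 < eps)
    (hL1 : 1 ≤ L)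
    (hhi : ∀ l : ℕ, L < l → p ∣ l → TWII.LP p v (cadj v K w) (ν - l * ρ + l * g)
      ((hasseDeriv l (fth p e A N B θ)).eval w))
    (hoc : ∀ i n : ℕ, n ≠ 0 → L * n' + m₁ ≤ p ^ N * n + p ^ N * i * n' →
      PG p v (cadj v K w) (ν - (p ^ N * i : ℕ) * ρ - (p ^ N * n : ℕ) * σ)
        (PhS Φ w Z n' (p ^ N * n) (hasseDeriv (p ^ N * i) (fth p e A N B θ₀))))
    {i n : ℕ} (hn : n ≠ 0) (hin : L * n' + m₁ ≤ p ^ N * n + p ^ N * i * n') :
    v.Ge (s - i * ρ - n * σ - (((L - p ^ N * i : ℕ) : ℝ) * g + eps) / p ^ N)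
      (PhS Φ w Z n' n (hasseDeriv i (θ - θ₀))) := by
  have hΔ : θ - θ₀ ∈ PI K := sub_mem hθ hθ₀
  have hQ0 : (0 : ℝ) < (p : ℝ) ^ N := by
    have := hp.out.pos
    positivity
  have hpN : p ∣ p ^ N := dvd_pow_self p (by have := hD.N1; omega)
  have h2 := chain (p := p) (v := v) (F := cadj v K w) (e := e) (A := A) (N := N) (ν := ν) (s := s)
    (ρ := ρ) (σ := σ) hD.N1 hD.Alp hD.top hD.ege
    (S := {x : ℕ × ℕ | x.2 ≠ 0 ∧ L * n' + m₁ ≤ p ^ N * x.2 + p ^ N * x.1 * n'})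
    ?_ (B := e₀ + J * g) (eps := eps) (h := fun i => ((L - p ^ N * i : ℕ) : ℝ) * g / p ^ N)
    ?_ ?_ (r := fun i n => PhS Φ w Z n' n (hasseDeriv i (θ - θ₀)))
    (fun i n => h.phS_mem (hasse_mem_PI hΔ i) n' n) ?_ ?_ heps (i, n) ⟨hn, hin⟩
  · refine h2.mono (le_of_eq ?_)
    simp only
    ring
  · rintro ⟨a, b⟩ ⟨hb, hab⟩ c
    simp only at hb hab ⊢
    refine ⟨mul_ne_zero (Nat.pow_pos hp.out.pos).ne' hb, hab.trans ?_⟩
    have hc : 1 ≤ p ^ c := Nat.pow_pos hp.out.pos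
    calc p ^ N * b + p ^ N * a * n' = 1 * (p ^ N * b + p ^ N * a * n') := (one_mul _).symm
      _ ≤ p ^ c * (p ^ N * b + p ^ N * a * n') := Nat.mul_le_mul_right _ hc
      _ = _ := by ring
  · intro a
    positivity
  · intro a b hab
    simp only
    refine div_le_div_of_nonneg_right (mul_le_mul_of_nonneg_right ?_ hg0) hQ0.le
    have : L - p ^ N * b ≤ L - p ^ N * a := Nat.sub_le_sub_left (Nat.mul_le_mul_left _ hab) _
    exact_mod_cast this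
  · rintro ⟨a, b⟩ -
    exact (rho_ge h hΔ hJ he₀ hg0 hg a b).mono (le_of_eq (by ring))
  · rintro ⟨a, b⟩ ⟨hb, hab⟩
    simp only at hb hab ⊢
    have h3 := rel h hD hM hθ hθ₀ hB hJ he₀0 he₀ hg0 hg hμ (p ^ N * a) (p ^ N * b)
    have h4 := hoc a b hb hab
    have h5 := shape (i := p ^ N * a) h (fth_mem hD hB hθ) hX h1 hlp heps.le hL1 hhi hg0 hg
      (hpN.mul_right a) (p ^ N * b)
    have h6 := lp_add (lp_mono (lp_of_pg (h3.sub h4)) (c' := ν - (p ^ N * a : ℕ) * ρ -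
      (p ^ N * b : ℕ) * σ - (((L - p ^ N * a : ℕ) : ℝ) * g + eps)) (by
        have : 0 ≤ ((L - p ^ N * a : ℕ) : ℝ) * g := by positivity
        linarith)) h5
    have e1 : ∀ m ∈ Icc 1 N, dl p Φ w Z n' (θ - θ₀) (p ^ N * a) (p ^ N * b) m =
        PhS Φ w Z n' (p ^ (N - m) * b) (hasseDeriv (p ^ (N - m) * a) (θ - θ₀)) := by
      intro m hm
      have hmN := (mem_Icc.1 hm).2
      have hpm : 0 < p ^ m := Nat.pow_pos hp.out.pos
      have e2 : ∀ c : ℕ, p ^ N * c = p ^ m * (p ^ (N - m) * c) := by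
        intro c
        rw [← mul_assoc, ← pow_add, Nat.add_sub_cancel' hmN]
      rw [dl, if_pos, e2 a, e2 b, Nat.mul_div_cancel_left _ hpm, Nat.mul_div_cancel_left _ hpm]
      exact ⟨⟨_, e2 a⟩, ⟨_, e2 b⟩⟩
    have e3 : e * PhS Φ w Z n' (p ^ N * b) (hasseDeriv (p ^ N * a) (θ - θ₀)) +
          ∑ m ∈ Icc 1 N, A m * dl p Φ w Z n' (θ - θ₀) (p ^ N * a) (p ^ N * b) m ^ p ^ m +
          PhS Φ w Z n' (p ^ N * b) (hasseDeriv (p ^ N * a) (fth p e A N B θ₀)) -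
          PhS Φ w Z n' (p ^ N * b) (hasseDeriv (p ^ N * a) (fth p e A N B θ)) -
          PhS Φ w Z n' (p ^ N * b) (hasseDeriv (p ^ N * a) (fth p e A N B θ₀)) +
          PhS Φ w Z n' (p ^ N * b) (hasseDeriv (p ^ N * a) (fth p e A N B θ)) =
        e * PhS Φ w Z n' (p ^ N * b) (hasseDeriv (p ^ N * a) (θ - θ₀)) +
          ∑ m ∈ Icc 1 N, A m * PhS Φ w Z n' (p ^ (N - m) * b)
            (hasseDeriv (p ^ (N - m) * a) (θ - θ₀)) ^ p ^ m := by
      rw [sum_congr rfl fun m hm => by rw [e1 m hm]]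
      ring
    rw [e3] at h6
    refine lp_mono h6 (le_of_eq ?_)
    push_cast
    field_simp
    ring

/-- **The leading term of the relation** `(R_(i, (L - i) n'))`, `p ∣ i`, `i < L`. -/
theorem key (h : SetJ v K Φ w Z ρ σ) (hD : Dt p v K (cadj v K w) s ν e A N)
    (hM : Mar p v K Φ σ s ν e A N μ) (hθ : θ ∈ PI K) (hθ₀ : θ₀ ∈ PI K) (hB : B ∈ PI K)
    (hJ : (θ - θ₀).natDegree ≤ J) (he₀0 : 0 ≤ e₀) (he₀ : v.Ge (s - e₀) ((θ - θ₀).eval w))
    (hn' : n' ≠ 0) (hg0 : 0 ≤ g)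
    (hg : ∀ n : ℕ, n' ≤ n → v.Ge (ρ - n * σ - g) (PowerSeries.coeff n Z))
    (hμ : p ^ N * (e₀ + J * g) < μ)
    (hX : ∀ l, 2 ≤ l → ¬ p ∣ l → hasseDeriv l (fth p e A N B θ) = 0)
    (h1 : v.Ge (ν - ρ) ((hasseDeriv 1 (fth p e A N B θ)).eval w))
    (hlp : TWII.LP p v (cadj v K w) (ν - eps) ((fth p e A N B θ).eval w)) (heps : 0 < eps)
    (hL1 : 1 ≤ L) (hL : p ∣ L)
    (hhi : ∀ l : ℕ, L < l → p ∣ l → TWII.LP p v (cadj v K w) (ν - l * ρ + l * g)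
      ((hasseDeriv l (fth p e A N B θ)).eval w))
    (hoc : ∀ i n : ℕ, p ∣ i → n ≠ 0 → L * n' ≤ n + i * n' →
      PG p v (cadj v K w) (ν - i * ρ - n * σ)
        (PhS Φ w Z n' n (hasseDeriv i (fth p e A N B θ₀))))
    {i : ℕ} (hi : p ∣ i) (hiL : i < L) :
    TWII.LP p v (cadj v K w)
      (ν - i * ρ - ((L - i) * n' : ℕ) * σ - (((L - i - 1 : ℕ) : ℝ) * g + eps))
      (((L.choose i : ℕ) : Ω) * (hasseDeriv L (fth p e A N B θ)).eval w *
          (-PowerSeries.coeff n' Z) ^ (L - i) -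
        A N * dl p Φ w Z n' (θ - θ₀) i ((L - i) * n') N ^ p ^ N) := by
  have hp2 := hp.out.two_le
  have hp0 := hp.out.pos
  have hpN : p ∣ p ^ N := dvd_pow_self p (by have := hD.N1; omega)
  have hL2 : 2 ≤ L := hp2.trans (Nat.le_of_dvd (by omega) hL)
  have hΔ : θ - θ₀ ∈ PI K := sub_mem hθ hθ₀
  -- (G1)
  have hG1 : ∀ a b : ℕ, b ≠ 0 → L * n' ≤ p ^ N * b + p ^ N * a * n' →
      v.Ge (s - a * ρ - b * σ - (((L - p ^ N * a : ℕ) : ℝ) * g + eps) / p ^ N)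
        (PhS Φ w Z n' b (hasseDeriv a (θ - θ₀))) := fun a b hb hab =>
    g1 (m₁ := 0) h hD hM hθ hθ₀ hB hJ he₀0 he₀ hg0 hg hμ hX h1 hlp heps hL1 hhi
      (fun i n hn hin => hoc _ _ (hpN.mul_right i) (mul_ne_zero (Nat.pow_pos hp0).ne' hn) hin)
      hb (by omega)
  -- the index
  obtain ⟨n, hnn⟩ : ∃ n, n = (L - i) * n' := ⟨_, rfl⟩
  have hn0 : n ≠ 0 := by
    rw [hnn]
    exact mul_ne_zero (by omega) hn'
  have hin : L * n' = n + i * n' := by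
    rw [hnn, ← add_mul, Nat.sub_add_cancel hiL.le]
  rw [← hnn]
  -- the bound of one term
  have hterm : ∀ m : ℕ, m < N → ∀ a b : ℕ, i = p ^ m * a → n = p ^ m * b →
      v.Ge (s - a * ρ - b * σ - (((L - i - 1 : ℕ) : ℝ) * g + eps) / p ^ m)
        (PhS Φ w Z n' b (hasseDeriv a (θ - θ₀))) := by
    intro m hm a b ha hb
    have hpm : 0 < p ^ m := Nat.pow_pos hp0
    have eN : p ^ N = p ^ (N - m) * p ^ m := by
      rw [← pow_add, Nat.sub_add_cancel hm.le]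
    have hb0 : b ≠ 0 := by
      rintro rfl
      rw [mul_zero] at hb
      exact hn0 hb
    have h3 : L * n' ≤ p ^ N * b + p ^ N * a * n' := by
      have e1 : p ^ N * b + p ^ N * a * n' = p ^ (N - m) * (n + i * n') := by
        rw [eN, ha, hb]
        ring
      rw [e1, ← hin]
      exact Nat.le_mul_of_pos_left _ (Nat.pow_pos hp0)
    refine (hG1 a b hb0 h3).mono ?_
    have h4 : 2 ≤ p ^ (N - m) := hp2.trans (Nat.le_self_pow (by omega) p)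
    have h5 : L - p ^ N * a ≤ p ^ (N - m) * (L - i - 1) := by
      have h6 := ineq1 h4 hL2 hiL
      have e2 : p ^ (N - m) * i = p ^ N * a := by
        rw [eN, ha]
        ring
      rwa [e2] at h6
    have h5' : ((L - p ^ N * a : ℕ) : ℝ) * g ≤ (p : ℝ) ^ (N - m) * ((L - i - 1 : ℕ) : ℝ) * g := by
      refine mul_le_mul_of_nonneg_right ?_ hg0
      exact_mod_cast h5
    have hpmR : (0 : ℝ) < (p : ℝ) ^ m := by positivity
    have hpNm : (0 : ℝ) < (p : ℝ) ^ (N - m) := by positivity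
    have eNR : (p : ℝ) ^ N = p ^ (N - m) * p ^ m := by
      rw [← pow_add, Nat.sub_add_cancel hm.le]
    have h6 : (((L - p ^ N * a : ℕ) : ℝ) * g + eps) / (p : ℝ) ^ N ≤
        (((L - i - 1 : ℕ) : ℝ) * g + eps) / p ^ m := by
      rw [eNR, div_le_div_iff₀ (by positivity) hpmR]
      have h7 : (1 : ℝ) ≤ (p : ℝ) ^ (N - m) := one_le_pow₀ (by exact_mod_cast hp0)
      have h8 : eps ≤ (p : ℝ) ^ (N - m) * eps := le_mul_of_one_le_left heps.le h7
      nlinarith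
    linarith
  have hpR : (0 : ℝ) < p := by exact_mod_cast hp0
  -- the linear term
  have h2 : TWII.LP p v (cadj v K w)
      (ν - i * ρ - n * σ - (((L - i - 1 : ℕ) : ℝ) * g + eps))
      (e * PhS Φ w Z n' n (hasseDeriv i (θ - θ₀))) := by
    have h3 := hterm 0 (by have := hD.N1; omega) i n (by simp) (by simp)
    refine lp_of_ge ((hD.ege.mul h3).mono (le_of_eq ?_))
    rw [pow_zero, div_one]
    ring
  -- the lower terms
  have h3 : TWII.LP p v (cadj v K w)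
      (ν - i * ρ - n * σ - (((L - i - 1 : ℕ) : ℝ) * g + eps))
      (∑ m ∈ Ico 1 N, A m * dl p Φ w Z n' (θ - θ₀) i n m ^ p ^ m) := by
    refine lp_sum _ _ fun m hm => ?_
    obtain ⟨hm1, hmN⟩ := mem_Ico.1 hm
    rw [dl]
    by_cases hd : p ^ m ∣ i ∧ p ^ m ∣ n
    · rw [if_pos hd]
      have hpm : 0 < p ^ m := Nat.pow_pos hp0
      have ha : i = p ^ m * (i / p ^ m) := (Nat.mul_div_cancel' hd.1).symm
      have hb : n = p ^ m * (n / p ^ m) := (Nat.mul_div_cancel' hd.2).symm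
      have h4 := lp_mul_powq (hD.Alp m (mem_Icc.2 ⟨hm1, hmN.le⟩))
        (h.phS_mem (hasse_mem_PI hΔ (i / p ^ m)) n' (n / p ^ m)) hm1 (hterm m hmN _ _ ha hb)
      refine lp_mono h4 (le_of_eq ?_)
      have ha' : (i : ℝ) = p ^ m * (i / p ^ m : ℕ) := by exact_mod_cast ha
      have hb' : (n : ℝ) = p ^ m * (n / p ^ m : ℕ) := by exact_mod_cast hb
      rw [ha', hb']
      field_simp
      ring
    · rw [if_neg hd, zero_pow (Nat.pow_pos hp0).ne', mul_zero]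
      exact lp_of_ge RVal.Ge.zero
  -- the relation
  have h4 := rel h hD hM hθ hθ₀ hB hJ he₀0 he₀ hg0 hg hμ i n
  have h5 := hoc i n hi hn0 (le_of_eq hin)
  have h6 := shape_top h (fth_mem hD hB hθ) hX h1 hlp heps.le hL hhi hg0 hg hi hiL
  rw [← hnn] at h6
  have h7 : TWII.LP p v (cadj v K w)
      (ν - i * ρ - n * σ - (((L - i - 1 : ℕ) : ℝ) * g + eps)) _ :=
    lp_mono (lp_of_pg (h4.sub h5)) (by
      have : 0 ≤ ((L - i - 1 : ℕ) : ℝ) * g := by positivity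
      linarith)
  have h8 := ((h2.add h3).sub h7).sub h6
  have e2 : Icc 1 N = insert N (Ico 1 N) := by
    ext c
    rw [mem_insert, mem_Icc, mem_Ico]
    have := hD.N1
    omega
  rw [e2, sum_insert (by simp)] at h8
  convert h8 using 1
  ring

end Pool.Agent.TWNI
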