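import Pool.Agent.Lib.TWNI.Ch2

/-!
# TANK W, text N1': (G2), the improvement of `R`, isometric setting

`ArcI`: an exact arc, pointwise strict and null on limits of `p`-th powers. `OcH`: OC, H0 and the
strict records for it. `exists_R`: as in `TWN1.Chain3`.
-/

set_option autoImplicit false
set_option linter.unusedSectionVars false

open Polynomial Finset

namespace Pool.Agent.TWNI

open Pool.Agent.H15JM (RVal)
open Pool.Agent.TWM
open Pool.Agent.TWII (PG)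
open Pool.Agent.TWLM (HSd Oi)
open Pool.Agent.TWN1

universe u

variable {k Ω : Type u} [Field k] [Field Ω] [Algebra k Ω] {v : RVal Ω}
  {K : IntermediateField k Ω} {Φ : ℕ → Ω → Ω} {w y : Ω} {Z : PowerSeries Ω} {ρ σ : ℝ}
  {p : ℕ} [hp : Fact p.Prime] [CharP Ω p] [IsAlgClosed Ω]
  {e : Ω} {A : ℕ → Ω} {N J L m₁ n' : ℕ} {B R θ θ₀ : Polynomial Ω} {s ν μ g e₀ eps t : ℝ}

/-- An exact arc: isometric, pointwise strict, null on limits of `p`-th powers. -/
structure ArcI (p : ℕ) (v : RVal Ω) (C : IntermediateField k Ω) (Φ : ℕ → Ω → Ω) (w : Ω)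
    (ρ σ : ℝ) : Prop where
  hsd : HSd C Φ
  oi : Oi v C σ Φ
  tl : TL v C w ρ
  iso : ∀ n : ℕ, ∀ x ∈ C, ∀ b, v.Ge b x → v.Ge (b - n * σ) (Φ n x)
  em : ∀ x ∈ C, ∀ b, v.Ge b x → ∃ μ : ℝ, 0 < μ ∧ ∀ m : ℕ, m ≠ 0 → v.Ge (b - m * σ + μ) (Φ m x)
  crit : ∀ c : ℝ, ∀ x ∈ C, TWII.LP p v C c x →
    ∃ μ : ℝ, 0 < μ ∧ ∀ m : ℕ, m ≠ 0 → PC p v C (c - m * σ + μ) (Φ m x)

/-- The outputs of section 1 for an exact arc. -/
structure OcH (p : ℕ) (v : RVal Ω) (C : IntermediateField k Ω) (Φ : ℕ → Ω → Ω) (w : Ω)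
    (ρ σ : ℝ) : Prop where
  one : ∀ (ν : ℝ) (l₀ : ℕ) (f : Polynomial Ω), f ∈ PI C → p ∣ l₀ →
    (∀ l, l₀ < l → ¬ p ∣ l → hasseDeriv l f = 0) →
    (∀ l, l₀ < l → p ∣ l → PG p v (cadj v C w) (ν - l * ρ) ((hasseDeriv l f).eval w)) →
    TWII.LP p v (cadj v C w) (ν - l₀ * ρ) ((hasseDeriv l₀ f).eval w) →
    ∃ δ : ℝ, 0 < δ ∧ ∃ n₀ : ℕ, ∀ n' : ℕ, n₀ ≤ n' → ∀ η : ℝ, 0 < η → η ≤ δ → ∀ c ∈ C,
      v.Ge (ρ - η) (w - c) → ∀ N : ℕ, N ≠ 0 → l₀ * n' ≤ N →
      PG p v (cadj v C w) (ν - N * σ) (PhS Φ w (Zc Φ c) n' N f)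
  h0 : ∀ (ν : ℝ) (f : Polynomial Ω), f ∈ PI C → (∀ l, 2 ≤ l → ¬ p ∣ l → hasseDeriv l f = 0) →
    TWII.LP p v (cadj v C w) ν (f.eval w) → ∀ i : ℕ, i ≠ 0 → p ∣ i →
    PG p v (cadj v C w) (ν - i * ρ) ((hasseDeriv i f).eval w)
  recd : ∀ (η₁ : ℝ) (n₀ : ℕ), 0 < η₁ → ∃ (n' : ℕ) (g g' η₀ : ℝ), n₀ ≤ n' ∧ n' ≠ 0 ∧ 0 < g' ∧
    g' < g ∧ g < η₁ ∧ 0 < η₀ ∧ ∀ η : ℝ, 0 < η → η ≤ η₀ → ∀ c ∈ C, v.Ge (ρ - η) (w - c) →
      Φ n' c ≠ 0 ∧ v (Φ n' c) = ρ - n' * σ - g ∧
      ∀ n : ℕ, n' < n → v.Ge (ρ - n * σ - max g' η) (Φ n c)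

/-- The margins exist. -/
theorem exists_mar (h : ArcI p v K Φ w ρ σ) (hD : Dt p v K (cadj v K w) s ν e A N) :
    ∃ μ : ℝ, Mar p v K Φ σ s ν e A N μ := by
  obtain ⟨a, ha, h1⟩ := h.em _ hD.eC _ hD.ege
  obtain ⟨b, hb, h2⟩ := exists_min_pos (Icc 1 N)
    (fun i b => ∀ m : ℕ, m ≠ 0 → PC p v K (ν - p ^ i * s - m * σ + b) (Φ m (A i)))
    (fun i a b hab h2 m hm => (h2 m hm).mono (by linarith))
    (fun i hi => h.crit _ _ (hD.AC i hi) ((hD.Alp i hi).down h.tl (hD.AC i hi)))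
  refine ⟨min a b, lt_min ha hb, fun m hm => (h1 m hm).mono ?_, fun i hi m hm =>
    (h2 i hi m hm).mono ?_⟩
  · linarith [min_le_left a b]
  · linarith [min_le_right a b]

omit [IsAlgClosed Ω] hp [CharP Ω p] in
/-- The margins for a larger radius. -/
theorem mar_mono {σ' : ℝ} (hM : Mar p v K Φ σ s ν e A N μ) (h : σ ≤ σ') :
    Mar p v K Φ σ' s ν e A N μ := by
  have h1 : ∀ m : ℕ, (m : ℝ) * σ ≤ m * σ' := fun m => mul_le_mul_of_nonneg_left h m.cast_nonneg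
  exact ⟨hM.pos, fun m hm => (hM.em m hm).mono (by linarith [h1 m]), fun i hi m hm =>
    (hM.Am i hi m hm).mono (by linarith [h1 m])⟩

/-- A record for the standard choice of `Z`, in terms of the larger radius. -/
theorem rec_Z (h : ArcI p v K Φ w ρ σ) {g' η : ℝ} (hn' : n' ≠ 0) (hη : 0 < η) (hg : g' < g)
    (hηg : η ≤ g) {c : Ω} (hc : c ∈ K) (hwc : v.Ge (ρ - η) (w - c)) (hz : Φ n' c ≠ 0)
    (hv : v (Φ n' c) = ρ - n' * σ - g)
    (hn : ∀ n : ℕ, n' < n → v.Ge (ρ - n * σ - max g' η) (Φ n c)) :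
    SetJ v K Φ w (Zc Φ c) ρ (σ + η) ∧ PowerSeries.coeff n' (Zc Φ c) ≠ 0 ∧
      v (PowerSeries.coeff n' (Zc Φ c)) = ρ - n' * (σ + η) - (g - n' * η) ∧
      ∀ n : ℕ, n' ≤ n → v.Ge (ρ - n * (σ + η) - (g - n' * η)) (PowerSeries.coeff n (Zc Φ c)) := by
  have e1 : PowerSeries.coeff n' (Zc Φ c) = Φ n' c := by rw [coeff_Zc, if_neg hn']
  refine ⟨setJ_Zc h.hsd h.oi h.tl h.iso hη.le hc hwc, by rwa [e1], by rw [e1, hv]; ring, ?_⟩
  intro n hnn
  have h0 : n ≠ 0 := by omega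
  rw [coeff_Zc, if_neg h0]
  rcases hnn.eq_or_lt with rfl | hlt
  · intro _
    rw [hv]
    linarith
  · refine (hn n hlt).mono ?_
    have h1 : ((n' : ℝ)) * η ≤ n * η := by
      refine mul_le_mul_of_nonneg_right ?_ hη.le
      exact_mod_cast hnn
    have h2 : max g' η ≤ g := max_le hg.le hηg
    linarith

/-- The data of (G2) at a record. -/
theorem exists_leadR (h : ArcI p v K Φ w ρ σ) (ho : OcH p v K Φ w ρ σ)
    (hR : Nrm p v K w y ρ s ν e A N B J R) (hpL : p ∣ L) (hJL : p ^ N * J < L)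
    (hhi : ∀ l : ℕ, L < l → p ∣ l →
      PG p v (cadj v K w) (ν - l * ρ) ((hasseDeriv l (fth p e A N B R)).eval w)) :
    ∃ (n' : ℕ) (g eps τ : ℝ) (z : Ω) (Δ : Polynomial Ω) (Z : PowerSeries Ω),
      SetJ v K Φ w Z ρ τ ∧ n' ≠ 0 ∧ 0 < eps ∧ eps < g ∧ z ∈ K ∧
      z ≠ 0 ∧ v z = ρ - n' * τ - g ∧ Δ ∈ PI K ∧ (e ≠ 0 → ∀ l, ¬ p ∣ l → hasseDeriv l Δ = 0) ∧
      ∀ i : ℕ, p ∣ i → i < L → TWII.LP p v (cadj v K w)
        (ν - i * ρ - ((L - i) * n' : ℕ) * τ - (((L - i - 1 : ℕ) : ℝ) * g + eps))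
        (((L.choose i : ℕ) : Ω) * (hasseDeriv L (fth p e A N B R)).eval w * z ^ (L - i) -
          A N * dl p Φ w Z n' Δ i ((L - i) * n') N ^ p ^ N) := by
  classical
  have hp0 : (0 : ℝ) < p := by exact_mod_cast hp.out.pos
  have hQ0 : (0 : ℝ) < (p : ℝ) ^ N := by positivity
  have hD := hR.toDt
  have hL0 : L ≠ 0 := by omega
  obtain ⟨μ, hM⟩ := exists_mar h hD
  have hμ0 := hM.pos
  -- the margins
  obtain ⟨D, hDeg⟩ : ∃ D : ℕ, D = (fth p e A N B R).natDegree := ⟨_, rfl⟩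
  obtain ⟨η, hη, hη1⟩ := exists_min_pos (range (D + 1))
    (fun l a => L < l → p ∣ l → PC p v (cadj v K w) (ν - l * ρ + a)
      ((hasseDeriv l (fth p e A N B R)).eval w))
    (fun l a b hab h1 h2 h3 => (h1 h2 h3).mono (by linarith))
    (fun l _ => by
      by_cases h1 : L < l ∧ p ∣ l
      · obtain ⟨a, ha, h2⟩ := PG.exists_pc (hhi l h1.1 h1.2)
        exact ⟨a, ha, fun _ _ => h2⟩
      · exact ⟨1, one_pos, fun h2 h3 => absurd ⟨h2, h3⟩ h1⟩)
  have hη2 : ∀ (g' : ℝ) (l : ℕ), 0 ≤ g' → (D + 1) * g' ≤ η / 2 → L < l → p ∣ l →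
      TWII.LP p v (cadj v K w) (ν - l * ρ + (l * g' + η / 2))
        ((hasseDeriv l (fth p e A N B R)).eval w) := by
    intro g' l hg' hDg hl hpl
    by_cases h1 : l ≤ D
    · refine lp_mono (hη1 l (mem_range.2 (by omega)) hl hpl).lp ?_
      have h2 : (l : ℝ) * g' ≤ (D + 1) * g' := by
        refine mul_le_mul_of_nonneg_right ?_ hg'
        have : l ≤ D + 1 := by omega
        exact_mod_cast this
      linarith
    · rw [hasseDeriv_eq_zero_of_lt_natDegree _ _ (by omega), eval_zero]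
      exact lp_of_ge RVal.Ge.zero
  -- the base point
  obtain ⟨θ₀, hθ₀, hc₀, hX₀, hy₀, hl₀⟩ := hR.fam (μ / (4 * p ^ N)) (by positivity)
  have hf₀ := fth_mem hD hR.BC hθ₀
  have hd₀ := deg_of_coeff hc₀
  -- OC
  obtain ⟨δ, hδ, hδ1⟩ := exists_min_pos (range (L + 1))
    (fun i δ => ∀ᶠ n' : ℕ in Filter.atTop, p ∣ i → ∀ η : ℝ, 0 < η → η ≤ δ → ∀ c ∈ K,
      v.Ge (ρ - η) (w - c) → ∀ n : ℕ, n ≠ 0 →
        (L - i) * n' ≤ n → PG p v (cadj v K w) (ν - i * ρ - n * σ)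
          (PhS Φ w (Zc Φ c) n' n (hasseDeriv i (fth p e A N B θ₀))))
    (fun i a b hab h1 => h1.mono fun n' h2 hpi η' hη' hb => h2 hpi η' hη' (hb.trans hab))
    (fun i hi => by
      have hiL : i ≤ L := Nat.lt_succ_iff.1 (mem_range.1 hi)
      by_cases hpi : p ∣ i
      · obtain ⟨δ, hδ, n₁, hn₁⟩ := ho.one (ν - i * ρ) (L - i)
          (hasseDeriv i (fth p e A N B θ₀)) (hasse_mem_PI hf₀ i) (Nat.dvd_sub hpL hpi)
          (fun l hl hpl => by
            have h2 : ¬ p ∣ l + i := fun h3 => hpl ((Nat.dvd_add_left hpi).1 h3)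
            rw [hasse_hasse, hR.clsX hX₀ (l + i) (by
              have : 2 ≤ L := hp.out.two_le.trans (Nat.le_of_dvd (by omega) hpL)
              omega) h2, mul_zero])
          (fun l hl hpl => by
            have h3 : PG p v (cadj v K w) (ν - i * ρ - l * ρ)
                ((hasseDeriv (l + i) (fth p e A N B R)).eval w) :=
              (hhi (l + i) (by omega) (Dvd.dvd.add hpl hpi)).mono (by push_cast; linarith)
            rw [hasse_hasse, eval_mul, eval_C, hasse_fth_eq hd₀ (by omega)]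
            exact h3.natCast_mul _)
          (by
            rw [hasse_hasse, eval_mul, eval_C, Nat.sub_add_cancel hiL, hasse_fth_eq hd₀ hJL]
            have h2 := lp_sum (range (L.choose (L - i)))
              (fun _ => (hasseDeriv L (fth p e A N B R)).eval w)
              (fun _ _ => lp_mono (hR.lev_high h.tl hJL)
                (c' := ν - i * ρ - (L - i : ℕ) * ρ) (by
                  rw [Nat.cast_sub hiL]
                  linarith))
            rwa [sum_const, card_range, nsmul_eq_mul] at h2)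
        exact ⟨δ, hδ, Filter.eventually_atTop.2 ⟨n₁, fun n' hn' _ => hn₁ n' hn'⟩⟩
      · exact ⟨1, one_pos, Filter.Eventually.of_forall fun n' h2 => absurd h2 hpi⟩)
  obtain ⟨n₀, hn₀⟩ := Filter.eventually_atTop.1 ((Filter.eventually_all_finset _).2 hδ1)
  -- the record
  obtain ⟨n', g, g', η₀, hn', hn'0, hg'0, hg'g, hgη, hη₀, hrec⟩ := ho.recd
    (min (μ / (4 * p ^ N * (J + 1))) (η / (2 * (D + 1)))) n₀ (lt_min (by positivity)
      (by positivity))
  have hg0 : 0 < g := hg'0.trans hg'g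
  have hn'R : (0 : ℝ) < n' := by exact_mod_cast Nat.pos_of_ne_zero hn'0
  -- the noise
  obtain ⟨ζ, hζ, hζ0, hζδ, hζg, hζn⟩ : ∃ ζ : ℝ, 0 < ζ ∧ ζ ≤ η₀ ∧ ζ ≤ δ ∧ ζ ≤ g ∧ n' * ζ ≤ g / 2 := by
    refine ⟨min (min η₀ δ) (min g (g / (2 * n'))), by positivity, ?_, ?_, ?_, ?_⟩
    · exact (min_le_left _ _).trans (min_le_left _ _)
    · exact (min_le_left _ _).trans (min_le_right _ _)
    · exact (min_le_right _ _).trans (min_le_left _ _)
    · have h1 : min (min η₀ δ) (min g (g / (2 * n'))) ≤ g / (2 * n') :=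
        (min_le_right _ _).trans (min_le_right _ _)
      calc (n' : ℝ) * _ ≤ n' * (g / (2 * n')) := mul_le_mul_of_nonneg_left h1 hn'R.le
        _ = g / 2 := by field_simp
  obtain ⟨c, hc, hwc⟩ := h.tl.lim ζ hζ
  obtain ⟨hz0, hvz, hgt⟩ := hrec ζ hζ hζ0 c hc hwc
  obtain ⟨hJ, hZ0, hZv, hZg⟩ := rec_Z h hn'0 hζ hg'g hζg hc hwc hz0 hvz hgt
  obtain ⟨G, hG⟩ : ∃ G : ℝ, G = g - n' * ζ := ⟨_, rfl⟩
  have hG0 : 0 < G := by rw [hG]; linarith
  have hGg : G ≤ g := by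
    rw [hG]
    have : 0 ≤ (n' : ℝ) * ζ := by positivity
    linarith
  rw [← hG] at hZv hZg
  have hgJ : p ^ N * (J * G) ≤ μ / 4 := by
    have h1 : g ≤ μ / (4 * p ^ N * (J + 1)) := (hgη.trans_le (min_le_left _ _)).le
    rw [le_div_iff₀ (by positivity)] at h1
    have h2 : 0 ≤ (p : ℝ) ^ N * g := by positivity
    have h3 : (p : ℝ) ^ N * (J * G) ≤ p ^ N * (J * g) :=
      mul_le_mul_of_nonneg_left (mul_le_mul_of_nonneg_left hGg J.cast_nonneg) hQ0.le
    nlinarith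
  have hgD : ((D : ℝ) + 1) * G ≤ η / 2 := by
    have h1 : g ≤ η / (2 * (D + 1)) := (hgη.trans_le (min_le_right _ _)).le
    rw [le_div_iff₀ (by positivity)] at h1
    have h3 : ((D : ℝ) + 1) * G ≤ (D + 1) * g := mul_le_mul_of_nonneg_left hGg (by positivity)
    linarith
  -- the approximant
  obtain ⟨θ, hθ, hcθ, hXθ, hyθ, hlθ⟩ := hR.fam (min (μ / (4 * p ^ N)) (G / 2))
    (lt_min (by positivity) (by positivity))
  have hdθ := deg_of_coeff hcθ
  have hΔd : (θ - θ₀).natDegree ≤ J := deg_of_coeff fun i hi => by rw [hcθ i hi, hc₀ i hi]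
  have hΔv : v.Ge (s - μ / (4 * p ^ N)) ((θ - θ₀).eval w) := by
    have e1 : (θ - θ₀).eval w = (y - θ₀.eval w) - (y - θ.eval w) := by
      rw [eval_sub]
      ring
    rw [e1]
    exact hy₀.sub (hyθ.mono (by linarith [min_le_left (μ / (4 * (p : ℝ) ^ N)) (G / 2)]))
  refine ⟨n', G, G / 2, σ + ζ, -PowerSeries.coeff n' (Zc Φ c), θ - θ₀, Zc Φ c, hJ, hn'0,
    by positivity, by linarith, neg_mem (hJ.zmem n'), neg_ne_zero.2 hZ0,
    by rw [v.map_neg _ hZ0, hZv], sub_mem hθ hθ₀,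
    fun he l hl => by rw [map_sub, hXθ he l hl, hX₀ he l hl, sub_zero], fun i hpi hiL => ?_⟩
  have h1 := key (L := L) (eps := G / 2) hJ hD (mar_mono hM (by linarith)) hθ hθ₀ hR.BC hΔd
    (by positivity) hΔv hn'0 hG0.le
    hZg (by
      have e1 : (p : ℝ) ^ N * (μ / (4 * p ^ N)) = μ / 4 := by field_simp
      rw [mul_add, e1]
      linarith) (hR.clsX hXθ) (hR.cls1 hXθ)
    (lp_mono hlθ (by linarith [min_le_right (μ / (4 * (p : ℝ) ^ N)) (G / 2)])) (by positivity)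
    (by omega) hpL (fun l hl hpl => by
      rw [hasse_fth_eq hdθ (by omega)]
      exact lp_mono (hη2 G l hG0.le hgD hl hpl) (by linarith))
    (fun i n hpi hn hin => by
      by_cases hiL : i ≤ L
      · refine (hn₀ n' hn' i (mem_range.2 (by omega)) hpi ζ hζ hζδ c hc hwc n hn ?_).mono ?_
        · rw [Nat.sub_mul]
          omega
        · have : 0 ≤ (n : ℝ) * ζ := by positivity
          linarith
      · refine shape_null (L := L) hJ hf₀ (hR.clsX hX₀) (half_pos hη) (fun l hl hpl => ?_)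
          hG0.le hZg hpi (by omega) n
        rw [hasse_fth_eq hd₀ (by omega)]
        exact hη2 G l hG0.le hgD hl hpl) hpi hiL
  rwa [hasse_fth_eq hdθ hJL] at h1

/-- **(G2)**. -/
theorem g2_step (h : ArcI p v K Φ w ρ σ) (ho : OcH p v K Φ w ρ σ)
    (hJ1 : 1 ≤ J) (hR : Nrm p v K w y ρ s ν e A N B J R) (hJL : p ^ N * J < L)
    (hhi : ∀ l : ℕ, L < l → p ∣ l →
      PG p v (cadj v K w) (ν - l * ρ) ((hasseDeriv l (fth p e A N B R)).eval w)) :
    ∃ R' : Polynomial Ω, Nrm p v K w y ρ s ν e A N B J R' ∧ ∀ l : ℕ, L ≤ l → p ∣ l →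
      PG p v (cadj v K w) (ν - l * ρ) ((hasseDeriv l (fth p e A N B R')).eval w) := by
  classical
  have hp0 := hp.out.pos
  have hp2 := hp.out.two_le
  have hD := hR.toDt
  have hN := hD.N1
  by_cases hbad : p ∣ L → PG p v (cadj v K w) (ν - L * ρ)
      ((hasseDeriv L (fth p e A N B R)).eval w)
  · refine ⟨R, hR, fun l hl hpl => ?_⟩
    rcases hl.eq_or_lt with rfl | h1
    exacts [hbad hpl, hhi l h1 hpl]
  push Not at hbad
  obtain ⟨hpL, hbad⟩ := hbad
  obtain ⟨n', g, eps, τ, z, Δ, Z, hJ, hn', heps, heg, hz, hz0, hvz, hΔ, hΔX, hlead⟩ :=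
    exists_leadR h ho hR hpL hJL hhi
  have hzF := le_cadj v K w hz
  -- a non vanishing leading term with vanishing top term is absurd
  have habs : ∀ i : ℕ, p ∣ i → i < L → ¬ p ∣ L.choose i →
      dl p Φ w Z n' Δ i ((L - i) * n') N ≠ 0 := by
    intro i hpi hiL hch h0
    have h1 := hlead i hpi hiL
    rw [h0, zero_pow (Nat.pow_pos hp0).ne', mul_zero, sub_zero] at h1
    exact hbad (PG.of_natCast_mul hch (lead_div hzF hz0 hvz hpi hpL hiL heg h1))
  have hQJ : p ^ N ≤ p ^ N * J := Nat.le_mul_of_pos_right _ (by omega)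
  -- `Q ∣ L`
  have hQL : p ^ N ∣ L := by
    by_contra hnd
    obtain ⟨a, m, hpm, hLa⟩ := Nat.exists_eq_pow_mul_and_not_dvd (n := L) (by omega) p hp.out.ne_one
    have haN : a < N := by
      by_contra h1
      exact hnd ((pow_dvd_pow p (not_lt.1 h1)).trans ⟨m, hLa⟩)
    have ha1 : 1 ≤ a := by
      by_contra h1
      have h2 : a = 0 := by omega
      rw [h2, pow_zero, one_mul] at hLa
      exact hpm (hLa ▸ hpL)
    have h3 : p ^ a < p ^ N := Nat.pow_lt_pow_right hp.out.one_lt haN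
    refine habs (p ^ a) (dvd_pow_self p (by omega)) (by omega) ?_ ?_
    · have h4 := dvd_choose_pow p a m 1
      rw [mul_one, ← hLa, Nat.choose_one_right] at h4
      rwa [h4]
    · rw [dl, if_neg]
      rintro ⟨h4, -⟩
      exact absurd (Nat.le_of_dvd (Nat.pow_pos hp0) h4) (not_le.2 h3)
  obtain ⟨j, hLj⟩ := hQL
  have hQ0 : 0 < p ^ N := Nat.pow_pos hp0
  have hJj : J < j := by
    rw [hLj] at hJL
    exact lt_of_mul_lt_mul_left hJL (Nat.zero_le _)
  have hL0 : 0 < L := by omega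
  have hdvQ : p ∣ p ^ N := dvd_pow_self p (by omega)
  -- `e ≠ 0 → p ∣ j`
  have hpj : e ≠ 0 → p ∣ j := by
    intro he
    by_contra hnd
    have hlt : p ^ N < L := by
      rw [hLj]
      calc p ^ N = p ^ N * 1 := (mul_one _).symm
        _ < p ^ N * j := Nat.mul_lt_mul_of_pos_left (by omega) hQ0
    refine habs (p ^ N) hdvQ hlt ?_ ?_
    · have h4 := dvd_choose_pow p N j 1
      rw [mul_one, ← hLj, Nat.choose_one_right] at h4
      rwa [h4]
    · rw [dl]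
      split_ifs
      · rw [Nat.div_self hQ0, hΔX he 1 (Nat.Prime.not_dvd_one hp.out), PhS, Ph, EV_zero, map_zero]
      · rfl
  -- the binomial coefficients
  have hbin : ∀ i, J < i → i < j → p ∣ j.choose i := by
    intro i hi hij
    by_contra hnd
    obtain ⟨θ, hθ, hcθ, hXθ, -, -⟩ := hR.fam 1 one_pos
    have hQi : p ^ N * J < p ^ N * i := Nat.mul_lt_mul_of_pos_left hi hQ0
    have hQij : p ^ N * i < L := by
      rw [hLj]
      exact Nat.mul_lt_mul_of_pos_left hij hQ0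
    have hdQi : p ∣ p ^ N * i := hdvQ.mul_right i
    have h1 := ho.h0 (ν - (p ^ N * i : ℕ) * ρ)
      (hasseDeriv (p ^ N * i) (fth p e A N B θ)) (hasse_mem_PI (fth_mem hD hR.BC hθ) _)
      (fun l hl hpl => by
        have h2 : ¬ p ∣ l + p ^ N * i := fun h3 => hpl ((Nat.dvd_add_left hdQi).1 h3)
        rw [hasse_hasse, hR.clsX hXθ _ (by omega) h2, mul_zero])
      (by
        rw [hasse_fth_eq (deg_of_coeff hcθ) hQi]
        exact hR.lev_high h.tl hQi) (L - p ^ N * i) (by omega) (Nat.dvd_sub hpL hdQi)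
    rw [hasse_hasse, eval_mul, eval_C, Nat.sub_add_cancel hQij.le,
      hasse_fth_eq (deg_of_coeff hcθ) hJL] at h1
    refine hbad (PG.of_natCast_mul (n := L.choose (L - p ^ N * i)) ?_ (h1.mono (le_of_eq ?_)))
    · rw [Nat.choose_symm hQij.le, hLj, dvd_choose_pow]
      exact hnd
    · rw [Nat.cast_sub hQij.le]
      ring
  -- the leading coefficient
  set E : Ω := (hasseDeriv L (fth p e A N B R)).eval w with hE
  obtain ⟨P, hPdef⟩ : ∃ P : Ω, P = dl p Φ w Z n' Δ 0 ((L - 0) * n') N := ⟨_, rfl⟩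
  have hPF : P ∈ cadj v K w := by
    rw [hPdef]
    exact dl_mem hJ hΔ _ _ _
  set t₁ : Ω := P / z ^ j with ht₁
  have ht₁F : t₁ ∈ cadj v K w := div_mem hPF (pow_mem hzF j)
  have hlt1 := hlead 0 (dvd_zero p) hL0
  have e1 : ((L.choose 0 : ℕ) : Ω) * E * z ^ (L - 0) -
      A N * dl p Φ w Z n' Δ 0 ((L - 0) * n') N ^ p ^ N =
      (E - A N * t₁ ^ p ^ N) * z ^ (L - 0) := by
    rw [← hPdef, ht₁, Nat.choose_zero_right, Nat.cast_one, one_mul, Nat.sub_zero, div_pow,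
      ← pow_mul, mul_comm j, ← hLj]
    have : z ^ L ≠ 0 := pow_ne_zero _ hz0
    field_simp
  rw [e1] at hlt1
  have h2 : PG p v (cadj v K w) (ν - L * ρ) (E - A N * t₁ ^ p ^ N) :=
    lead_div hzF hz0 hvz (dvd_zero p) hpL hL0 heg hlt1
  -- the size of `t₁`
  have h3 : v.Ge (s - j * ρ) t₁ := by
    refine top_ge hN hD.top ht₁F ?_
    have h4 := (hR.lev_high h.tl hJL).sub (lp_of_pg h2)
    rw [← hE] at h4
    have e2 : E - (E - A N * t₁ ^ p ^ N) = A N * t₁ ^ p ^ N := by ring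
    rw [e2] at h4
    refine lp_mono h4 (le_of_eq ?_)
    rw [hLj]
    push_cast
    ring
  -- the approximation in `K`
  obtain ⟨r, hr, hrt⟩ : ∃ r ∈ K, Gt v (s - j * ρ) (t₁ + r) := by
    by_cases h0 : t₁ = 0
    · exact ⟨0, K.zero_mem, by rw [h0, add_zero]; exact Gt.zero⟩
    · obtain ⟨a, ha, h4⟩ := h.tl.imm.imm t₁ ht₁F h0
      refine ⟨-a, neg_mem ha, ?_⟩
      rw [← sub_eq_add_neg]
      exact h4.mono (h3 h0)
  have hrv : v.Ge (s - j * ρ) r := by
    have e2 : r = (t₁ + r) - t₁ := by ring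
    rw [e2]
    exact hrt.ge.sub h3
  have hR' := hR.addR h.tl hr hrv hJj hbin hpj
  refine ⟨R + monomial j r, hR', fun l hl hpl => ?_⟩
  -- the difference
  have hmdeg : (monomial j r).natDegree ≤ j := natDegree_monomial_le r
  have e3 : fth p e A N B (R + monomial j r) = fth p e A N B R +
      (C e * monomial j r + ∑ i ∈ Icc 1 N, C (A i) * monomial j r ^ p ^ i) := by
    have h4 := fth_sub (p := p) e A N B (R + monomial j r) R
    rw [add_sub_cancel_left] at h4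
    rw [← h4]
    ring
  have hdeg := fdiff_deg (p := p) (J := j) e A N hmdeg
  rw [← hLj] at hdeg
  rcases hl.eq_or_lt with rfl | hlt
  · -- the coefficient of degree `L`
    have hcoef : (C e * monomial j r + ∑ i ∈ Icc 1 N, C (A i) * monomial j r ^ p ^ i).coeff L =
        A N * r ^ p ^ N := by
      have hjL : j < L := by
        rw [hLj]
        have h4 : 2 ≤ p ^ N := hp2.trans (Nat.le_self_pow (by omega) p)
        have h5 : 2 * j ≤ p ^ N * j := Nat.mul_le_mul_right _ h4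
        omega
      rw [coeff_add, coeff_C_mul, coeff_monomial, if_neg hjL.ne, mul_zero, zero_add,
        finsetSum_coeff, sum_eq_single N]
      · rw [coeff_C_mul, monomial_pow, coeff_monomial, if_pos (by rw [hLj, mul_comm])]
      · intro m hm hmN
        have hmN' : m < N := lt_of_le_of_ne (mem_Icc.1 hm).2 hmN
        rw [coeff_C_mul, monomial_pow, coeff_monomial, if_neg, mul_zero]
        rw [hLj, mul_comm]
        intro h4
        have h5 : p ^ m = p ^ N := Nat.eq_of_mul_eq_mul_right (by omega) h4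
        exact hmN'.ne (Nat.pow_right_injective hp2 h5)
      · intro h4
        exact absurd (mem_Icc.2 ⟨hN, le_rfl⟩) h4
    have hconst : hasseDeriv L (C e * monomial j r +
        ∑ i ∈ Icc 1 N, C (A i) * monomial j r ^ p ^ i) = C (A N * r ^ p ^ N) := by
      rw [← hcoef]
      ext i
      rw [hasseDeriv_coeff, coeff_C]
      split_ifs with hi
      · rw [hi, zero_add, Nat.choose_self, Nat.cast_one, one_mul]
      · rw [coeff_eq_zero_of_natDegree_lt (by omega), mul_zero]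
    rw [e3, map_add, hconst, eval_add, eval_C, ← hE]
    have e4 : E + A N * r ^ p ^ N = (E - A N * t₁ ^ p ^ N) + A N * (t₁ + r) ^ p ^ N := by
      rw [add_pow_char_pow]
      ring
    rw [e4]
    refine h2.add ?_
    obtain ⟨η, hη, h4⟩ := TWLM.exists_ge_of_gt hrt
    refine pg_of_lp (lp_mul_powq (hD.Alp N (mem_Icc.2 ⟨hN, le_rfl⟩))
      (add_mem ht₁F (le_cadj v K w hr)) hN h4) ?_
    have h5 : (0 : ℝ) < (p : ℝ) ^ N * η := by
      have : (0 : ℝ) < p := by exact_mod_cast hp0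
      positivity
    rw [hLj]
    push_cast
    nlinarith
  · rw [e3, map_add, hasseDeriv_eq_zero_of_lt_natDegree _ _ (hdeg.trans_lt hlt), add_zero]
    exact hhi l hlt hpl

/-- **(G2), conclusion**: an admissible `R` with `D^[l] f` null for all `l > Q J`, `p ∣ l`. -/
theorem exists_R (h : ArcI p v K Φ w ρ σ) (ho : OcH p v K Φ w ρ σ)
    (hJ1 : 1 ≤ J) (hR : Nrm p v K w y ρ s ν e A N B J R) :
    ∃ R' : Polynomial Ω, Nrm p v K w y ρ s ν e A N B J R' ∧ ∀ l : ℕ, p ^ N * J < l → p ∣ l →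
      PG p v (cadj v K w) (ν - l * ρ) ((hasseDeriv l (fth p e A N B R')).eval w) := by
  have key : ∀ (m : ℕ) (R : Polynomial Ω), Nrm p v K w y ρ s ν e A N B J R →
      (∀ l : ℕ, p ^ N * J + m < l → p ∣ l →
        PG p v (cadj v K w) (ν - l * ρ) ((hasseDeriv l (fth p e A N B R)).eval w)) →
      ∃ R' : Polynomial Ω, Nrm p v K w y ρ s ν e A N B J R' ∧ ∀ l : ℕ, p ^ N * J < l → p ∣ l →
        PG p v (cadj v K w) (ν - l * ρ) ((hasseDeriv l (fth p e A N B R')).eval w) := by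
    intro m
    induction m with
    | zero => exact fun R hR h1 => ⟨R, hR, h1⟩
    | succ m ih =>
      intro R hR h1
      obtain ⟨R', hR', h2⟩ := g2_step (L := p ^ N * J + m + 1) h ho hJ1 hR (by omega)
        fun l hl hpl => h1 l (by omega) hpl
      exact ih R' hR' fun l hl hpl => h2 l (by omega) hpl
  refine key (fth p e A N B R).natDegree R hR fun l hl hpl => ?_
  rw [hasseDeriv_eq_zero_of_lt_natDegree _ _ (by omega), eval_zero]
  exact .of_gt Gt.zero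

end Pool.Agent.TWNI
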