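import Pool.Agent.Lib.TWNI.OcI
import Pool.Agent.Lib.TWRR.R5
import Pool.Agent.Lib.TWII.PropHV
import Pool.Agent.Lib.TWN1.GabF

/-!
# TANK W, text N1' (exact arcs): the end

`FinE`: finite shape above size `0` (all jets of large index have size `≤ 0`).
* `AF.fin2E`, `AF.fin1E`: growth for an exact arc (Proposition H, vector form);
* `ResE`: `a` is unhit by the second generator of some pair, or some pair has a first generator of
  finite shape;
* `gabE`: an additive form of a jet of `a` gives `ResE`;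
* `ArcI.resE`: `ResE` for every critical element, from H0 and RAT.
-/

set_option autoImplicit false

open Polynomial Finset

namespace Pool.Agent.TWNI

open Pool.Agent.H15JM (RVal)
open Pool.Agent.TWM
open Pool.Agent.TWII (PG LP)
open Pool.Agent.TWLM (HSd Oi)
open Pool.Agent.TWN1
open Pool.Agent.TWRR (H0w RatH)

universe u

variable {k Ω : Type u} [Field k] [Field Ω] [Algebra k Ω] {v : RVal Ω}
  {C K : IntermediateField k Ω} {Φ : ℕ → Ω → Ω} {w y₀ : Ω} {ρ σ s ν : ℝ}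
  {b b₀ z z₁ z₂ : Ω} {r r₁ r₂ : ℝ} {x y : ℕ → Ω} {S T p : ℕ}

/-- Finite shape above size `0`. -/
def FinE (v : RVal Ω) (F : IntermediateField k Ω) (σ ρ : ℝ) (Φ : ℕ → Ω → Ω) (u : Ω) : Prop :=
  ∃ L : ℕ, ∀ l : ℕ, L < l → ∀ ε : ℝ, 0 < ε →
    TWII.Nr v F ρ u fun θ => v.Ge (ρ - l * σ - ε) (Φ l θ)

/-- The dichotomy, exact form. -/
def ResE (p : ℕ) (v : RVal Ω) (C K : IntermediateField k Ω) (σ : ℝ) (Φ : ℕ → Ω → Ω) (ν : ℝ)
    (a : Ω) : Prop :=
  (∃ (z z' : Ω) (r r' : ℝ), Gen2 v C K z r z' r' ∧ Unh p v (cadj v C z) K z' r' ν a) ∨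
  ∃ (z z' : Ω) (r r' : ℝ), Gen2 v C K z r z' r' ∧ FinE v C σ r Φ z

/-- Not infinitely many jets of positive size: finite shape. -/
theorem finE_of_not_inf (h : ¬ InfI v C Φ w ρ σ) : FinE v C σ ρ Φ w := by
  simp only [InfI, not_forall, not_exists, not_and] at h
  obtain ⟨n₀, h1⟩ := h
  exact ⟨n₀, fun l hl ε hε => ⟨ε, hε, fun θ hθ h2 => not_visI (h1 l hl.le) hε hθ h2⟩⟩

variable [hp : Fact p.Prime] [CharP Ω p]

omit [CharP Ω p] in
theorem ArcI.hd (hA : ArcI p v C Φ w ρ σ) (hx : Col p v C ν r x) (j n : ℕ) (hn : n ≠ 0) :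
    ∃ g ∈ C, (j = 0 → g = 0) ∧ Gt v (ν - (p : ℝ) ^ j * r - n * σ) (Φ n (x j) - g ^ p) := by
  rcases eq_or_ne j 0 with rfl | hj
  · obtain ⟨μ, hμ, h1⟩ := hA.em _ (hx.mem 0) _ hx.lin
    refine ⟨0, C.zero_mem, fun _ => rfl, ?_⟩
    rw [zero_pow hp.out.ne_zero, sub_zero]
    refine Gt.of_ge (h1 n hn) ?_
    rw [pow_zero]
    linarith
  · obtain ⟨μ, hμ, h1⟩ := hA.crit _ _ (hx.mem j) (hx.lev j hj)
    obtain ⟨g, hg, h2⟩ := h1 n hn
    exact ⟨g, hg, fun h => absurd h hj, Gt.of_ge h2 (by linarith)⟩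

/-- **Growth, independent tops**, exact arc. -/
theorem AF.fin2E [IsAlgClosed Ω] (h : AF p v C K ν b b₀ z₁ r₁ x S z₂ r₂ y T)
    (hb : LP p v K ν b) (hA : ArcI p v C Φ w ρ σ)
    (hind : ∀ c₁ ∈ C, ∀ c₂ ∈ C, ∀ t : ℝ, PG p v C t (x S * c₁ ^ p ^ S + y T * c₂ ^ p ^ T) →
      Gt v (t - ν + p ^ S * r₁) (c₁ ^ p ^ S) ∧ Gt v (t - ν + p ^ T * r₂) (c₂ ^ p ^ T)) :
    FinE v C σ r₁ Φ z₁ ∧ FinE v C σ r₂ Φ z₂ := by
  obtain ⟨L, hL⟩ := TWII.propHV p (ι := Bool) hA.hsd hA.iso hA.oi (ρ := fun i => cond i r₂ r₁)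
    (u := fun i => cond i z₂ z₁) (fun i => by cases i; exacts [h.par.t1.lim, h.par.t2.lim])
    (ν := ν) h.b0 (fun i => cond i T S) (fun i => cond i y x)
    (fun i j _ => by cases i; exacts [h.c1.mem j, h.c2.mem j])
    (fun i j _ n hn => by cases i; exacts [hA.hd h.c1 j n hn, hA.hd h.c2 j n hn])
    (fun i j _ ε hε => by cases i; exacts [h.c1.hlev j ε hε, h.c2.hlev j ε hε])
    (fun c hc t ht i => by
      rw [Fintype.sum_bool, add_comm] at ht
      have h1 := hind (c false) (hc false) (c true) (hc true) t ht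
      cases i
      exacts [h1.1, h1.2])
    (fun ε hε => by
      obtain ⟨δ, hδ, h1⟩ := h.stab hb hε
      refine ⟨δ, hδ, fun θ hθ h2 => ?_⟩
      beta_reduce
      rw [Fintype.sum_bool]
      obtain ⟨g, hg, h3⟩ := h1 (θ false) (hθ false) (θ true) (hθ true) (h2 false) (h2 true)
      refine ⟨g, hg, ?_⟩
      have e : b₀ + (∑ j ∈ range (cond true T S + 1), cond true y x j * θ true ^ p ^ j +
          ∑ j ∈ range (cond false T S + 1), cond false y x j * θ false ^ p ^ j) - g ^ p =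
          b₀ + col p x (θ false) S + col p y (θ true) T - g ^ p := by
        rw [col, col]
        simp only [cond_true, cond_false]
        ring
      rw [e]
      exact h3)
  exact ⟨⟨L, fun l hl ε hε => hL false l hl ε hε⟩, ⟨L, fun l hl ε hε => hL true l hl ε hε⟩⟩

/-- **Growth, the first column is empty**, exact arc. -/
theorem AF.fin1E [IsAlgClosed Ω] (h : AF p v C K ν b b₀ z₁ r₁ x 0 z₂ r₂ y T)
    (hb : LP p v K ν b) (hA : ArcI p v C Φ w ρ σ) (hx : Gt v (ν - r₁) (x 0))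
    (hT : T ≠ 0) (hyT : ¬ PG p v C (ν - p ^ T * r₂) (y T)) : FinE v C σ r₂ Φ z₂ := by
  -- the point for `z₁`
  obtain ⟨μ, hμ, hxμ⟩ := TWLM.exists_ge_of_gt hx
  obtain ⟨θ₁, hθ₁, h1⟩ := h.par.t1.lim μ hμ
  have h2 : v.Ge ν (x 0 * (z₁ - θ₁)) := (hxμ.mul h1).mono (by linarith)
  have ha₀ : b₀ + x 0 * θ₁ ∈ C := add_mem h.b0 (mul_mem (h.c1.mem 0) hθ₁)
  obtain ⟨L, hL⟩ := TWII.propHV p (ι := Unit) hA.hsd hA.iso hA.oi (ρ := fun _ => r₂)
    (u := fun _ => z₂) (fun _ => h.par.t2.lim) (ν := ν) ha₀ (fun _ => T) (fun _ => y)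
    (fun _ j _ => h.c2.mem j) (fun _ j _ n hn => hA.hd h.c2 j n hn)
    (fun _ j _ ε hε => h.c2.hlev j ε hε)
    (fun c hc t ht i => by
      rw [Finset.univ_unique, Finset.sum_singleton] at ht
      refine (TWII.ind_of_not_pg p hT hyT (hc _) ht).mono (le_of_eq ?_)
      ring)
    (fun ε hε => by
      obtain ⟨δ₂, hδ₂, h3⟩ := h.c2.near h.par.le h.par.mem2 T hε
      have h0 : PC p v K (ν - ε) (b₀ + col p x z₁ 0 + col p y z₂ T) := by
        have h3 := hb.sub (TWII.LP.of_pg h.rel)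
        rw [sub_sub_cancel] at h3
        exact h3.pc (by linarith)
      refine ⟨δ₂, hδ₂, fun θ hθ h4 => ?_⟩
      have h5 := h3 (θ ()) (hθ ()) (h4 ())
      beta_reduce
      rw [Finset.univ_unique, Finset.sum_singleton]
      change PC p v C (ν - ε) (b₀ + x 0 * θ₁ + col p y (θ ()) T)
      refine h.par.down (add_mem ha₀ (sum_mem fun j _ => mul_mem (h.c2.mem j)
        (pow_mem (hθ ()) _))) ?_
      have e : b₀ + x 0 * θ₁ + col p y (θ ()) T = (b₀ + col p x z₁ 0 + col p y z₂ T) -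
          x 0 * (z₁ - θ₁) - (col p y z₂ T - col p y (θ ()) T) := by
        rw [col_zero]
        ring
      rw [e]
      exact (h0.sub (PC.of_ge (h2.mono (by linarith)))).sub h5)
  exact ⟨L, fun l hl ε hε => hL () l hl ε hε⟩

/-- An additive form of a jet of `a`: the dichotomy. -/
theorem gabE [IsAlgClosed Ω] (hA : ArcI p v C Φ w ρ σ) (hP : Par v C K z₁ r₁ z₂ r₂)
    {f : Polynomial Ω} (hf : f ∈ PI (cadj v C z₁)) {a : Ω} (hlp : LP p v K ν a)
    (haf : PG p v K ν (a - f.eval z₂)) {m : ℕ}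
    (h : AF p v C K (ν - m * r₂) ((hasseDeriv m f).eval z₂) b₀ z₁ r₁ x S z₂ r₂ y T)
    (hT : T ≠ 0) (hyT : ¬ PG p v C (ν - m * r₂ - p ^ T * r₂) (y T)) :
    ResE p v C K σ Φ ν a := by
  have hfl : LP p v K ν (f.eval z₂) := by
    have h8 := hlp.sub (TWII.LP.of_pg haf)
    rwa [sub_sub_cancel] at h8
  have hlin : m ≠ 0 → Gt v (ν - m * r₂ - r₁) (x 0) ∧ Gt v (ν - m * r₂ - r₂) (y 0) :=
    fun hm => lin_null hP hf hfl hm h
  have hbl : LP p v K (ν - m * r₂) ((hasseDeriv m f).eval z₂) := by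
    rw [hP.eq1] at hfl ⊢
    exact hfl.hjet hP.t21 hf m
  obtain ⟨b₀', z₁', z₂', r₁', r₂', x', y', S', T', h', hl, hT', hyT', hS⟩ := h.red hT hyT
  rcases hS with rfl | ⟨-, hind⟩
  · rcases eq_or_ne m 0 with rfl | hm
    · -- `a` is additive of degree one in `z₁'`
      left
      refine ⟨z₂', z₁', r₂', r₁', h'.par.symm.gen2,
        Polynomial.C (b₀' + col p y' z₂' T') + Polynomial.C (x' 0) * X, ?_, ?_, ?_⟩
      · have hcol : b₀' + col p y' z₂' T' ∈ cadj v C z₂' := by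
          refine add_mem (le_cadj v C z₂' h'.b0) (sum_mem fun j _ =>
            mul_mem (le_cadj v C z₂' (h'.c2.mem j)) (pow_mem (self_mem_cadj v C z₂') _))
        exact add_mem (C_mem_PI hcol) (mul_mem (C_mem_PI (le_cadj v C z₂' (h'.c1.mem 0)))
          X_mem_PI)
      · have h1 := h'.rel
        rw [hasseDeriv_zero, LinearMap.id_apply, Nat.cast_zero, zero_mul, sub_zero, col_zero] at h1
        have e : a - (Polynomial.C (b₀' + col p y' z₂' T') +
            Polynomial.C (x' 0) * X).eval z₁' = (a - f.eval z₂) +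
            (f.eval z₂ - (b₀' + x' 0 * z₁' + col p y' z₂' T')) := by
          simp only [eval_add, eval_C, eval_mul, eval_X]
          ring
        rw [e]
        exact haf.add h1
      · intro l hpl hl0
        have hl2 : 2 ≤ l := hp.out.two_le.trans (Nat.le_of_dvd (Nat.pos_of_ne_zero hl0) hpl)
        have e : (taylor z₁' (Polynomial.C (b₀' + col p y' z₂' T') +
            Polynomial.C (x' 0) * X)).coeff l = 0 := by
          refine coeff_eq_zero_of_natDegree_lt (lt_of_le_of_lt ?_ hl2)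
          rw [natDegree_taylor]
          refine (natDegree_add_le _ _).trans (max_le (by rw [natDegree_C]; omega) ?_)
          exact (natDegree_C_mul_le _ _).trans natDegree_X_le
        rw [e]
        exact .of_gt Gt.zero
    · -- `z₂'` has finite shape
      obtain ⟨hx0, -⟩ := hl (hlin hm).1 (hlin hm).2
      exact Or.inr ⟨z₂', z₁', r₂', r₁', h'.par.symm.gen2, AF.fin1E h' hbl hA hx0 hT' hyT'⟩
  · exact Or.inr ⟨z₁', z₂', r₁', r₂', h'.par.gen2, (AF.fin2E h' hbl hA hind).1⟩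

/-- **N1'**: every critical element satisfies the dichotomy. -/
theorem ArcI.resE [IsAlgClosed Ω] (hΩ : CompleteV v) (h : ArcI p v C Φ w ρ σ)
    (h0 : InfI v C Φ w ρ σ → H0w p v C w ρ) (hrat : InfI v C Φ w ρ σ → RatH p v C w ρ)
    (hy : TL v (cadj v C w) y₀ s) (hK : K = cadj v (cadj v C w) y₀) {a : Ω} (ha : a ∈ K)
    (hlp : LP p v K ν a) : ResE p v C K σ Φ ν a := by
  by_cases hinf : InfI v C Φ w ρ σ
  swap
  · exact Or.inr ⟨w, y₀, ρ, s, ⟨h.tl, hy, hK⟩, finE_of_not_inf hinf⟩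
  subst hK
  obtain ⟨f, hf, h1⟩ := hy.dense ha (ν + 1)
  have h2 : PG p v (cadj v (cadj v C w) y₀) ν (a - f.eval y₀) :=
    .of_gt (Gt.of_ge h1 (by linarith))
  have h7 : LP p v (cadj v (cadj v C w) y₀) ν (f.eval y₀) := by
    have h8 := hlp.sub (TWII.LP.of_pg h2)
    rwa [sub_sub_cancel] at h8
  by_cases hhit : ∃ l : ℕ, p ∣ l ∧ l ≠ 0 ∧
      ¬ PG p v (cadj v (cadj v C w) y₀) (ν - l * s) ((taylor y₀ f).coeff l)
  · obtain ⟨m, N, g, hg, b₀, x, S, y', hN, h3, h4⟩ :=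
      (h0 hinf).hit_af hΩ h.tl (hrat hinf) hy hf h7 hhit
    -- the polynomial in the new variable
    have hf' : taylor g f ∈ PI (cadj v C w) := taylor_mem_PI hf hg
    have e1 : (taylor g f).eval (y₀ - g) = f.eval y₀ := by rw [taylor_eval, sub_add_cancel]
    have e2 : (hasseDeriv m (taylor g f)).eval (y₀ - g) = (hasseDeriv m f).eval y₀ := by
      rw [← taylor_coeff, ← taylor_coeff, taylor_taylor, sub_add_cancel]
    refine gabE h h3.par hf' hlp ?_ (by rw [e2]; exact h3) hN h4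
    rw [e1]
    exact h2
  · left
    simp only [not_exists, not_and, not_not] at hhit
    exact ⟨w, y₀, ρ, s, ⟨h.tl, hy, rfl⟩, f, hf, h2, hhit⟩

end Pool.Agent.TWNI
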