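import Pool.Agent.Lib.TWNI.Ch3
import Pool.Agent.Lib.TWN1.Oc

/-!
# TANK W, text N1' (exact arcs): OC, H0, TOP and the strict records

`InfI v C Φ w ρ σ`: infinitely many jets `lim Φ n (c)`, `c → w`, have a positive size.
* `ArcI.oc`, `ArcI.oc_two`, `ArcI.oc_one`: as in `TWN1.Oc`, for `Z = Zc Φ c`, `c` near `w`;
* `ArcI.hoc`: the same for all the Hasse derivatives;
* `ArcI.exists_recd`: a strict record;
* `ocH`: the structure `OcH`; `OcH.top`: TOP.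
-/

set_option autoImplicit false
set_option linter.unusedSectionVars false

open Polynomial Finset

namespace Pool.Agent.TWNI

open Pool.Agent.H15JM (RVal)
open Pool.Agent.TWM
open Pool.Agent.TWII (PG LP)
open Pool.Agent.TWLM (HSd Oi)
open Pool.Agent.TWN1

universe u

variable {k Ω : Type u} [Field k] [Field Ω] [Algebra k Ω] {v : RVal Ω}
  {C : IntermediateField k Ω} {Φ : ℕ → Ω → Ω} {w : Ω} {Z : PowerSeries Ω} {ρ σ ν : ℝ}
  {p : ℕ} {f : Polynomial Ω} {l₀ : ℕ}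

/-- The jet of index `n` has a positive size. -/
def VisI (v : RVal Ω) (C : IntermediateField k Ω) (Φ : ℕ → Ω → Ω) (w : Ω) (ρ σ : ℝ) (n : ℕ) :
    Prop :=
  ∃ s : ℝ, 0 < s ∧ ∃ c ∈ C, v.Ge (ρ - s) (w - c) ∧ ¬ v.Ge (ρ - n * σ - s) (Φ n c)

/-- Infinitely many jets have a positive size. -/
def InfI (v : RVal Ω) (C : IntermediateField k Ω) (Φ : ℕ → Ω → Ω) (w : Ω) (ρ σ : ℝ) : Prop :=
  ∀ n₀ : ℕ, ∃ n : ℕ, n₀ ≤ n ∧ VisI v C Φ w ρ σ n

/-- The contrary. -/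
theorem not_visI {n : ℕ} (h : ¬ VisI v C Φ w ρ σ n) {η : ℝ} (hη : 0 < η) {c : Ω} (hc : c ∈ C)
    (hwc : v.Ge (ρ - η) (w - c)) : v.Ge (ρ - n * σ - η) (Φ n c) := by
  by_contra h1
  exact h ⟨η, hη, c, hc, hwc, h1⟩

theorem zc_mem (hΦ : HSd C Φ) {c : Ω} (hc : c ∈ C) (n : ℕ) :
    PowerSeries.coeff n (Zc Φ c) ∈ C := by
  rw [coeff_Zc]
  split_ifs
  exacts [C.zero_mem, hΦ.mem n _ hc]

theorem tn_mem (hΦ : HSd C Φ) {c : Ω} (hc : c ∈ C) (n' : ℕ) {ψ : Ω} (hψ : ψ ∈ C) (n : ℕ) :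
    PowerSeries.coeff n (Tn Φ w (Zc Φ c) n' ψ) ∈ cadj v C w := by
  rw [Tn, map_sub, map_add, PowerSeries.coeff_C, coeff_ser, Sn, PowerSeries.coeff_mk]
  have h1 : Φ n ψ ∈ cadj v C w := le_cadj v C w (hΦ.mem n ψ hψ)
  refine sub_mem (add_mem ?_ ?_) h1
  · split_ifs
    exacts [self_mem_cadj v C w, zero_mem _]
  · split_ifs
    exacts [le_cadj v C w (zc_mem hΦ hc n), zero_mem _]

/-- Formula (2) for the standard choice. -/
theorem phS_two (hΦ : HSd C Φ) {f : Polynomial Ω} (hf : f ∈ PI C) {L : ℕ} (hL : f.natDegree ≤ L)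
    (Z : PowerSeries Ω) (n' N : ℕ) {ψ : Ω} (hψ : ψ ∈ C) :
    PhS Φ w Z n' N f = ∑ l ∈ range (L + 1), ∑ i ∈ antidiagonal N,
      Φ i.1 ((hasseDeriv l f).eval ψ) * PowerSeries.coeff i.2 (Tn Φ w Z n' ψ ^ l) :=
  coeff_EV_point hΦ hf hL hψ _ _

section P

variable [hp : Fact p.Prime] [CharP Ω p]

theorem ocPhi (hΦ : HSd C Φ)
    (hiso : ∀ n : ℕ, ∀ x ∈ C, ∀ b, v.Ge b x → v.Ge (b - n * σ) (Φ n x)) {x : Ω} (hx : x ∈ C)
    {b : ℝ} (hb : PC p v C b x) (m : ℕ) : PC p v C (b - m * σ) (Φ m x) := by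
  obtain ⟨g, hg, h1⟩ := hb
  have e : Φ m x = Φ m (g ^ p) + Φ m (x - g ^ p) := by
    rw [← hΦ.add m _ (pow_mem hg p) _ (sub_mem hx (pow_mem hg p)), add_sub_cancel]
  rw [e, phi_pow hΦ hg]
  refine PC.add ?_ (.of_ge (hiso m _ (sub_mem hx (pow_mem hg p)) _ h1))
  split_ifs
  · exact .of_pow (hΦ.mem _ _ hg)
  · exact PC.zero

theorem tn_pow (hΦ : HSd C Φ) {c : Ω} (hc : c ∈ C) (n' : ℕ) {ψ : Ω} (hψ : ψ ∈ C) {l : ℕ}
    (hl : p ∣ l) (j : ℕ) :
    ∃ d ∈ cadj v C w, PowerSeries.coeff j (Tn Φ w (Zc Φ c) n' ψ ^ l) = d ^ p := by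
  obtain ⟨l', rfl⟩ := hl
  rw [coeff_pow_mul]
  split_ifs
  · exact ⟨_, pow_coeff_mem _ (tn_mem hΦ hc n' hψ) l' _, rfl⟩
  · exact ⟨0, zero_mem _, by rw [zero_pow hp.out.ne_zero]⟩

/-- A product with a coefficient of a `p`-th power of `T`. -/
theorem pc_mul (hΦ : HSd C Φ) {c : Ω} (hc : c ∈ C) {n' : ℕ} {ψ : Ω} (hψ : ψ ∈ C) {l : ℕ}
    (hl : p ∣ l) {δ : ℝ}
    (hT : ∀ n : ℕ, v.Ge (ρ - δ - n * σ) (PowerSeries.coeff n (Tn Φ w (Zc Φ c) n' ψ))) {b : ℝ}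
    {x : Ω} (hx : PC p v C b x) (j : ℕ) :
    PC p v (cadj v C w) (b + (l * (ρ - δ) - j * σ))
      (x * PowerSeries.coeff j (Tn Φ w (Zc Φ c) n' ψ ^ l)) := by
  obtain ⟨d, hd, e⟩ := tn_pow (v := v) (w := w) hΦ hc n' hψ hl j
  have h1 := pow_ge hT l j
  rw [e] at h1 ⊢
  exact hx.up.mul_pow hd h1

end P

/-- The bounds for `w + S - Φ(ψ)`: all the coefficients, and those of index `≥ n'`, `n'` large. -/
theorem ArcI.T_ge (h : ArcI p v C Φ w ρ σ) {ψ : Ω} (hψ : ψ ∈ C) {δ : ℝ}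
    (hwψ : v.Ge (ρ - δ) (w - ψ)) (M : ℝ) :
    ∃ n₁ : ℕ, ∀ n' : ℕ, n₁ ≤ n' → ∀ c ∈ C, v.Ge (ρ - δ) (w - c) →
      (∀ n : ℕ, v.Ge (ρ - δ - n * σ) (PowerSeries.coeff n (Tn Φ w (Zc Φ c) n' ψ))) ∧
      ∀ n : ℕ, n' ≤ n →
        v.Ge (M - n * σ) (PowerSeries.coeff n (Tn Φ w (Zc Φ c) n' ψ)) := by
  obtain ⟨n₁, hn₁⟩ := h.oi ψ hψ (max M (ρ - δ))
  have hfar : ∀ n' n : ℕ, ∀ c : Ω, n₁ + 1 ≤ n' → n' ≤ n → v.Ge (max M (ρ - δ) - n * σ)
      (PowerSeries.coeff n (Tn Φ w (Zc Φ c) n' ψ)) := by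
    intro n' n c hn' hn
    have e : PowerSeries.coeff n (Tn Φ w (Zc Φ c) n' ψ) = -Φ n ψ := by
      rw [Tn, map_sub, map_add, PowerSeries.coeff_C, if_neg (by omega), coeff_ser, Sn,
        PowerSeries.coeff_mk, if_neg (by omega), zero_add, zero_sub]
    rw [e]
    exact (hn₁ n (by omega)).neg
  refine ⟨n₁ + 1, fun n' hn' c hc hwc => ⟨fun n => ?_, fun n hn => ?_⟩⟩
  · by_cases hn : n' ≤ n
    · exact (hfar n' n c hn' hn).mono (by linarith [le_max_right M (ρ - δ)])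
    · by_cases hn0 : n = 0
      · subst hn0
        have e : PowerSeries.coeff 0 (Tn Φ w (Zc Φ c) n' ψ) = w - ψ := by
          rw [Tn, map_sub, map_add, PowerSeries.coeff_C, if_pos rfl, coeff_ser, Sn,
            PowerSeries.coeff_mk, if_pos (by omega), coeff_Zc, if_pos rfl, add_zero,
            h.hsd.c0 ψ hψ]
        rw [e]
        exact hwψ.mono (by simp)
      · have e : PowerSeries.coeff n (Tn Φ w (Zc Φ c) n' ψ) = Φ n (c - ψ) := by
          rw [Tn, map_sub, map_add, PowerSeries.coeff_C, if_neg hn0, coeff_ser, Sn,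
            PowerSeries.coeff_mk, if_pos (by omega), zero_add, coeff_Zc, if_neg hn0,
            h.hsd.sub n hc hψ]
        rw [e]
        refine h.iso n _ (sub_mem hc hψ) _ ?_
        have e1 : c - ψ = (w - ψ) - (w - c) := by ring
        rw [e1]
        exact hwψ.sub hwc
  · exact (hfar n' n c hn' hn).mono (by linarith [le_max_left M (ρ - δ)])

section Q

variable [IsAlgClosed Ω] [hp : Fact p.Prime] [CharP Ω p]

/-- **OC**, the remainder form. `m₁` does not depend on `ψ`, `n'`, `c`. -/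
theorem ArcI.oc (h : ArcI p v C Φ w ρ σ) (hf : f ∈ PI C) (hl : p ∣ l₀)
    (hz : ∀ l, l₀ < l → ¬ p ∣ l → hasseDeriv l f = 0)
    (hn : ∀ l, l₀ < l → p ∣ l → PG p v (cadj v C w) (ν - l * ρ) ((hasseDeriv l f).eval w)) :
    ∃ (m₁ : ℕ) (δ : ℝ), m₁ ≠ 0 ∧ 0 < δ ∧ ∀ ψ ∈ C, v.Ge (ρ - δ) (w - ψ) →
      ∃ n₀ : ℕ, ∀ n' : ℕ, n₀ ≤ n' → ∀ c ∈ C, v.Ge (ρ - δ) (w - c) →
        (∀ m j : ℕ, m₁ ≤ m → PG p v (cadj v C w) (ν - (m + j : ℕ) * σ)
          (Φ m ((hasseDeriv l₀ f).eval ψ) *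
            PowerSeries.coeff j (Tn Φ w (Zc Φ c) n' ψ ^ l₀))) ∧
        (∀ m N : ℕ, m ≠ 0 → m < m₁ → l₀ * n' + m₁ ≤ N → PG p v (cadj v C w) (ν - N * σ)
          (Φ m ((hasseDeriv l₀ f).eval ψ) *
            PowerSeries.coeff (N - m) (Tn Φ w (Zc Φ c) n' ψ ^ l₀))) ∧
        ∀ N : ℕ, N ≠ 0 → l₀ * n' ≤ N → PG p v (cadj v C w) (ν - N * σ)
          (PhS Φ w (Zc Φ c) n' N f - ∑ i ∈ antidiagonal N with i.1 ≠ 0 ∧ i.1 < m₁,
            Φ i.1 ((hasseDeriv l₀ f).eval ψ) *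
              PowerSeries.coeff i.2 (Tn Φ w (Zc Φ c) n' ψ ^ l₀)) := by
  classical
  obtain ⟨μ, δ₀, hμ, hδ₀, hdeep⟩ := exists_deep h.tl hf hn
  set L := max f.natDegree l₀ with hL
  have hL1 : (0 : ℝ) < 4 * (L + 1) := by positivity
  set δ := min δ₀ (μ / (4 * (L + 1))) with hδdef
  have hδ : 0 < δ := lt_min hδ₀ (div_pos hμ hL1)
  have hδ1 : δ ≤ δ₀ := min_le_left _ _
  have hLδ : (L + 1) * δ ≤ μ / 4 := by
    have h1 : δ ≤ μ / (4 * (L + 1)) := min_le_right _ _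
    rw [le_div_iff₀ hL1] at h1
    linarith
  have hlδ : ∀ l : ℕ, l ≤ L → l * δ ≤ μ / 4 := fun l h1 => by
    have h2 : (l : ℝ) ≤ L + 1 := by exact_mod_cast h1.trans (Nat.le_succ L)
    exact (mul_le_mul_of_nonneg_right h2 hδ.le).trans hLδ
  have hdδ : f.natDegree * δ ≤ μ / 2 := by
    linarith [hlδ f.natDegree (le_max_left _ _)]
  obtain ⟨ψ₀, hψ₀, hwψ₀⟩ := h.tl.lim δ hδ
  have hj₀ := hdeep ψ₀ hψ₀ (hwψ₀.mono (by linarith))
  have hc : (hasseDeriv l₀ f).eval ψ₀ ∈ C := eval_mem (hasse_mem_PI hf l₀) hψ₀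
  obtain ⟨m₁, hm₁⟩ := h.oi _ hc (ν - l₀ * ρ + μ / 2)
  refine ⟨m₁ + 1, δ, by omega, hδ, fun ψ hψ hwψ => ?_⟩
  have hj := hdeep ψ hψ (hwψ.mono (by linarith))
  set y : ℕ → Ω := fun l => (hasseDeriv l f).eval ψ with hydef
  have hy : ∀ l, y l ∈ C := fun l => eval_mem (hasse_mem_PI hf l) hψ
  obtain ⟨b, hb⟩ := exists_bound v (range (L + 1)) y
  set M := |ν| + 1 + |b| + (L + 1) * |ρ - δ| with hM
  have hMl : ∀ l : ℕ, l ≤ L → ν < M - |b| + l * (ρ - δ) := fun l h1 => by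
    have h2 : (l : ℝ) ≤ L + 1 := by exact_mod_cast h1.trans (Nat.le_succ L)
    have h3 : (l : ℝ) * |ρ - δ| ≤ (L + 1) * |ρ - δ| := mul_le_mul_of_nonneg_right h2 (abs_nonneg _)
    have h4 : (l : ℝ) * (-|ρ - δ|) ≤ l * (ρ - δ) :=
      mul_le_mul_of_nonneg_left (neg_abs_le _) (Nat.cast_nonneg l)
    have h5 := le_abs_self ν
    linarith
  obtain ⟨n₁, hn₁⟩ := exists_over h.oi (range (L + 1)) y (fun l _ => hy l) M
  obtain ⟨n₂, hn₂⟩ := h.T_ge hψ hwψ M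
  refine ⟨max n₁ n₂, fun n' hn' c₀ hc₀ hwc₀ => ?_⟩
  obtain ⟨hT, hTM⟩ := hn₂ n' (by omega) c₀ hc₀ hwc₀
  -- the terms with a large first index
  have ha : ∀ m j : ℕ, m₁ ≤ m → PG p v (cadj v C w) (ν - (m + j : ℕ) * σ)
      (Φ m (y l₀) * PowerSeries.coeff j (Tn Φ w (Zc Φ c₀) n' ψ ^ l₀)) := by
    intro m j hm
    have h1 : v.Ge (ρ - δ) (ψ - ψ₀) := by
      have h2 := hwψ₀.sub hwψ
      rwa [sub_sub_sub_cancel_left] at h2
    have h2 := jet_diff hl hz hψ₀ hj₀ hδ.le hdδ le_rfl hψ h1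
    have h3 := ocPhi h.hsd h.iso (sub_mem (hy l₀) hc) h2 m
    rw [h.hsd.sub m (hy l₀) hc] at h3
    have h4 := h3.add (.of_ge (F := C) (p := p) (hm₁ m hm))
    rw [sub_add_cancel] at h4
    have h5 := pc_mul h.hsd hc₀ hψ hl hT h4 j
    refine h5.pg ?_
    have h6 := hlδ l₀ (le_max_right _ _)
    push_cast
    nlinarith
  -- the terms with a large second index
  have far : ∀ l m j : ℕ, l ≤ L → l ≠ 0 → l * n' ≤ j →
      Gt v (ν - (m + j : ℕ) * σ)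
        (Φ m (y l) * PowerSeries.coeff j (Tn Φ w (Zc Φ c₀) n' ψ ^ l)) := by
    intro l m j hlL hl0 hlj
    have h1 := h.iso m _ (hy l) _ (hb l (mem_range.2 (by omega)))
    have h2 := pow_ge_far hT hTM hl0 hlj
    refine Gt.of_ge (h1.mul h2) ?_
    obtain ⟨i, rfl⟩ : ∃ i, l = i + 1 := ⟨l - 1, by omega⟩
    have h3 := hMl i (by omega)
    have h4 := neg_abs_le b
    push_cast
    linarith
  refine ⟨fun m j hm => ha m j (by omega), fun m N hm hm' hN => ?_, fun N hN hlN => ?_⟩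
  · rcases Nat.eq_zero_or_pos l₀ with hl0 | hl0
    · have h1 : PowerSeries.coeff (N - m) (Tn Φ w (Zc Φ c₀) n' ψ ^ l₀) = 0 := by
        rw [hl0, pow_zero, PowerSeries.coeff_one, if_neg (by omega)]
      rw [h1, mul_zero]
      exact .of_gt Gt.zero
    · have h1 := far l₀ m (N - m) (le_max_right _ _) hl0.ne' (by omega)
      rw [Nat.add_sub_cancel' (by omega)] at h1
      exact .of_gt h1
  · have e0 := phS_two (w := w) h.hsd hf (L := L) (le_max_left _ _) (Zc Φ c₀) n' N hψ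
    change _ = ∑ l ∈ range (L + 1), ∑ i ∈ antidiagonal N,
      Φ i.1 (y l) * PowerSeries.coeff i.2 (Tn Φ w (Zc Φ c₀) n' ψ ^ l) at e0
    have hmem : l₀ ∈ range (L + 1) := mem_range.2 (Nat.lt_succ_of_le (le_max_right _ _))
    rw [e0, ← add_sum_erase _ _ hmem, ← sum_filter_add_sum_filter_not (antidiagonal N)
      (fun i => i.1 ≠ 0 ∧ i.1 < m₁ + 1), add_assoc, add_sub_cancel_left]
    refine PG.add (PG.sum _ _ fun i hi => ?_) (PG.sum _ _ fun l hl' => PG.sum _ _ fun i hi => ?_)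
    · obtain ⟨h1, h2⟩ := mem_filter.1 hi
      have h3 : i.1 + i.2 = N := by simpa using h1
      by_cases h4 : i.1 = 0
      · have h5 : i.2 = N := by omega
        rcases Nat.eq_zero_or_pos l₀ with hl0 | hl0
        · have h1 : PowerSeries.coeff i.2 (Tn Φ w (Zc Φ c₀) n' ψ ^ l₀) = 0 := by
            rw [hl0, pow_zero, PowerSeries.coeff_one, if_neg (by omega)]
          rw [h1, mul_zero]
          exact .of_gt Gt.zero
        · have h6 := far l₀ i.1 i.2 (le_max_right _ _) hl0.ne' (by omega)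
          rw [h3] at h6
          exact .of_gt h6
      · have h5 := ha i.1 i.2 (by
          by_contra h6
          exact h2 ⟨h4, by omega⟩)
        rwa [h3] at h5
    · obtain ⟨hne, hlr⟩ := mem_erase.1 hl'
      have hlL : l ≤ L := Nat.le_of_lt_succ (mem_range.1 hlr)
      have h3 : i.1 + i.2 = N := by simpa using hi
      rcases lt_or_gt_of_ne hne with hlt | hgt
      · have h6 : (l + 1) * n' ≤ l₀ * n' := Nat.mul_le_mul_right n' hlt
        rw [add_mul, one_mul] at h6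
        by_cases h4 : l ≠ 0 ∧ l * n' ≤ i.2
        · have h5 := far l i.1 i.2 hlL h4.1 h4.2
          rw [h3] at h5
          exact .of_gt h5
        · by_cases h7 : l = 0 ∧ i.2 ≠ 0
          · rw [h7.1, pow_zero, PowerSeries.coeff_one, if_neg h7.2, mul_zero]
            exact .of_gt Gt.zero
          · have h8 : n' ≤ i.1 := by
              by_cases h9 : l = 0
              · subst h9
                omega
              · have h10 : ¬ l * n' ≤ i.2 := fun h11 => h4 ⟨h9, h11⟩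
                omega
            have h9 := hn₁ i.1 (by omega) l hlr
            refine .of_gt (Gt.of_ge (h9.mul (pow_ge hT l i.2)) ?_)
            have h10 := hMl l hlL
            have h11 := abs_nonneg b
            rw [← h3]
            push_cast
            linarith
      · by_cases hpl : p ∣ l
        · have h4 := pc_mul h.hsd hc₀ hψ hpl hT (ocPhi h.hsd h.iso (hy l) (hj l hgt hpl) i.1) i.2
          refine h4.pg ?_
          have h5 := hlδ l hlL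
          rw [← h3]
          push_cast
          nlinarith
        · have h4 : y l = 0 := by rw [hydef]; simp only; rw [hz l hgt hpl, eval_zero]
          rw [h4, h.hsd.zero, zero_mul]
          exact .of_gt Gt.zero

/-- **OC (ii)**. -/
theorem ArcI.oc_two (h : ArcI p v C Φ w ρ σ) (hf : f ∈ PI C) (hl : p ∣ l₀)
    (hz : ∀ l, l₀ < l → ¬ p ∣ l → hasseDeriv l f = 0)
    (hn : ∀ l, l₀ < l → p ∣ l → PG p v (cadj v C w) (ν - l * ρ) ((hasseDeriv l f).eval w)) :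
    ∃ m₁ : ℕ, m₁ ≠ 0 ∧ ∃ δ : ℝ, 0 < δ ∧ ∃ n₀ : ℕ, ∀ n' : ℕ, n₀ ≤ n' → ∀ c ∈ C,
      v.Ge (ρ - δ) (w - c) → ∀ N : ℕ, l₀ * n' + m₁ ≤ N →
      PG p v (cadj v C w) (ν - N * σ) (PhS Φ w (Zc Φ c) n' N f) := by
  obtain ⟨m₁, δ, hm₁, hδ, h1⟩ := h.oc hf hl hz hn
  obtain ⟨ψ, hψ, hwψ⟩ := h.tl.lim δ hδ
  obtain ⟨n₀, h2⟩ := h1 ψ hψ hwψ
  refine ⟨m₁, hm₁, δ, hδ, n₀, fun n' hn' c hc hwc N hN => ?_⟩
  obtain ⟨-, h3, h4⟩ := h2 n' hn' c hc hwc
  have h5 := h4 N (by omega) (by omega)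
  refine pg_of_sub h5 (PG.sum _ _ fun i hi => ?_)
  obtain ⟨h7, h8, h9⟩ := mem_filter.1 hi
  have h10 : i.1 + i.2 = N := by simpa using h7
  have h11 := h3 i.1 N h8 h9 hN
  have e : N - i.1 = i.2 := by omega
  rwa [e] at h11

/-- The values of the jet of index `l₀` at the points near `w`: all its coefficients along the arc
are null, with one margin. -/
theorem ArcI.jet_null (h : ArcI p v C Φ w ρ σ) (hf : f ∈ PI C) (hl : p ∣ l₀)
    (hz : ∀ l, l₀ < l → ¬ p ∣ l → hasseDeriv l f = 0)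
    (hn : ∀ l, l₀ < l → p ∣ l → PG p v (cadj v C w) (ν - l * ρ) ((hasseDeriv l f).eval w))
    (hl₀ : LP p v (cadj v C w) (ν - l₀ * ρ) ((hasseDeriv l₀ f).eval w)) :
    ∃ μ δ : ℝ, 0 < μ ∧ 0 < δ ∧ ∀ ψ ∈ C, v.Ge (ρ - δ) (w - ψ) → ∀ m : ℕ, m ≠ 0 →
      PC p v C (ν - l₀ * ρ - m * σ + μ) (Φ m ((hasseDeriv l₀ f).eval ψ)) := by
  classical
  obtain ⟨μ, δ₀, hμ, hδ₀, hdeep⟩ := exists_deep h.tl hf hn
  have hL1 : (0 : ℝ) < 2 * (f.natDegree + 1) := by positivity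
  set δ := min δ₀ (μ / (2 * (f.natDegree + 1))) with hδdef
  have hδ : 0 < δ := lt_min hδ₀ (div_pos hμ hL1)
  have hδ1 : δ ≤ δ₀ := min_le_left _ _
  have hdδ : f.natDegree * δ ≤ μ / 2 := by
    have h1 : δ ≤ μ / (2 * (f.natDegree + 1)) := min_le_right _ _
    rw [le_div_iff₀ hL1] at h1
    linarith
  obtain ⟨ψ₀, hψ₀, hwψ₀⟩ := h.tl.lim δ hδ
  have hj₀ := hdeep ψ₀ hψ₀ (hwψ₀.mono (by linarith))
  have hc : (hasseDeriv l₀ f).eval ψ₀ ∈ C := eval_mem (hasse_mem_PI hf l₀) hψ₀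
  -- the value at `ψ₀` is critical
  have h1 := jet_diff hl hz hψ₀ hj₀ hδ.le hdδ (le_cadj v C w) (self_mem_cadj v C w) hwψ₀
  have h2 : LP p v (cadj v C w) (ν - l₀ * ρ) ((hasseDeriv l₀ f).eval ψ₀) := by
    have h3 : LP p v (cadj v C w) (ν - l₀ * ρ)
        ((hasseDeriv l₀ f).eval w - (hasseDeriv l₀ f).eval ψ₀) :=
      (h1.mono (by linarith)).lp
    have h4 := hl₀.add h3.neg
    have e : (hasseDeriv l₀ f).eval w +
        -((hasseDeriv l₀ f).eval w - (hasseDeriv l₀ f).eval ψ₀) = (hasseDeriv l₀ f).eval ψ₀ := by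
      ring
    rwa [e] at h4
  obtain ⟨μ', hμ', h3⟩ := h.crit _ _ hc (h2.down h.tl hc)
  refine ⟨min (μ / 2) μ', δ, lt_min (half_pos hμ) hμ', hδ, fun ψ hψ hwψ m hm => ?_⟩
  have h4 : v.Ge (ρ - δ) (ψ - ψ₀) := by
    have h5 := hwψ₀.sub hwψ
    rwa [sub_sub_sub_cancel_left] at h5
  have h5 := jet_diff hl hz hψ₀ hj₀ hδ.le hdδ le_rfl hψ h4
  have hy : (hasseDeriv l₀ f).eval ψ ∈ C := eval_mem (hasse_mem_PI hf l₀) hψ
  have h6 := ocPhi h.hsd h.iso (sub_mem hy hc) h5 m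
  rw [h.hsd.sub m hy hc] at h6
  have h7 := (h6.mono (c' := ν - l₀ * ρ - m * σ + min (μ / 2) μ')
    (by linarith [min_le_left (μ / 2) μ'])).add ((h3 m hm).mono
    (by linarith [min_le_right (μ / 2) μ']))
  rwa [sub_add_cancel] at h7

/-- **OC (i)**. -/
theorem ArcI.oc_one (h : ArcI p v C Φ w ρ σ) (hf : f ∈ PI C) (hl : p ∣ l₀)
    (hz : ∀ l, l₀ < l → ¬ p ∣ l → hasseDeriv l f = 0)
    (hn : ∀ l, l₀ < l → p ∣ l → PG p v (cadj v C w) (ν - l * ρ) ((hasseDeriv l f).eval w))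
    (hl₀ : LP p v (cadj v C w) (ν - l₀ * ρ) ((hasseDeriv l₀ f).eval w)) :
    ∃ δ : ℝ, 0 < δ ∧ ∃ n₀ : ℕ, ∀ n' : ℕ, n₀ ≤ n' → ∀ c ∈ C, v.Ge (ρ - δ) (w - c) →
      ∀ N : ℕ, N ≠ 0 → l₀ * n' ≤ N →
      PG p v (cadj v C w) (ν - N * σ) (PhS Φ w (Zc Φ c) n' N f) := by
  classical
  obtain ⟨m₁, δ₁, hm₁, hδ₁, h1⟩ := h.oc hf hl hz hn
  obtain ⟨μ, δ₂, hμ, hδ₂, h2⟩ := h.jet_null hf hl hz hn hl₀
  have hL1 : (0 : ℝ) < 4 * (l₀ + 1) := by positivity
  set δ := min (min δ₁ δ₂) (μ / (4 * (l₀ + 1))) with hδdef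
  have hδ : 0 < δ := lt_min (lt_min hδ₁ hδ₂) (div_pos hμ hL1)
  have hδ1 : δ ≤ δ₁ := (min_le_left _ _).trans (min_le_left _ _)
  have hδ2 : δ ≤ δ₂ := (min_le_left _ _).trans (min_le_right _ _)
  have hlδ : l₀ * δ ≤ μ / 4 := by
    have h4 : δ ≤ μ / (4 * (l₀ + 1)) := min_le_right _ _
    rw [le_div_iff₀ hL1] at h4
    linarith
  obtain ⟨ψ, hψ, hwψ⟩ := h.tl.lim δ hδ
  obtain ⟨n₀, h4⟩ := h1 ψ hψ (hwψ.mono (by linarith))
  obtain ⟨n₁, h5⟩ := h.T_ge hψ hwψ 0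
  refine ⟨δ, hδ, max n₀ n₁, fun n' hn' c hc hwc N hN hlN => ?_⟩
  obtain ⟨-, -, h7⟩ := h4 n' (by omega) c hc (hwc.mono (by linarith))
  have hT := (h5 n' (by omega) c hc hwc).1
  refine pg_of_sub (h7 N hN hlN) (PG.sum _ _ fun i hi => ?_)
  obtain ⟨h9, h10, h11⟩ := mem_filter.1 hi
  have h12 : i.1 + i.2 = N := by simpa using h9
  have h13 := h2 ψ hψ (hwψ.mono (by linarith)) i.1 h10
  refine (pc_mul h.hsd hc hψ hl hT h13 i.2).pg ?_
  rw [← h12]
  push_cast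
  nlinarith

/-- **OC** for the Hasse derivatives. -/
theorem ArcI.hoc (h : ArcI p v C Φ w ρ σ) (hf : f ∈ PI C) {L : ℕ} (hL : p ∣ L)
    (hL0 : L ≠ 0) (hX : ∀ l, 2 ≤ l → ¬ p ∣ l → hasseDeriv l f = 0)
    (hn : ∀ l : ℕ, L < l → p ∣ l →
      PG p v (cadj v C w) (ν - l * ρ) ((hasseDeriv l f).eval w)) :
    ∃ (m₁ : ℕ) (δ : ℝ), 0 < δ ∧ ∀ n' : ℕ, m₁ ≤ n' → ∀ c ∈ C, v.Ge (ρ - δ) (w - c) →
      ∀ i n : ℕ, n ≠ 0 → p ∣ i → L * n' + m₁ ≤ n + i * n' →
      PG p v (cadj v C w) (ν - i * ρ - n * σ) (PhS Φ w (Zc Φ c) n' n (hasseDeriv i f)) := by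
  classical
  have hL2 : 2 ≤ L := hp.out.two_le.trans (Nat.le_of_dvd (by omega) hL)
  have hcomp : ∀ l i : ℕ, hasseDeriv l (hasseDeriv i f) =
      Polynomial.C (((l + i).choose l : ℕ) : Ω) * hasseDeriv (l + i) f := by
    intro l i
    have h1 := LinearMap.congr_fun (hasseDeriv_comp (R := Ω) l i) f
    rw [LinearMap.comp_apply] at h1
    rw [h1, LinearMap.smul_apply, nsmul_eq_mul, ← C_eq_natCast]
  have hz : ∀ i l : ℕ, p ∣ i → L < l + i → ¬ p ∣ l → hasseDeriv l (hasseDeriv i f) = 0 := by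
    intro i l hi hl hpl
    rw [hcomp, hX (l + i) (by omega) (fun h1 => hpl ((Nat.dvd_add_left hi).1 h1)), mul_zero]
  have hg : ∀ i l : ℕ, p ∣ i → L < l + i → p ∣ l →
      PG p v (cadj v C w) (ν - i * ρ - l * ρ) ((hasseDeriv l (hasseDeriv i f)).eval w) := by
    intro i l hi hl hpl
    rw [hcomp, eval_mul, eval_C]
    refine PG.natCast_mul ((hn (l + i) (by omega) (dvd_add hpl hi)).mono (le_of_eq ?_)) _
    push_cast
    ring
  obtain ⟨δ, hδ, hδ1⟩ := exists_min_pos (range (max L f.natDegree + 1))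
    (fun i δ => ∀ᶠ m : ℕ in Filter.atTop, p ∣ i → ∀ n' : ℕ, m ≤ n' → ∀ c ∈ C,
      v.Ge (ρ - δ) (w - c) → ∀ n : ℕ, n ≠ 0 → L * n' + m ≤ n + i * n' →
      PG p v (cadj v C w) (ν - i * ρ - n * σ) (PhS Φ w (Zc Φ c) n' n (hasseDeriv i f)))
    (fun i a b hab h1 => h1.mono fun m h2 hpi n' hn' c hc hwc =>
      h2 hpi n' hn' c hc (hwc.mono (by linarith)))
    (fun i _ => by
      by_cases hi : p ∣ i
      swap
      · exact ⟨1, one_pos, Filter.Eventually.of_forall fun _ h1 => absurd h1 hi⟩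
      by_cases hiL : i ≤ L
      · obtain ⟨m₁, -, δ, hδ, n₀, h1⟩ := h.oc_two (ν := ν - i * ρ) (l₀ := L - i)
          (hasse_mem_PI hf i) (Nat.dvd_sub hL hi) (fun l hl hpl => hz i l hi (by omega) hpl)
          (fun l hl hpl => hg i l hi (by omega) hpl)
        refine ⟨δ, hδ, Filter.eventually_atTop.2 ⟨max m₁ n₀,
          fun m hm _ n' hn' c hc hwc n hn0 hle => ?_⟩⟩
        refine h1 n' (by omega) c hc hwc n ?_
        have h2 : L * n' = (L - i) * n' + i * n' := by rw [← add_mul, Nat.sub_add_cancel hiL]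
        omega
      · obtain ⟨δ, hδ, n₀, h1⟩ := h.oc_one (ν := ν - i * ρ) (l₀ := 0) (hasse_mem_PI hf i)
          (dvd_zero p) (fun l hl hpl => hz i l hi (by omega) hpl)
          (fun l hl hpl => hg i l hi (by omega) hpl)
          (LP.of_pg (hg i 0 hi (by omega) (dvd_zero p)))
        exact ⟨δ, hδ, Filter.eventually_atTop.2 ⟨n₀, fun m hm _ n' hn' c hc hwc n hn0 _ =>
          h1 n' (by omega) c hc hwc n hn0 (by omega)⟩⟩)
  obtain ⟨m, hm⟩ := Filter.eventually_atTop.1 ((Filter.eventually_all_finset _).2 hδ1)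
  refine ⟨m, δ, hδ, fun n' hn' c hc hwc i n hn0 hi hle => ?_⟩
  by_cases hiD : i ≤ max L f.natDegree
  · exact hm m le_rfl i (mem_range.2 (by omega)) hi n' hn' c hc hwc n hn0 hle
  · rw [hasseDeriv_eq_zero_of_lt_natDegree f i (by omega), PhS, Ph, EV_zero, map_zero]
    exact PG.of_gt Gt.zero

omit [IsAlgClosed Ω] hp [CharP Ω p] in
/-- The size of a visible jet. -/
theorem ArcI.size (h : ArcI p v C Φ w ρ σ) {n : ℕ} (hn : VisI v C Φ w ρ σ n) :
    ∃ s t : ℝ, 0 < t ∧ t < s ∧ ∀ c ∈ C, v.Ge (ρ - t) (w - c) →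
      Φ n c ≠ 0 ∧ v (Φ n c) = ρ - n * σ - s := by
  obtain ⟨t, ht, c₀, hc₀, h1, h2⟩ := hn
  have h2' : Φ n c₀ ≠ 0 ∧ v (Φ n c₀) < ρ - n * σ - t := by
    unfold RVal.Ge at h2
    push Not at h2
    exact h2
  obtain ⟨h3, h4⟩ := h2'
  refine ⟨ρ - n * σ - v (Φ n c₀), t, ht, by linarith, fun c hc hwc => ?_⟩
  have h5 : v.Ge (ρ - t) (c - c₀) := by
    have e : c - c₀ = (w - c₀) - (w - c) := by ring
    rw [e]
    exact h1.sub hwc
  have h6 := h.iso n _ (sub_mem hc hc₀) _ h5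
  have e : Φ n c = Φ n c₀ + Φ n (c - c₀) := by
    rw [h.hsd.sub n hc hc₀]
    ring
  have h8 : Φ n c ≠ 0 ∧ v (Φ n c) = v (Φ n c₀) := by
    by_cases h0 : Φ n (c - c₀) = 0
    · rw [e, h0, add_zero]
      exact ⟨h3, rfl⟩
    · rw [e]
      exact v.add_of_lt h3 h0 (by linarith [h6 h0])
  exact ⟨h8.1, by rw [h8.2]; ring⟩

omit [IsAlgClosed Ω] hp [CharP Ω p] in
/-- `limsup |u_n| ≤ 0`. -/
theorem ArcI.limU (h : ArcI p v C Φ w ρ σ) {η : ℝ} (hη : 0 < η) :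
    ∃ n₀ : ℕ, ∀ n : ℕ, n₀ ≤ n → ∀ c ∈ C, v.Ge (ρ - η) (w - c) →
      v.Ge (ρ - n * σ - η) (Φ n c) := by
  obtain ⟨c₁, hc₁, h1⟩ := h.tl.lim η hη
  obtain ⟨n₀, hn₀⟩ := h.oi c₁ hc₁ ρ
  refine ⟨n₀, fun n hn c hc hwc => ?_⟩
  have h5 : v.Ge (ρ - η) (c - c₁) := by
    have e : c - c₁ = (w - c₁) - (w - c) := by ring
    rw [e]
    exact h1.sub hwc
  have h6 := h.iso n _ (sub_mem hc hc₁) _ h5
  have e : Φ n c = Φ n c₁ + Φ n (c - c₁) := by
    rw [h.hsd.sub n hc hc₁]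
    ring
  rw [e]
  exact ((hn₀ n hn).mono (by linarith)).add (h6.mono (by linarith))

omit [IsAlgClosed Ω] hp [CharP Ω p] in
/-- Strict records. -/
theorem ArcI.exists_recd (h : ArcI p v C Φ w ρ σ) (hinf : InfI v C Φ w ρ σ) (η₁ : ℝ) (n₀ : ℕ)
    (hη : 0 < η₁) : ∃ (n' : ℕ) (g g' η₀ : ℝ), n₀ ≤ n' ∧ n' ≠ 0 ∧ 0 < g' ∧
    g' < g ∧ g < η₁ ∧ 0 < η₀ ∧ ∀ η : ℝ, 0 < η → η ≤ η₀ → ∀ c ∈ C, v.Ge (ρ - η) (w - c) →
      Φ n' c ≠ 0 ∧ v (Φ n' c) = ρ - n' * σ - g ∧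
      ∀ n : ℕ, n' < n → v.Ge (ρ - n * σ - max g' η) (Φ n c) := by
  classical
  -- the sizes
  have hS : ∀ n : ℕ, ∃ s t : ℝ, 0 < t ∧ (VisI v C Φ w ρ σ n → t < s ∧
      ∀ c ∈ C, v.Ge (ρ - t) (w - c) → Φ n c ≠ 0 ∧ v (Φ n c) = ρ - n * σ - s) ∧
      (¬ VisI v C Φ w ρ σ n → s = 0) := by
    intro n
    by_cases hn : VisI v C Φ w ρ σ n
    · obtain ⟨s, t, ht, hts, h1⟩ := h.size hn
      exact ⟨s, t, ht, fun _ => ⟨hts, h1⟩, fun h2 => absurd hn h2⟩
    · exact ⟨0, 1, one_pos, fun h2 => absurd h2 hn, fun _ => rfl⟩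
  choose S t ht hvis hnv using hS
  obtain ⟨n₁, hn₁⟩ := h.limU (half_pos hη)
  obtain ⟨n₂, hn₂, h2⟩ := hinf (max n₀ (max n₁ 1))
  have hS2 : 0 < S n₂ := (ht n₂).trans (hvis n₂ h2).1
  obtain ⟨n₃, hn₃⟩ := h.limU (half_pos hS2)
  obtain ⟨T, hT⟩ : ∃ T : Finset ℕ, T = Icc n₂ (max n₂ n₃) := ⟨_, rfl⟩
  have hmem : ∀ n, n ∈ T ↔ n₂ ≤ n ∧ n ≤ max n₂ n₃ := by
    intro n
    rw [hT, mem_Icc]
  have hTne : T.Nonempty := ⟨n₂, (hmem n₂).2 ⟨le_rfl, le_max_left _ _⟩⟩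
  obtain ⟨n', hn', hmax⟩ := T.exists_max_image (fun n => toLex (S n, n)) hTne
  obtain ⟨hn'2, hn'3⟩ := (hmem n').1 hn'
  have hle : ∀ n ∈ T, S n ≤ S n' := by
    intro n hn
    rcases (Prod.Lex.toLex_le_toLex).1 (hmax n hn) with h3 | ⟨h3, -⟩
    exacts [le_of_lt h3, le_of_eq h3]
  have hlt : ∀ n ∈ T, n' < n → S n < S n' := by
    intro n hn hnn
    rcases (Prod.Lex.toLex_le_toLex).1 (hmax n hn) with h3 | ⟨-, h3⟩
    · exact h3
    · exact absurd h3 (by simp only; omega)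
  have h5 : S n₂ ≤ S n' := hle n₂ ((hmem n₂).2 ⟨le_rfl, le_max_left _ _⟩)
  have hg0 : 0 < S n' := hS2.trans_le h5
  have hv' : VisI v C Φ w ρ σ n' := by
    by_contra h6
    rw [hnv n' h6] at hg0
    exact lt_irrefl _ hg0
  obtain ⟨-, hv1⟩ := hvis n' hv'
  have hn0 : n₀ ≤ n' := (le_max_left _ _).trans (hn₂.trans hn'2)
  have hn1 : n₁ ≤ n' := (le_max_left _ _).trans ((le_max_right _ _).trans (hn₂.trans hn'2))
  have hn2 : 1 ≤ n' := (le_max_right _ _).trans ((le_max_right _ _).trans (hn₂.trans hn'2))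
  have hgη : S n' < η₁ := by
    obtain ⟨c, hc, hwc⟩ := h.tl.lim (min (t n') (η₁ / 2)) (lt_min (ht n') (half_pos hη))
    have h6 := hn₁ n' hn1 c hc (hwc.mono (by linarith [min_le_right (t n') (η₁ / 2)]))
    obtain ⟨h7, h8⟩ := hv1 c hc (hwc.mono (by linarith [min_le_left (t n') (η₁ / 2)]))
    have h9 := h6 h7
    linarith
  -- the second size
  obtain ⟨g', hg'0, hg'g, hg'2, hg'⟩ : ∃ g' : ℝ, 0 < g' ∧ g' < S n' ∧ S n₂ / 2 ≤ g' ∧
      ∀ n ∈ T, n' < n → S n ≤ g' := by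
    by_cases hne : (T.filter fun n => n' < n).Nonempty
    · obtain ⟨m, hm, hm1⟩ := (T.filter fun n => n' < n).exists_max_image S hne
      obtain ⟨hm2, hm3⟩ := mem_filter.1 hm
      refine ⟨max (S m) (S n₂ / 2), lt_max_of_lt_right (half_pos hS2),
        max_lt (hlt m hm2 hm3) (by linarith), le_max_right _ _, fun n hn hnn => ?_⟩
      exact (hm1 n (mem_filter.2 ⟨hn, hnn⟩)).trans (le_max_left _ _)
    · refine ⟨S n₂ / 2, half_pos hS2, by linarith, le_rfl, fun n hn hnn => ?_⟩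
      exact absurd ⟨n, mem_filter.2 ⟨hn, hnn⟩⟩ hne
  -- the distance
  obtain ⟨t₀, ht₀, ht1⟩ := exists_min_pos T (fun n a => a ≤ t n)
    (fun n a b hab h1 => hab.trans h1) (fun n _ => ⟨t n, ht n, le_rfl⟩)
  refine ⟨n', S n', g', min t₀ (S n₂ / 2), hn0, by omega, hg'0, hg'g, hgη,
    lt_min ht₀ (half_pos hS2), fun η hη0 hη1 c hc hwc => ?_⟩
  have hη2 : η ≤ t₀ := hη1.trans (min_le_left _ _)
  have hη3 : η ≤ S n₂ / 2 := hη1.trans (min_le_right _ _)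
  obtain ⟨h7, h8⟩ := hv1 c hc (hwc.mono (by linarith [ht1 n' hn']))
  refine ⟨h7, h8, fun n hn => ?_⟩
  by_cases h9 : n ≤ max n₂ n₃
  · have hnT : n ∈ T := (hmem n).2 ⟨by omega, h9⟩
    by_cases h10 : VisI v C Φ w ρ σ n
    · obtain ⟨-, h11⟩ := hvis n h10
      obtain ⟨h12, h13⟩ := h11 c hc (hwc.mono (by linarith [ht1 n hnT]))
      intro _
      have h14 := hg' n hnT hn
      have h15 := le_max_left g' η
      rw [h13]
      linarith
    · exact (not_visI h10 hη0 hc hwc).mono (by linarith [le_max_right g' η])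
  · have h10 : n₃ ≤ n := by
      have := le_max_right n₂ n₃
      omega
    exact (hn₃ n h10 c hc (hwc.mono (by linarith))).mono (by linarith [le_max_left g' η])

/-- **H0**. -/
theorem ArcI.h0 (h : ArcI p v C Φ w ρ σ) (hinf : InfI v C Φ w ρ σ)
    (hf : f ∈ PI C) (hX : ∀ l, 2 ≤ l → ¬ p ∣ l → hasseDeriv l f = 0)
    (hν : LP p v (cadj v C w) ν (f.eval w)) {i : ℕ} (hi : i ≠ 0) (hpi : p ∣ i) :
    PG p v (cadj v C w) (ν - i * ρ) ((hasseDeriv i f).eval w) := by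
  classical
  by_contra hbad
  -- the last bad index
  set B := (range (f.natDegree + 1)).filter fun l => l ≠ 0 ∧ p ∣ l ∧
    ¬ PG p v (cadj v C w) (ν - l * ρ) ((hasseDeriv l f).eval w) with hB
  have hmemB : ∀ l, l ≠ 0 → p ∣ l →
      ¬ PG p v (cadj v C w) (ν - l * ρ) ((hasseDeriv l f).eval w) → l ∈ B := by
    intro l h1 h2 h3
    refine mem_filter.2 ⟨mem_range.2 ?_, h1, h2, h3⟩
    by_contra h4
    rw [hasseDeriv_eq_zero_of_lt_natDegree f l (by omega), eval_zero] at h3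
    exact h3 (.of_gt Gt.zero)
  have hBne : B.Nonempty := ⟨i, hmemB i hi hpi hbad⟩
  set q := B.max' hBne with hq
  obtain ⟨-, hq0, hpq, hqbad⟩ := mem_filter.1 (B.max'_mem hBne)
  have hmax : ∀ l ∈ B, l ≤ q := fun l hl => B.le_max' l hl
  have hp2 := hp.out.two_le
  have hq2 : 2 ≤ q := hp2.trans (Nat.le_of_dvd (Nat.pos_of_ne_zero hq0) hpq)
  have hjets := fun j => LP.hjet h.tl hf hν j
  obtain ⟨δ, hδ, n₀, hoc⟩ := h.oc_one hf hpq (fun l hl hpl => hX l (by omega) hpl)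
    (fun l hl hpl => by
      by_contra h1
      have h2 := hmax l (hmemB l (by omega) hpl h1)
      omega) (hjets q)
  obtain ⟨n', g, g', η₀, hn', hn0, hg'0, hg'g, -, hη₀, hrec⟩ := h.exists_recd hinf 1 n₀ one_pos
  have hg0 : 0 < g := hg'0.trans hg'g
  have hn'R : (0 : ℝ) < n' := by exact_mod_cast Nat.pos_of_ne_zero hn0
  -- the noise
  obtain ⟨ζ, hζ, hζ0, hζδ, hζg, hζn⟩ :
      ∃ ζ : ℝ, 0 < ζ ∧ ζ ≤ η₀ ∧ ζ ≤ δ ∧ ζ ≤ g ∧ n' * ζ ≤ g / 2 := by
    refine ⟨min (min η₀ δ) (min g (g / (2 * n'))), by positivity, ?_, ?_, ?_, ?_⟩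
    · exact (min_le_left _ _).trans (min_le_left _ _)
    · exact (min_le_left _ _).trans (min_le_right _ _)
    · exact (min_le_right _ _).trans (min_le_left _ _)
    · have h1 : min (min η₀ δ) (min g (g / (2 * n'))) ≤ g / (2 * n') :=
        (min_le_right _ _).trans (min_le_right _ _)
      calc (n' : ℝ) * _ ≤ n' * (g / (2 * n')) := mul_le_mul_of_nonneg_left h1 hn'R.le
        _ = g / 2 := by field_simp
  obtain ⟨c₀, hc₀, hwc⟩ := h.tl.lim ζ hζ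
  obtain ⟨hz0, hvz, hgt⟩ := hrec ζ hζ hζ0 c₀ hc₀ hwc
  obtain ⟨hJ, hZ0, hZv, hZg⟩ := rec_Z h hn0 hζ hg'g hζg hc₀ hwc hz0 hvz hgt
  obtain ⟨G, hG⟩ : ∃ G : ℝ, G = g - n' * ζ := ⟨_, rfl⟩
  have hG0 : 0 < G := by rw [hG]; linarith
  rw [← hG] at hZv hZg
  obtain ⟨τ, hτ⟩ : ∃ τ : ℝ, τ = σ + ζ := ⟨_, rfl⟩
  rw [← hτ] at hJ hZv hZg
  obtain ⟨Z, hZ⟩ : ∃ Z : PowerSeries Ω, Z = Zc Φ c₀ := ⟨_, rfl⟩
  have hY := fun j => hJ.Y_pow hZg j
  have hN : q * n' ≠ 0 := Nat.mul_ne_zero hq0 hn0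
  have h1 := hoc n' hn' c₀ hc₀ (hwc.mono (by linarith)) (q * n') hN le_rfl
  rw [← hZ] at h1 hJ hZ0 hZv hZg hY
  -- formula (1)
  rw [hJ.phS_one hf (L := max f.natDegree q) (le_max_left _ _) n' (q * n'),
    ← add_sum_erase _ _ (mem_range.2 (Nat.lt_succ_of_le (le_max_right f.natDegree q)))] at h1
  have hqR : (0 : ℝ) < q := by exact_mod_cast Nat.pos_of_ne_zero hq0
  obtain ⟨c, hc⟩ : ∃ c : ℝ, c = ν - q * G - (q * n' : ℕ) * τ := ⟨_, rfl⟩
  have hc' : c = ν - q * g - (q * n' : ℕ) * σ := by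
    rw [hc, hG, hτ]
    push_cast
    ring
  have hc1 : c ≤ ν - (q * n' : ℕ) * σ := by
    have : 0 ≤ (q : ℝ) * g := by positivity
    linarith
  have hc2 : c < ν - (q * n' : ℕ) * τ := by
    have : 0 < (q : ℝ) * G := by positivity
    linarith
  have h2 : PG p v (cadj v C w) c (∑ j ∈ (range (max f.natDegree q + 1)).erase q,
      ∑ i ∈ antidiagonal (q * n'), Ph Φ w Z i.1 (hasseDeriv j f) *
        PowerSeries.coeff i.2 ((-Yn Z n') ^ j)) := by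
    refine PG.sum _ _ fun j hj => ?_
    obtain ⟨hjq, -⟩ := mem_erase.1 hj
    obtain ⟨hY0, -, hYg, hYm⟩ := hY j
    rcases lt_or_gt_of_ne hjq with hlt | hgt
    · by_cases hpj : p ∣ j
      · rcases eq_or_ne j 0 with rfl | hj0
        · rw [sum_eq_single (q * n', 0)]
          · rw [pow_zero, PowerSeries.coeff_one, if_pos rfl, mul_one, hasseDeriv_zero']
            exact ((lp_ph hJ hf hν (q * n')).pc
              (c' := (c + (ν - (q * n' : ℕ) * τ)) / 2) (by linarith)).pg (by linarith)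
          · intro i hi hne
            have h3 : i.1 + i.2 = q * n' := by simpa using hi
            rw [pow_zero, PowerSeries.coeff_one, if_neg, mul_zero]
            intro h4
            refine hne (Prod.ext ?_ h4)
            change i.1 = q * n'
            omega
          · intro h3
            exact absurd (by simp) h3
        · refine PG.sum _ _ fun i hi => ?_
          have h3 : i.1 + i.2 = q * n' := by simpa using hi
          have h4 : LP p v (cadj v C w) (ν - j * ρ - i.1 * τ)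
              (Ph Φ w Z i.1 (hasseDeriv j f)) :=
            lp_ph hJ (hasse_mem_PI hf j) (hjets j) i.1
          obtain ⟨j', rfl⟩ := hpj
          have h5 : ∃ d ∈ cadj v C w, PowerSeries.coeff i.2 ((-Yn Z n') ^ (p * j')) = d ^ p := by
            rw [coeff_pow_mul]
            split_ifs
            · exact ⟨_, le_cadj v C w ((hJ.Y_pow hZg j').2.2.2 _), rfl⟩
            · exact ⟨0, zero_mem _, by rw [zero_pow hp.out.ne_zero]⟩
          obtain ⟨d, hd, h6⟩ := h5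
          have h7 := hYg i.2
          rw [h6] at h7 ⊢
          have h8 := h4.mul_pow hd h7
          refine PC.pg (h8.pc (c' := c + (q - (p * j' : ℕ)) * G / 2) ?_) ?_
          · rw [hc, ← h3]
            have h9 : ((p * j' : ℕ) : ℝ) < q := by exact_mod_cast hlt
            have h10 : 0 < (q - (p * j' : ℕ)) * G := mul_pos (by linarith) hG0
            push_cast at h10 ⊢
            nlinarith
          · have h9 : ((p * j' : ℕ) : ℝ) < q := by exact_mod_cast hlt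
            have h10 : 0 < (q - (p * j' : ℕ)) * G := mul_pos (by linarith) hG0
            linarith
      · by_cases hj1 : j = 1
        · subst hj1
          refine PG.sum _ _ fun i hi => ?_
          have h3 : i.1 + i.2 = q * n' := by simpa using hi
          have h4 := hJ.ph_ge i.1 (hasse_mem_PI hf 1) (lp_jet_one h.tl hf hν)
          refine .of_gt (Gt.of_ge (h4.mul (hYg i.2)) ?_)
          rw [hc, ← h3]
          have h9 : (2 : ℝ) ≤ q := by exact_mod_cast hq2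
          push_cast
          nlinarith
        · have hj2 : 2 ≤ j := by
            rcases j with _ | _ | j
            · exact absurd (dvd_zero p) hpj
            · exact absurd rfl hj1
            · omega
          refine PG.sum _ _ fun i hi => ?_
          rw [hX j hj2 hpj, ← zero_mul (1 : Polynomial Ω)]
          simp only [zero_mul]
          have h5 : Ph Φ w Z i.1 0 = 0 := by rw [Ph, EV_zero, map_zero]
          rw [h5, zero_mul]
          exact .of_gt Gt.zero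
    · refine PG.sum _ _ fun i hi => ?_
      have h3 : i.1 + i.2 = q * n' := by simpa using hi
      have h4 : (q + 1) * n' ≤ j * n' := Nat.mul_le_mul_right n' hgt
      rw [add_mul, one_mul] at h4
      rw [hY0 i.2 (by omega), mul_zero]
      exact .of_gt Gt.zero
  have h3 := (h1.mono hc1).sub h2
  rw [add_sub_cancel_right] at h3
  -- the top term
  obtain ⟨hY0, hYt, -, -⟩ := hY q
  rw [sum_eq_single (0, q * n')] at h3
  · simp only at h3
    rw [hJ.ph_zero (hasse_mem_PI hf q), hYt] at h3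
    obtain ⟨q', hq'⟩ := hpq
    change q = p * q' at hq'
    refine hqbad (PG.of_mul_pow (d := (-PowerSeries.coeff n' Z) ^ q') ?_ ?_ ?_)
    · exact pow_mem (neg_mem (le_cadj v C w (hJ.zmem n'))) q'
    · exact pow_ne_zero _ (neg_ne_zero.2 hZ0)
    · have e1 : ((-PowerSeries.coeff n' Z) ^ q') ^ p = (-PowerSeries.coeff n' Z) ^ q := by
        rw [← pow_mul, mul_comm, ← hq']
      have e2 : (p : ℝ) * v ((-PowerSeries.coeff n' Z) ^ q') = q * (ρ - n' * τ - G) := by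
        rw [v.map_pow (neg_ne_zero.2 hZ0), v.map_neg _ hZ0, hZv, hq']
        push_cast
        ring
      rw [e1, e2]
      refine h3.mono (le_of_eq ?_)
      rw [hc]
      push_cast
      ring
  · intro i hi hne
    have h4 : i.1 + i.2 = q * n' := by simpa using hi
    rw [hY0 i.2, mul_zero]
    by_contra h5
    refine hne (Prod.ext ?_ ?_)
    · change i.1 = 0
      omega
    · change i.2 = q * n'
      omega
  · intro h4
    exact absurd (by simp) h4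

/-- **The outputs of section 1 for an exact arc.** -/
theorem ocH (h : ArcI p v C Φ w ρ σ) (hinf : InfI v C Φ w ρ σ) : OcH p v C Φ w ρ σ where
  one := fun ν l₀ f hf hl hz hn hl₀ => by
    obtain ⟨δ, hδ, n₀, h1⟩ := h.oc_one hf hl hz hn hl₀
    exact ⟨δ, hδ, n₀, fun n' hn' η _ hηδ c hc hwc => h1 n' hn' c hc (hwc.mono (by linarith))⟩
  h0 := fun ν f hf hX hν i hi hpi => h.h0 hinf hf hX hν hi hpi
  recd := fun η₁ n₀ hη => h.exists_recd hinf η₁ n₀ hη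

/-- **TOP**: `f(w) = e₂ w + c + null`. For `e₂ = 0` this is TOP of the text. -/
theorem OcH.top (h : OcH p v C Φ w ρ σ) (hw : TL v C w ρ)
    (hf : f ∈ PI C) (hX : ∀ l, 2 ≤ l → ¬ p ∣ l → hasseDeriv l f = 0)
    (hν : LP p v (cadj v C w) ν (f.eval w)) {e₂ : Ω} (he : hasseDeriv 1 f = Polynomial.C e₂) :
    ∃ c ∈ C, PG p v (cadj v C w) ν (f.eval w - e₂ * w - c) := by
  obtain ⟨μ, δ₀, hμ, hδ₀, hdeep⟩ := exists_deep (l₀ := 0) hw hf
    (fun l hl hpl => h.h0 ν f hf hX hν l (by omega) hpl)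
  have hL1 : (0 : ℝ) < 4 * (f.natDegree + 1) := by positivity
  set δ := min δ₀ (μ / (4 * (f.natDegree + 1))) with hδdef
  have hδ : 0 < δ := lt_min hδ₀ (div_pos hμ hL1)
  have hδ1 : δ ≤ δ₀ := min_le_left _ _
  have hLδ : (f.natDegree + 1) * δ ≤ μ / 4 := by
    have h1 : δ ≤ μ / (4 * (f.natDegree + 1)) := min_le_right _ _
    rw [le_div_iff₀ hL1] at h1
    linarith
  obtain ⟨ψ, hψ, hwψ⟩ := hw.lim δ hδ
  have hj := hdeep ψ hψ (hwψ.mono (by linarith))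
  have he2 : e₂ ∈ C := by
    have h1 := hasse_mem_PI hf 1 0
    rwa [he, coeff_C_zero] at h1
  -- the polynomial `f - e₂ X` satisfies the hypotheses of `jet_diff`
  set f' := f - Polynomial.C e₂ * X with hf'
  have hjet : ∀ l, l ≠ 0 → l ≠ 1 → hasseDeriv l f' = hasseDeriv l f := by
    intro l h0 h1
    have h2 : hasseDeriv l (Polynomial.C e₂ * X) = 0 := by
      rw [← monomial_zero_left, ← monomial_one_one_eq_X, monomial_mul_monomial,
        hasseDeriv_monomial, Nat.choose_eq_zero_of_lt (by omega), Nat.cast_zero, zero_mul,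
        monomial_zero_right]
    rw [hf', map_sub, h2, sub_zero]
  have hjet1 : hasseDeriv 1 f' = 0 := by
    rw [hf', map_sub, he, hasseDeriv_one, derivative_C_mul, derivative_X, mul_one, sub_self]
  have hdeg : (f'.natDegree : ℝ) * δ ≤ μ / 2 := by
    have h1 : f'.natDegree ≤ f.natDegree + 1 := by
      refine (natDegree_sub_le _ _).trans (max_le (by omega) ?_)
      exact (natDegree_C_mul_le _ _).trans (natDegree_X_le.trans (by omega))
    have h2 : (f'.natDegree : ℝ) ≤ f.natDegree + 1 := by exact_mod_cast h1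
    linarith [mul_le_mul_of_nonneg_right h2 hδ.le]
  have h1 := jet_diff (p := p) (l₀ := 0) (f := f') (ν := ν) (dvd_zero p) (fun l h0 h1 => by
    rcases eq_or_ne l 1 with rfl | h2
    · exact hjet1
    · rw [hjet l (by omega) h2]
      exact hX l (by omega) h1) hψ (fun l h0 h1 => by
    have h2 : l ≠ 1 := by
      rintro rfl
      exact hp.out.one_lt.not_ge (Nat.le_of_dvd one_pos h1)
    rw [hjet l (by omega) h2]
    exact hj l h0 h1) hδ.le hdeg (le_cadj v C w) (self_mem_cadj v C w) hwψ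
  rw [hasseDeriv_zero'] at h1
  refine ⟨f'.eval ψ, ?_, ?_⟩
  · exact eval_mem (sub_mem hf (mul_mem (C_mem_PI he2) X_mem_PI)) hψ
  · have h2 : f'.eval w = f.eval w - e₂ * w := by
      rw [hf', eval_sub, eval_mul, eval_C, eval_X]
    rw [h2] at h1
    refine h1.pg ?_
    rw [Nat.cast_zero]
    linarith

end Q

end Pool.Agent.TWNI
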