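import Pool.Agent.Lib.TWNI.RtI

/-!
# TANK W, text N1', (G3'): the base data, the relation along the arc, attained coefficients

* `Ok`: the good approximants; `Bse`: the base data `θ₀`, `κ` near `D^[Q J] (fth θ₀)`;
* `Bse.star`: `Φ (Q m) κ + A N * (Φ m c) ^ Q` is a limit of `p`-th powers;
* `Att m`: the `Φ m` of the coefficients of index `J` converge, up to the radius, in `K`;
* `Bse.att_large`, `Bse.exists_u`.
-/

set_option autoImplicit false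
set_option linter.unusedSectionVars false

open Polynomial Finset

namespace Pool.Agent.TWNI

open Pool.Agent.H15JM (RVal)
open Pool.Agent.TWM
open Pool.Agent.TWII (PG)
open Pool.Agent.TWLM (HSd Oi)
open Pool.Agent.TWN1

universe u

variable {k Ω : Type u} [Field k] [Field Ω] [Algebra k Ω] {v : RVal Ω}
  {K : IntermediateField k Ω} {Φ : ℕ → Ω → Ω} {w y κ : Ω} {Z : PowerSeries Ω} {ρ σ : ℝ}
  {p : ℕ} [hp : Fact p.Prime] [CharP Ω p] [IsAlgClosed Ω]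
  {e : Ω} {A : ℕ → Ω} {N J L m m₁ n' : ℕ} {B R θ θ₀ : Polynomial Ω}
  {s ν μ μ₂ δ₀ g g₁ η e₀ ε t : ℝ}

/-- The good approximants. -/
structure Ok (p : ℕ) (v : RVal Ω) (K : IntermediateField k Ω) (w y : Ω) (s ν : ℝ) (e : Ω)
    (A : ℕ → Ω) (N : ℕ) (B : Polynomial Ω) (J : ℕ) (R : Polynomial Ω) (ε : ℝ)
    (θ : Polynomial Ω) : Prop where
  mem : θ ∈ PI K
  co : ∀ i, J < i → θ.coeff i = R.coeff i
  cls : e ≠ 0 → ∀ l, ¬ p ∣ l → hasseDeriv l θ = 0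
  near : v.Ge (s - ε) (y - θ.eval w)
  lp : TWII.LP p v (cadj v K w) (ν - ε) ((fth p e A N B θ).eval w)

/-- The base data. -/
structure Bse (p : ℕ) (v : RVal Ω) (K : IntermediateField k Ω) (Φ : ℕ → Ω → Ω) (w y : Ω)
    (ρ σ s ν : ℝ) (e : Ω) (A : ℕ → Ω) (N : ℕ) (B : Polynomial Ω) (J : ℕ) (R θ₀ : Polynomial Ω)
    (e₀ μ μ₂ δ₀ : ℝ) (κ : Ω) : Prop where
  arc : ArcI p v K Φ w ρ σ
  nrm : Nrm p v K w y ρ s ν e A N B J R
  top : Top p v K w ρ ν e A N B J R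
  mar : Mar p v K Φ σ s ν e A N μ
  J0 : J ≠ 0
  ok : Ok p v K w y s ν e A N B J R e₀ θ₀
  e₀0 : 0 < e₀
  e₀μ : p ^ N * e₀ ≤ μ / 4
  μ₂0 : 0 < μ₂
  δ₀0 : 0 < δ₀
  κK : κ ∈ K
  κn : ∀ x ∈ cadj v K w, v.Ge (ρ - δ₀) (w - x) →
    PC p v (cadj v K w) (ν - (p ^ N * J : ℕ) * ρ + μ₂)
      ((hasseDeriv (p ^ N * J) (fth p e A N B θ₀)).eval x - κ)

/-- The `Φ m` of the coefficients of index `J` converge, up to the radius, to an element of `K`. -/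
def Att (p : ℕ) (v : RVal Ω) (K : IntermediateField k Ω) (Φ : ℕ → Ω → Ω) (w y : Ω)
    (ρ σ s ν : ℝ) (e : Ω) (A : ℕ → Ω) (N : ℕ) (B : Polynomial Ω) (J : ℕ) (R θ₀ : Polynomial Ω)
    (m : ℕ) : Prop :=
  ∃ d ∈ K, ∃ ε₁ : ℝ, 0 < ε₁ ∧ ∀ ε : ℝ, 0 < ε → ε ≤ ε₁ → ∀ θ : Polynomial Ω,
    Ok p v K w y s ν e A N B J R ε θ →
      v.Ge (s - J * ρ - m * σ - ε) (Φ m ((θ - θ₀).coeff J) - d)

omit hp [CharP Ω p] [IsAlgClosed Ω] in
theorem Nrm.exists_ok (h : Nrm p v K w y ρ s ν e A N B J R) (hε : 0 < ε) :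
    ∃ θ : Polynomial Ω, Ok p v K w y s ν e A N B J R ε θ := by
  obtain ⟨θ, hθ, h1, h2, h3, h4⟩ := h.fam ε hε
  exact ⟨θ, hθ, h1, h2, h3, h4⟩

namespace Bse

variable (b : Bse p v K Φ w y ρ σ s ν e A N B J R θ₀ e₀ μ μ₂ δ₀ κ)
include b

theorem Q0 : (0 : ℝ) < (p : ℝ) ^ N := by
  have : (0 : ℝ) < p := by exact_mod_cast hp.out.pos
  positivity

theorem pL : p ∣ p ^ N * J := (dvd_pow_self p (by have := b.nrm.N1; omega)).mul_right J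

theorem L0 : 0 < p ^ N * J := Nat.mul_pos (Nat.pow_pos hp.out.pos) (Nat.pos_of_ne_zero b.J0)

theorem fm (hθ : Ok p v K w y s ν e A N B J R ε θ) : fth p e A N B θ ∈ PI K :=
  fth_mem b.nrm.toDt b.nrm.BC hθ.mem

theorem hJd (hθ : Ok p v K w y s ν e A N B J R ε θ) : (θ - θ₀).natDegree ≤ J :=
  rt_coset fun i hi => (hθ.co i hi).trans (b.ok.co i hi).symm

theorem hΔ (hθ : Ok p v K w y s ν e A N B J R ε θ) : θ - θ₀ ∈ PI K := sub_mem hθ.mem b.ok.mem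

theorem hΔv (hθ : Ok p v K w y s ν e A N B J R ε θ) (hε : ε ≤ e₀) :
    v.Ge (s - e₀) ((θ - θ₀).eval w) := by
  have e1 : (θ - θ₀).eval w = (y - θ₀.eval w) - (y - θ.eval w) := by
    rw [eval_sub]
    ring
  rw [e1]
  exact b.ok.near.sub (hθ.near.mono (by linarith))

theorem cK (hθ : Ok p v K w y s ν e A N B J R ε θ) : (θ - θ₀).coeff J ∈ K := b.hΔ hθ J

theorem cv (hθ : Ok p v K w y s ν e A N B J R ε θ) (hε : ε ≤ e₀) :
    v.Ge (s - e₀ - J * ρ) ((θ - θ₀).coeff J) := by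
  have h2 := TWLM.poly_norm b.arc.tl (b.hΔ hθ) J (b.hΔv hθ hε)
  rwa [rt_hasse_coeff (b.hJd hθ), eval_C] at h2

/-- `D^[Q J] (fth θ)` is near `κ + A N * c ^ Q`. -/
theorem xd (hθ : Ok p v K w y s ν e A N B J R ε θ) :
    PC p v (cadj v K w) (ν - (p ^ N * J : ℕ) * ρ + μ₂)
      ((hasseDeriv (p ^ N * J) (fth p e A N B θ)).eval w -
        (κ + A N * (θ - θ₀).coeff J ^ p ^ N)) := by
  have h1 := b.κn w (self_mem_cadj v K w) (by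
    rw [sub_self]
    exact RVal.Ge.zero)
  rw [rt_fth_top b.nrm.N1 (b.hJd hθ) b.J0, eval_add, eval_C]
  have e1 : ∀ a c d : Ω, a + c - (d + c) = a - d := fun a c d => by ring
  rwa [e1]

theorem xK (hθ : Ok p v K w y s ν e A N B J R ε θ) :
    κ + A N * (θ - θ₀).coeff J ^ p ^ N ∈ K :=
  K.add_mem b.κK (K.mul_mem (b.nrm.AC N (mem_Icc.2 ⟨b.nrm.N1, le_rfl⟩)) (pow_mem (b.cK hθ) _))

theorem xl (hθ : Ok p v K w y s ν e A N B J R ε θ) (hε0 : 0 ≤ ε) :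
    TWII.LP p v K (ν - (p ^ N * J : ℕ) * ρ - ε) (κ + A N * (θ - θ₀).coeff J ^ p ^ N) := by
  refine (TWII.LP.down b.arc.tl (b.xK hθ) ?_)
  have h1 := hθ.lp.hjet b.arc.tl (b.fm hθ) (p ^ N * J)
  have h2 := (lp_mono h1 (c' := ν - (p ^ N * J : ℕ) * ρ - ε) (by linarith)).sub
    (lp_mono (b.xd hθ).lp (by linarith [b.μ₂0]))
  rwa [sub_sub_cancel] at h2

/-- **The relation along the arc**. -/
theorem star (hθ : Ok p v K w y s ν e A N B J R ε θ) (hε0 : 0 ≤ ε) (hε : ε ≤ e₀) (m : ℕ) :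
    TWII.LP p v K (ν - (p ^ N * J : ℕ) * ρ - (p ^ N * m : ℕ) * σ - ε)
      (Φ (p ^ N * m) κ + A N * Φ m ((θ - θ₀).coeff J) ^ p ^ N) := by
  have hAK := b.nrm.AC N (mem_Icc.2 ⟨b.nrm.N1, le_rfl⟩)
  have h1 := lp_phi b.arc.hsd b.arc.iso (b.xK hθ) (b.xl hθ hε0) (p ^ N * m)
  rw [b.arc.hsd.add _ _ b.κK _ (K.mul_mem hAK (pow_mem (b.cK hθ) _))] at h1
  have h2 := phi_mulq b.arc.hsd b.arc.iso hAK (b.cK hθ) (b.cv hθ hε) b.nrm.N1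
    (b₁ := ν - p ^ N * s + μ) (fun m hm => (b.mar.Am N (mem_Icc.2 ⟨b.nrm.N1, le_rfl⟩) m hm).mono
      (by linarith)) m
  have h3 := (lp_mono h1 (c' := ν - (p ^ N * J : ℕ) * ρ - (p ^ N * m : ℕ) * σ - ε)
    (by linarith)).sub (lp_mono h2.lp (by
      have h4 := b.e₀μ
      have h5 := b.mar.pos
      push_cast
      nlinarith))
  have e1 : Φ (p ^ N * m) κ + Φ (p ^ N * m) (A N * (θ - θ₀).coeff J ^ p ^ N) -
      (Φ (p ^ N * m) (A N * (θ - θ₀).coeff J ^ p ^ N) -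
        A N * Φ m ((θ - θ₀).coeff J) ^ p ^ N) =
      Φ (p ^ N * m) κ + A N * Φ m ((θ - θ₀).coeff J) ^ p ^ N := by ring
  rwa [e1] at h3

/-- The coefficients of large index. -/
theorem att_large : ∃ M : ℕ, ∀ m : ℕ, M ≤ m → Att p v K Φ w y ρ σ s ν e A N B J R θ₀ m := by
  obtain ⟨M, hM⟩ := b.arc.oi κ b.κK (ν - (p ^ N * J : ℕ) * ρ)
  refine ⟨M, fun m hm => ⟨0, K.zero_mem, e₀, b.e₀0, fun ε hε hεe θ hθ => ?_⟩⟩
  rw [sub_zero]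
  have hQ0 := b.Q0
  have h1 := hM (p ^ N * m) (hm.trans (Nat.le_mul_of_pos_left m (Nat.pow_pos hp.out.pos)))
  have h2 := (TWII.LP.up (w := w) (b.star hθ hε.le hεe m)).sub
    (lp_mono (lp_of_ge h1) (c' := ν - (p ^ N * J : ℕ) * ρ - (p ^ N * m : ℕ) * σ - ε)
      (by linarith))
  rw [add_sub_cancel_left] at h2
  have h3 := rt_dom (b := s - J * ρ - m * σ - ε / p ^ N) b.nrm.N1 b.nrm.top
    (le_cadj v K w (b.arc.hsd.mem m _ (b.cK hθ))) (lp_mono h2 (le_of_eq (by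
      push_cast
      field_simp
      ring)))
  refine h3.mono ?_
  have h4 : ε / (p : ℝ) ^ N ≤ ε :=
    div_le_self hε.le (one_le_pow₀ (by exact_mod_cast hp.out.one_lt.le))
  linarith

/-- The value of `Φ (Q m) κ + A N * d ^ Q`. -/
theorem att_lp {d : Ω} {ε₁ : ℝ} (hε₁ : 0 < ε₁) (hd : d ∈ K)
    (h : ∀ ε : ℝ, 0 < ε → ε ≤ ε₁ → ∀ θ : Polynomial Ω, Ok p v K w y s ν e A N B J R ε θ →
      v.Ge (s - J * ρ - m * σ - ε) (Φ m ((θ - θ₀).coeff J) - d)) :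
    TWII.LP p v (cadj v K w) (ν - p ^ N * s + p ^ N * (s - J * ρ - m * σ))
      (Φ (p ^ N * m) κ + A N * d ^ p ^ N) := by
  have hQ0 := b.Q0
  have hQ1 : (1 : ℝ) ≤ (p : ℝ) ^ N := one_le_pow₀ (by exact_mod_cast hp.out.one_lt.le)
  refine lp_of_forall fun ε hε => ?_
  obtain ⟨ε', hε'0, hε'1, hε'2, hε'3⟩ : ∃ ε' : ℝ, 0 < ε' ∧ ε' ≤ ε₁ ∧ ε' ≤ e₀ ∧
      p ^ N * ε' ≤ ε := by
    refine ⟨min (min ε₁ e₀) (ε / p ^ N), lt_min (lt_min hε₁ b.e₀0) (by positivity),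
      (min_le_left _ _).trans (min_le_left _ _), (min_le_left _ _).trans (min_le_right _ _), ?_⟩
    have h1 : min (min ε₁ e₀) (ε / p ^ N) ≤ ε / p ^ N := min_le_right _ _
    rw [le_div_iff₀ hQ0] at h1
    linarith
  obtain ⟨θ, hθ⟩ := Nrm.exists_ok b.nrm hε'0
  have h1 := TWII.LP.up (w := w) (b.star hθ hε'0.le hε'2 m)
  have h2 := lp_mul_powq (b.nrm.Alp N (mem_Icc.2 ⟨b.nrm.N1, le_rfl⟩))
    (le_cadj v K w (K.sub_mem (b.arc.hsd.mem m _ (b.cK hθ)) hd)) b.nrm.N1 (h ε' hε'0 hε'1 θ hθ)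
  have h3 := (lp_mono h1 (c' := ν - p ^ N * s + p ^ N * (s - J * ρ - m * σ) - ε) (by
    push_cast
    nlinarith)).sub (lp_mono h2 (by nlinarith))
  rw [sub_pow_char_pow] at h3
  have e1 : Φ (p ^ N * m) κ + A N * Φ m ((θ - θ₀).coeff J) ^ p ^ N -
      A N * (Φ m ((θ - θ₀).coeff J) ^ p ^ N - d ^ p ^ N) =
      Φ (p ^ N * m) κ + A N * d ^ p ^ N := by ring
  rwa [e1] at h3

/-- The adjusted values: `A N` is independent of the `Φ (Q j) κ + A N * u j ^ Q`. -/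
theorem exists_u (S : Finset ℕ) (hS : ∀ j ∈ S, Att p v K Φ w y ρ σ s ν e A N B J R θ₀ j) :
    ∃ u : ℕ → Ω, (∀ j, u j ∈ K) ∧ ∃ μI : ℝ, 0 < μI ∧
      ∀ x ∈ cadj v K w, ∀ t : ℕ → Ω, (∀ j, t j ∈ cadj v K w) → ∀ c : ℝ,
        (∀ j ∈ S, v.Ge (c - (s - J * ρ - j * σ) - μI) (t j)) →
        TWII.LP p v (cadj v K w) (ν - p ^ N * s + p ^ N * c)
          (A N * x ^ p ^ N + ∑ j ∈ S, (Φ (p ^ N * j) κ + A N * u j ^ p ^ N) * t j ^ p ^ N) →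
        v.Ge c x := by
  classical
  have h1 : ∀ j : ℕ, ∃ d : Ω, d ∈ K ∧ (j ∈ S → TWII.LP p v (cadj v K w)
      (ν - p ^ N * s + p ^ N * (s - J * ρ - j * σ)) (Φ (p ^ N * j) κ + A N * d ^ p ^ N)) := by
    intro j
    by_cases hj : j ∈ S
    · obtain ⟨d, hd, ε₁, hε₁, h2⟩ := hS j hj
      exact ⟨d, hd, fun _ => b.att_lp hε₁ hd h2⟩
    · exact ⟨0, K.zero_mem, fun h => absurd h hj⟩
  choose d hd hdl using h1
  obtain ⟨δ, hδ, -, μI, hμI, h2⟩ := ind_adj (K := K) b.arc.tl.imm b.nrm.N1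
    (b.nrm.Alp N (mem_Icc.2 ⟨b.nrm.N1, le_rfl⟩)) b.nrm.top S
    (fun j => Φ (p ^ N * j) κ + A N * d j ^ p ^ N) (fun j => s - J * ρ - j * σ) hdl
  refine ⟨fun j => d j + δ j, fun j => K.add_mem (hd j) (hδ j), μI, hμI,
    fun x hx t ht c hc hl => h2 x hx t ht c hc ?_⟩
  have e1 : ∑ j ∈ S, (Φ (p ^ N * j) κ + A N * d j ^ p ^ N + A N * δ j ^ p ^ N) * t j ^ p ^ N =
      ∑ j ∈ S, (Φ (p ^ N * j) κ + A N * (d j + δ j) ^ p ^ N) * t j ^ p ^ N := by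
    refine sum_congr rfl fun j _ => ?_
    rw [add_pow_char_pow]
    ring
  rwa [e1]

end Bse

end Pool.Agent.TWNI
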