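import Pool.Agent.Lib.TWNI.RtJ

/-!
# TANK W, text N1', (G3'): the estimate of `Φ^S_(J n' + m) (θ - θ₀)`

* `corrI`: the correction, independent of `θ`;
* `Bse.phS_f0`: `Φ^S_(Q (J n' + m)) (fth θ₀)`, up to a negligible error;
* `Bse.key2`: the estimate; `lin2`: the leading term of formula (1).
-/

set_option autoImplicit false
set_option linter.unusedSectionVars false

open Polynomial Finset

namespace Pool.Agent.TWNI

open Pool.Agent.H15JM (RVal)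
open Pool.Agent.TWM
open Pool.Agent.TWII (PG)
open Pool.Agent.TWLM (HSd Oi)
open Pool.Agent.TWN1

universe u

variable {k Ω : Type u} [Field k] [Field Ω] [Algebra k Ω] {v : RVal Ω}
  {K : IntermediateField k Ω} {Φ : ℕ → Ω → Ω} {w y κ ψ : Ω} {Z : PowerSeries Ω} {ρ σ : ℝ}
  {p : ℕ} [hp : Fact p.Prime] [CharP Ω p]
  {e : Ω} {A : ℕ → Ω} {N J L m m₁ m₂ n' : ℕ} {B R θ θ₀ Δ : Polynomial Ω}
  {s ν μ μ₂ μI δ₀ δ g g₁ g₂ η e₀ ε t β M : ℝ} {u : ℕ → Ω} {S : Finset ℕ}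

/-- The correction term. -/
noncomputable def corrI (S : Finset ℕ) (u : ℕ → Ω) (Φ : ℕ → Ω → Ω) (w : Ω) (Z : PowerSeries Ω)
    (n' : ℕ) (ψ : Ω) (J n : ℕ) : Ω :=
  ∑ j ∈ S, u j * PowerSeries.coeff (n - j) (Tn Φ w Z n' ψ ^ J)

section tn

variable (h : SetJ v K Φ w Z ρ σ)
include h

theorem tn_eq (hψ : ψ ∈ K) :
    Tn Φ w Z n' ψ = EV Φ (X - C ψ) (PowerSeries.C w + Sn Z n') := by
  rw [EV_sub h.hsd (X_mem_PI) (C_mem_PI hψ), EV_X h.hsd, EV_C h.hsd hψ]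
  rfl

theorem rk_tn_mem (hψ : ψ ∈ K) (n : ℕ) :
    PowerSeries.coeff n (Tn Φ w Z n' ψ) ∈ cadj v K w := by
  rw [tn_eq h hψ]
  exact h.phS_mem (sub_mem (X_mem_PI) (C_mem_PI hψ)) n' n

theorem rk_tn_pow (hψ : ψ ∈ K) (J n : ℕ) :
    PowerSeries.coeff n (Tn Φ w Z n' ψ ^ J) = PhS Φ w Z n' n ((X - C ψ) ^ J) := by
  rw [PhS, Ph, EV_pow h.hsd (sub_mem (X_mem_PI) (C_mem_PI hψ)), tn_eq h hψ]

theorem phS_natCast {f : Polynomial Ω} (hf : f ∈ PI K) (m n : ℕ) :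
    PhS Φ w Z n' n (C (m : Ω) * f) = m * PhS Φ w Z n' n f := by
  induction m with
  | zero => rw [Nat.cast_zero, C_0, zero_mul, zero_mul, rt_phS_zero]
  | succ m ih =>
    have e1 : (C ((m + 1 : ℕ) : Ω) * f : Polynomial Ω) = C (m : Ω) * f + f := by
      rw [Nat.cast_succ, C_add, C_1]
      ring
    rw [e1, PhS, ph_add h.hsd (mul_mem (C_mem_PI (natCast_mem K m)) hf) hf]
    rw [PhS] at ih
    rw [ih, Nat.cast_succ, add_mul, one_mul]
    rfl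

/-- Multiplication by the coefficients of a power of `T`. -/
theorem mul_tn (hψ : ψ ∈ K) {σ₁ : ℝ}
    (hT : ∀ n : ℕ, v.Ge (ρ - δ - n * σ₁) (PowerSeries.coeff n (Tn Φ w Z n' ψ)))
    (hL : p ∣ L) {x : Ω} (hx : PC p v (cadj v K w) t x) (j : ℕ) :
    PC p v (cadj v K w) (t + (L * (ρ - δ) - j * σ₁))
      (x * PowerSeries.coeff j (Tn Φ w Z n' ψ ^ L)) := by
  have h1 := pow_ge hT L j
  obtain ⟨L', rfl⟩ := hL
  rw [coeff_pow_mul] at h1 ⊢
  split_ifs at h1 ⊢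
  · exact hx.mul_pow (pow_coeff_mem _ (rk_tn_mem h hψ) _ _) h1
  · rw [mul_zero]
    exact PC.of_ge RVal.Ge.zero

omit hp [CharP Ω p] in
/-- The correction is a polynomial in `w`. -/
theorem corrI_poly [IsAlgClosed Ω] (hψ : ψ ∈ K) (hu : ∀ j, u j ∈ K) (n : ℕ) :
    ∃ P ∈ PI K, P.eval w = corrI S u Φ w Z n' ψ J n ∧ ∀ i, (hasseDeriv i P).eval w =
      ∑ j ∈ S, u j * (((J.choose i : ℕ) : Ω) *
        PowerSeries.coeff (n - j) (Tn Φ w Z n' ψ ^ (J - i))) := by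
  have hX : (X - C ψ : Polynomial Ω) ∈ PI K := sub_mem (X_mem_PI) (C_mem_PI hψ)
  choose P hP hPd hPj using fun n => h.phS_poly (pow_mem hX J) n' n
  have h1 : ∀ i, (hasseDeriv i (∑ j ∈ S, C (u j) * P (n - j))).eval w =
      ∑ j ∈ S, u j * (((J.choose i : ℕ) : Ω) *
        PowerSeries.coeff (n - j) (Tn Φ w Z n' ψ ^ (J - i))) := by
    intro i
    rw [map_sum, eval_finsetSum]
    refine sum_congr rfl fun j _ => ?_
    rw [← smul_eq_C_mul, map_smul, eval_smul, smul_eq_mul, hPj, rt_hasse_lin, rk_tn_pow h hψ,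
      phS_natCast h (pow_mem hX _)]
  refine ⟨_, sum_mem fun j _ => mul_mem (C_mem_PI (hu j)) (hP (n - j)), ?_, h1⟩
  have h2 := h1 0
  rw [hasseDeriv_zero'] at h2
  rw [h2, corrI]
  exact sum_congr rfl fun x _ => by rw [Nat.choose_zero_right, Nat.cast_one, one_mul, Nat.sub_zero]

end tn

/-- The leading term of formula (1), index `J n' + m`. -/
theorem lin2 [IsAlgClosed Ω] (h : Wd v K Φ w Z ρ σ η g g₁ n')
    (hiso : ∀ n : ℕ, ∀ x ∈ K, ∀ b, v.Ge b x → v.Ge (b - n * σ) (Φ n x)) (hΔ : Δ ∈ PI K)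
    (hJd : Δ.natDegree ≤ J) {b : ℝ} (hb : v.Ge b (Δ.eval w)) (hg₁ : g₁ ≤ g₂)
    (hg₂ : ((J * n' + m : ℕ) : ℝ) * η ≤ g₂) :
    v.Ge (b - (J * n' + m : ℕ) * σ - (J - 1) * g - g₂) (PhS Φ w Z n' (J * n' + m) Δ -
      (-PowerSeries.coeff n' Z) ^ J * Φ m (Δ.coeff J)) := by
  classical
  have hW := h.set
  have hη0 := h.η0
  obtain ⟨n, hn⟩ : ∃ n, n = J * n' + m := ⟨_, rfl⟩
  rw [← hn] at hg₂ ⊢
  obtain ⟨y1, y2, y3, y4, -⟩ := h.y_pow J
  have hcJ : v.Ge (b - J * ρ) (Δ.coeff J) := by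
    have h2 := TWLM.poly_norm hW.tl hΔ J hb
    rwa [rt_hasse_coeff hJd, eval_C] at h2
  have e0 : ∀ i : ℕ, Ph Φ w Z i (hasseDeriv J Δ) = Φ i (Δ.coeff J) := fun i => by
    rw [rt_hasse_coeff hJd, ph_C hW.hsd (hΔ J)]
  have e1 : ∑ i ∈ antidiagonal n, Ph Φ w Z i.1 (hasseDeriv J Δ) *
      PowerSeries.coeff i.2 ((-Yn Z n') ^ J) = (-PowerSeries.coeff n' Z) ^ J * Φ m (Δ.coeff J) +
      ∑ i ∈ (antidiagonal n).erase (m, J * n'), Ph Φ w Z i.1 (hasseDeriv J Δ) *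
        PowerSeries.coeff i.2 ((-Yn Z n') ^ J) := by
    rw [← add_sum_erase _ _ (show (m, J * n') ∈ antidiagonal n by simp [hn, add_comm])]
    rw [y2, e0, mul_comm]
  rw [hW.phS_one hΔ hJd, sum_range_succ, e1]
  have e2 : ∀ a b c : Ω, a + (b + c) - b = a + c := fun a b c => by ring
  rw [e2]
  refine RVal.Ge.add (RVal.Ge.sum _ _ fun j hj => RVal.Ge.sum _ _ fun i hi => ?_)
    (RVal.Ge.sum _ _ fun i hi => ?_)
  · have hjJ : j + 1 ≤ J := mem_range.1 hj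
    have hjJ' : (j : ℝ) ≤ J - 1 := by
      have : ((j + 1 : ℕ) : ℝ) ≤ J := by exact_mod_cast hjJ
      push_cast at this
      linarith
    have h4 : i.1 + i.2 = n := by simpa using hi
    have h4' : (n : ℝ) = i.1 + i.2 := by rw [← h4]; push_cast; ring
    refine ((hW.ph_ge i.1 (hasse_mem_PI hΔ j) (TWLM.poly_norm hW.tl hΔ j hb)).mul
      ((h.y_pow j).2.2.1 i.2)).mono ?_
    have h5 : (i.1 : ℝ) * η ≤ g₂ := by
      have h6 : (i.1 : ℝ) ≤ n := by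
        have : i.1 ≤ n := by omega
        exact_mod_cast this
      exact (mul_le_mul_of_nonneg_right h6 hη0).trans hg₂
    have h6 : (j : ℝ) * g ≤ (J - 1) * g := mul_le_mul_of_nonneg_right hjJ' h.g0.le
    rw [h4']
    nlinarith
  · obtain ⟨h2, h3⟩ := mem_erase.1 hi
    have h4 : i.1 + i.2 = n := by simpa using h3
    have h4' : (n : ℝ) = i.1 + i.2 := by rw [← h4]; push_cast; ring
    rw [e0]
    rcases lt_trichotomy i.2 (J * n') with h5 | h5 | h5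
    · rw [y1 _ h5, mul_zero]
      exact RVal.Ge.zero
    · exact absurd (Prod.ext (by simp only; omega) h5) h2
    · refine ((hiso i.1 _ (hΔ J) _ hcJ).mul (y4 i.2 h5)).mono ?_
      rw [h4']
      nlinarith

namespace Bse

variable [IsAlgClosed Ω] (b : Bse p v K Φ w y ρ σ s ν e A N B J R θ₀ e₀ μ μ₂ δ₀ κ)
include b

/-- `Φ^S_(Q (J n' + m)) (fth θ₀)`, up to a negligible error. -/
theorem phS_f0 (hZ : SetJ v K Φ w Z ρ (σ + η)) (hψ : ψ ∈ K) (hδ₀ : δ ≤ δ₀)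
    (hwψ : v.Ge (ρ - δ) (w - ψ)) (hδ : (p ^ N * J : ℕ) * δ < μ₂)
    (hT1 : ∀ n : ℕ, v.Ge (ρ - δ - n * σ) (PowerSeries.coeff n (Tn Φ w Z n' ψ)))
    (hT2 : ∀ n : ℕ, n' ≤ n → v.Ge (M - n * σ) (PowerSeries.coeff n (Tn Φ w Z n' ψ)))
    (hβ : v.Ge β ((hasseDeriv (p ^ N * J) (fth p e A N B θ₀)).eval ψ))
    (hM : ν < M + ((p ^ N * J : ℕ) - 1) * (ρ - δ) + β) (hm₁ : m₁ ≤ n')
    (hoc : PG p v (cadj v K w) (ν - (p ^ N * (J * n' + m) : ℕ) * σ)
      (PhS Φ w Z n' (p ^ N * (J * n' + m)) (fth p e A N B θ₀) -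
        ∑ i ∈ antidiagonal (p ^ N * (J * n' + m)) with i.1 ≠ 0 ∧ i.1 < m₁,
          Φ i.1 ((hasseDeriv (p ^ N * J) (fth p e A N B θ₀)).eval ψ) *
            PowerSeries.coeff i.2 (Tn Φ w Z n' ψ ^ (p ^ N * J))))
    (hS : S = (range m₁).filter fun j => m < j ∧ p ^ N * j < m₁) :
    PG p v (cadj v K w) (ν - (p ^ N * (J * n' + m) : ℕ) * σ)
      (PhS Φ w Z n' (p ^ N * (J * n' + m)) (fth p e A N B θ₀) -
        ∑ j ∈ S, Φ (p ^ N * j) κ *
          PowerSeries.coeff (J * n' + m - j) (Tn Φ w Z n' ψ ^ J) ^ p ^ N) := by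
  classical
  have hQ0 : 0 < p ^ N := Nat.pow_pos hp.out.pos
  have hpQ : p ∣ p ^ N := dvd_pow_self p (by have := b.nrm.N1; omega)
  obtain ⟨L, hL⟩ : ∃ L, L = p ^ N * J := ⟨_, rfl⟩
  obtain ⟨n, hn⟩ : ∃ n, n = J * n' + m := ⟨_, rfl⟩
  have hnL : p ^ N * n = L * n' + p ^ N * m := by rw [hn, hL]; ring
  have hn'n : n' ≤ n := by
    have : 1 * n' ≤ J * n' := Nat.mul_le_mul_right n' (Nat.one_le_iff_ne_zero.2 b.J0)
    omega
  have hpL := b.pL
  have hL0 := b.L0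
  have hκn : PC p v K (ν - L * ρ + μ₂)
      ((hasseDeriv L (fth p e A N B θ₀)).eval ψ - κ) := by
    have h1 := b.κn ψ (le_cadj v K w hψ) (hwψ.mono (by linarith))
    rw [← hL] at h1
    exact PC.down b.arc.tl (K.sub_mem (eval_mem (hasse_mem_PI (b.fm b.ok) L) hψ) b.κK) h1
  have hκψ : (hasseDeriv L (fth p e A N B θ₀)).eval ψ ∈ K :=
    eval_mem (hasse_mem_PI (b.fm b.ok) L) hψ
  rw [← hL] at hoc hβ hM hδ hpL hL0
  rw [← hn] at hoc ⊢
  obtain ⟨x, hx⟩ : ∃ x, x = (hasseDeriv L (fth p e A N B θ₀)).eval ψ := ⟨_, rfl⟩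
  rw [← hx] at hoc hκn hκψ hβ
  -- powers
  have eT : Tn Φ w Z n' ψ ^ L = (Tn Φ w Z n' ψ ^ J) ^ p ^ N := by rw [hL, mul_comm, pow_mul]
  have e1 : ∑ j ∈ S, Φ (p ^ N * j) κ * PowerSeries.coeff (n - j) (Tn Φ w Z n' ψ ^ J) ^ p ^ N =
      ∑ i ∈ antidiagonal (p ^ N * n) with i.1 ≠ 0 ∧ i.1 < m₁,
        (if p ^ N ∣ i.1 ∧ p ^ N * m < i.1 then
          Φ i.1 κ * PowerSeries.coeff i.2 (Tn Φ w Z n' ψ ^ L) else 0) := by
    refine sum_of_injOn (fun j => (p ^ N * j, p ^ N * n - p ^ N * j)) ?_ ?_ ?_ ?_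
    · intro a _ c _ hac
      exact Nat.eq_of_mul_eq_mul_left hQ0 (congrArg Prod.fst hac)
    · intro j hj
      rw [mem_coe, hS, mem_filter] at hj
      rw [mem_coe, mem_filter, HasAntidiagonal.mem_antidiagonal]
      have hjQ : p ^ N * j ≤ p ^ N * n :=
        Nat.mul_le_mul_left _ ((mem_range.1 hj.1).le.trans (hm₁.trans hn'n))
      refine ⟨by simp only; omega, ?_, hj.2.2⟩
      exact Nat.mul_ne_zero hQ0.ne' (by omega)
    · intro i hi hi'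
      obtain ⟨h1, h2, h3⟩ := mem_filter.1 hi
      have h4 : i.1 + i.2 = p ^ N * n := by simpa using h1
      rw [if_neg]
      rintro ⟨⟨j, hj⟩, hmj⟩
      apply hi'
      refine ⟨j, ?_, ?_⟩
      · rw [mem_coe, hS, mem_filter, mem_range]
        have h5 : m < j := by
          rw [hj] at hmj
          exact lt_of_mul_lt_mul_left hmj (Nat.zero_le _)
        have h6 : j ≤ p ^ N * j := Nat.le_mul_of_pos_left j hQ0
        exact ⟨by omega, h5, by omega⟩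
      · exact Prod.ext hj.symm (by simp only; omega)
    · intro j hj
      rw [hS, mem_filter] at hj
      have h5 : p ^ N * m < p ^ N * j := Nat.mul_lt_mul_of_pos_left hj.2.1 hQ0
      rw [if_pos ⟨dvd_mul_right _ _, h5⟩, eT, ← Nat.mul_sub, TWLM.coeff_ps_pow_pow]
  rw [e1]
  have e2 : ∀ a c d : Ω, a - d = (a - c) + (c - d) := fun a c d => by ring
  rw [e2 _ (∑ i ∈ antidiagonal (p ^ N * n) with i.1 ≠ 0 ∧ i.1 < m₁,
          Φ i.1 x * PowerSeries.coeff i.2 (Tn Φ w Z n' ψ ^ L))]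
  refine hoc.add ?_
  rw [← sum_sub_distrib]
  refine PG.sum _ _ fun i hi => ?_
  obtain ⟨h1, h2, h3⟩ := mem_filter.1 hi
  have h4 : i.1 + i.2 = p ^ N * n := by simpa using h1
  have h4' : ((p ^ N * n : ℕ) : ℝ) = i.1 + i.2 := by rw [← h4]; push_cast; ring
  by_cases hd : p ^ N ∣ i.1
  swap
  · have hd2 : ¬ p ^ N ∣ i.2 := fun h5 =>
      hd ((Nat.dvd_add_left h5).1 (h4 ▸ dvd_mul_right (p ^ N) n))
    rw [if_neg (fun h5 => hd h5.1), eT, TWLM.coeff_ps_pow_zero p _ _ _ hd2, mul_zero, sub_zero]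
    exact PG.of_gt Gt.zero
  by_cases hlt : p ^ N * m < i.1
  · rw [if_pos ⟨hd, hlt⟩, ← sub_mul, ← b.arc.hsd.sub i.1 hκψ b.κK]
    have h5 := pc_phi b.arc.hsd b.arc.iso (K.sub_mem hκψ b.κK) hκn i.1
    refine (mul_tn hZ hψ hT1 hpL h5.up i.2).pg ?_
    rw [h4']
    linarith
  · rw [if_neg (fun h5 => hlt h5.2), sub_zero]
    have h6 : L * n' ≤ i.2 := by omega
    have h7 := pow_ge_far hT1 hT2 (l := L) (by omega) h6
    refine PG.of_gt (Gt.of_ge ((b.arc.iso i.1 _ hκψ _ hβ).mul h7) ?_)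
    rw [h4']
    linarith

/-- **The estimate** of `Φ^S_(J n' + m) (θ - θ₀)`. -/
theorem key2 (hθ : Ok p v K w y s ν e A N B J R ε θ) (hε : 0 < ε) (hεe : ε ≤ e₀)
    (h : Wd v K Φ w Z ρ σ η g g₁ n') (hψ : ψ ∈ K)
    (hT1 : ∀ n : ℕ, v.Ge (ρ - δ - n * σ) (PowerSeries.coeff n (Tn Φ w Z n' ψ)))
    (hf0 : PG p v (cadj v K w) (ν - (p ^ N * (J * n' + m) : ℕ) * σ)
      (PhS Φ w Z n' (p ^ N * (J * n' + m)) (fth p e A N B θ₀) -
        ∑ j ∈ S, Φ (p ^ N * j) κ *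
          PowerSeries.coeff (J * n' + m - j) (Tn Φ w Z n' ψ ^ J) ^ p ^ N))
    (hμ : p ^ N * (e₀ + J * (g - n' * η)) < μ)
    (hhi : ∀ l : ℕ, p ^ N * J < l → p ∣ l → TWII.LP p v (cadj v K w) (ν - l * ρ + l * g)
      ((hasseDeriv l (fth p e A N B R)).eval w))
    (hoc : ∀ i n : ℕ, n ≠ 0 → p ^ N * J * n' + m₂ ≤ p ^ N * n + p ^ N * i * n' →
      PG p v (cadj v K w) (ν - (p ^ N * i : ℕ) * ρ - (p ^ N * n : ℕ) * (σ + η))
        (PhS Φ w Z n' (p ^ N * n) (hasseDeriv (p ^ N * i) (fth p e A N B θ₀))))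
    (hm₂ : m₂ ≤ n') (hm : p ^ N * m < n')
    (hη : ((p ^ N * (J * n' + m) : ℕ) : ℝ) * η ≤ g) (hmη : m * η ≤ g - g₁)
    (hmμ : (p ^ N * m : ℕ) * η ≤ μ₂) (hu : ∀ j, u j ∈ K) (hJδ : J * δ ≤ μI)
    (hSn : ∀ j ∈ S, j ≤ J * n' + m)
    (hI : ∀ x ∈ cadj v K w, ∀ t : ℕ → Ω, (∀ j, t j ∈ cadj v K w) → ∀ c : ℝ,
        (∀ j ∈ S, v.Ge (c - (s - J * ρ - j * σ) - μI) (t j)) →
        TWII.LP p v (cadj v K w) (ν - p ^ N * s + p ^ N * c)
          (A N * x ^ p ^ N + ∑ j ∈ S, (Φ (p ^ N * j) κ + A N * u j ^ p ^ N) * t j ^ p ^ N) →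
        v.Ge c x) :
    v.Ge (s - (J * n' + m : ℕ) * σ - J * g - ε / p ^ N)
      (PhS Φ w Z n' (J * n' + m) (θ - θ₀) - corrI S u Φ w Z n' ψ J (J * n' + m)) := by
  classical
  have hW := h.set
  have hD := b.nrm.toDt
  have hη0 := h.η0
  have hg0 := h.g0
  have hN1 := hD.N1
  have hp0 := hp.out.pos
  have hp2 := hp.out.two_le
  have hQ0 : 0 < p ^ N := Nat.pow_pos hp0
  have hQR := b.Q0
  have hp0R : (0 : ℝ) < p := by exact_mod_cast hp0
  have hQ2 : 2 ≤ p ^ N := hp2.trans (Nat.le_self_pow (by omega) p)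
  have hL0 := b.L0
  have hpL := b.pL
  have hM' : Mar p v K Φ (σ + η) s ν e A N μ := mar_mono b.mar (by linarith)
  obtain ⟨n, hn⟩ : ∃ n, n = J * n' + m := ⟨_, rfl⟩
  have hn'n : n' ≤ n := by
    have : 1 * n' ≤ J * n' := Nat.mul_le_mul_right n' (Nat.one_le_iff_ne_zero.2 b.J0)
    omega
  have hn0 : n ≠ 0 := by have := h.n0; omega
  rw [← hn] at hf0 hη ⊢
  have hnη : (n : ℝ) * η ≤ p ^ N * n * η := by
    have h1 : (1 : ℝ) ≤ p ^ N := one_le_pow₀ (by exact_mod_cast hp.out.one_lt.le)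
    have h2 : 0 ≤ (n : ℝ) * η := by positivity
    nlinarith
  have hn'η : (n' : ℝ) * η ≤ n * η := mul_le_mul_of_nonneg_right (by exact_mod_cast hn'n) hη0
  have hη' := hη
  push_cast at hη'
  have hg' : 0 ≤ g - n' * η := by linarith
  have hn'0 : 0 ≤ (n' : ℝ) * η := by positivity
  have hJR : (1 : ℝ) ≤ J := by exact_mod_cast Nat.one_le_iff_ne_zero.2 b.J0
  have hΔ := b.hΔ hθ
  have hhi' : ∀ l : ℕ, p ^ N * J < l → p ∣ l →
      TWII.LP p v (cadj v K w) (ν - l * ρ + l * (g - n' * η))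
        ((hasseDeriv l (fth p e A N B θ)).eval w) := by
    intro l hl hpl
    rw [rt_fth_hi (rt_coset hθ.co) hl]
    refine lp_mono (hhi l hl hpl) ?_
    have : (l : ℝ) * (g - n' * η) ≤ l * g := mul_le_mul_of_nonneg_left (by linarith) (by positivity)
    linarith
  -- the chain
  have hG1 : ∀ q : ℕ, q ≠ 0 → v.Ge (s - (p ^ q * n : ℕ) * σ - p ^ N * n * η / p ^ (N - q) -
      (J * g + ε / p ^ N)) (PhS Φ w Z n' (p ^ q * n) (θ - θ₀)) ∨ N < q := by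
    intro q hq
    by_cases hqN : N < q
    · exact Or.inr hqN
    left
    have h1 := g1 (i := 0) (n := p ^ q * n) (L := p ^ N * J) (m₁ := m₂) (eps := ε) hW hD hM'
      hθ.mem b.ok.mem b.nrm.BC (b.hJd hθ) b.e₀0.le (b.hΔv hθ hεe) hg' h.zg' hμ
      (b.nrm.clsX hθ.cls) (b.nrm.cls1 hθ.cls) hθ.lp hε (by omega) hhi' hoc
      (Nat.mul_ne_zero (Nat.pow_pos hp0).ne' hn0) (by
        rw [mul_zero, zero_mul, add_zero]
        have a1 : 2 ≤ p ^ q := hp2.trans (Nat.le_self_pow hq p)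
        have a2 : 2 * (p ^ N * n) ≤ p ^ N * (p ^ q * n) := by
          calc 2 * (p ^ N * n) ≤ p ^ q * (p ^ N * n) := Nat.mul_le_mul_right _ a1
            _ = p ^ N * (p ^ q * n) := by ring
        have a3 : p ^ N * n = p ^ N * J * n' + p ^ N * m := by rw [hn]; ring
        have a4 : 1 * n ≤ p ^ N * n := Nat.mul_le_mul_right _ hQ0
        omega)
    rw [hasseDeriv_zero'] at h1
    refine h1.mono ?_
    rw [mul_zero, Nat.sub_zero]
    have e1 : (p : ℝ) ^ N = p ^ (N - q) * p ^ q := by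
      rw [← pow_add, Nat.sub_add_cancel (by omega)]
    have e2 : (p : ℝ) ^ N * n * η / p ^ (N - q) = p ^ q * n * η := by
      rw [e1]
      field_simp
    have e3 : (((p ^ N * J : ℕ) : ℝ) * (g - n' * η) + ε) / p ^ N =
        J * (g - n' * η) + ε / p ^ N := by
      push_cast
      field_simp
    rw [e2, e3]
    push_cast
    have h5 : (J : ℝ) * (g - n' * η) ≤ J * g := mul_le_mul_of_nonneg_left (by linarith) (by linarith)
    linarith
  -- the target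
  obtain ⟨T, hT⟩ : ∃ T : ℝ, T = ν - (p ^ N * n : ℕ) * σ - (p ^ N * J : ℕ) * g - ε := ⟨_, rfl⟩
  have hLg : 2 * g ≤ ((p ^ N * J : ℕ) : ℝ) * g := by
    have h1 : (2 : ℝ) ≤ ((p ^ N * J : ℕ) : ℝ) := by
      have : 2 ≤ p ^ N * J := hp2.trans (Nat.le_of_dvd hL0 hpL)
      exact_mod_cast this
    exact mul_le_mul_of_nonneg_right h1 hg0.le
  have hLJ : ((p ^ N * J : ℕ) : ℝ) = p ^ N * J := by push_cast; ring
  -- the linear term
  have h2 : TWII.LP p v (cadj v K w) T (e * PhS Φ w Z n' (p ^ N * n) (θ - θ₀)) := by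
    have h3 := (hG1 N (by omega)).resolve_right (lt_irrefl N)
    refine lp_of_ge ((hD.ege.mul h3).mono ?_)
    rw [hT, Nat.sub_self, pow_zero, div_one, hLJ]
    have h5 : ε / (p : ℝ) ^ N ≤ ε := div_le_self hε.le (one_le_pow₀ (by exact_mod_cast hp0))
    have h6 : (2 : ℝ) ≤ (p : ℝ) ^ N := by exact_mod_cast hQ2
    have h7 : 0 ≤ (J : ℝ) * g := by positivity
    have h8 : 1 * g ≤ J * g := mul_le_mul_of_nonneg_right hJR hg0.le
    nlinarith
  -- the lower terms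
  have h3 : TWII.LP p v (cadj v K w) T
      (∑ q ∈ Ico 1 N, A q * dl p Φ w Z n' (θ - θ₀) 0 (p ^ N * n) q ^ p ^ q) := by
    refine lp_sum _ _ fun q hq => ?_
    obtain ⟨hq1, hqN⟩ := mem_Ico.1 hq
    have hpq : 0 < p ^ q := Nat.pow_pos hp0
    have e1 : p ^ N * n = p ^ q * (p ^ (N - q) * n) := by
      rw [← mul_assoc, ← pow_add, Nat.add_sub_cancel' hqN.le]
    rw [dl, if_pos ⟨dvd_zero _, ⟨_, e1⟩⟩, e1, Nat.mul_div_cancel_left _ hpq, Nat.zero_div,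
      hasseDeriv_zero']
    have h4 := (hG1 (N - q) (by omega)).resolve_right (by omega)
    have h5 := lp_mul_powq (hD.Alp q (mem_Icc.2 ⟨hq1, hqN.le⟩)) (hW.phS_mem hΔ n' _) hq1 h4
    refine lp_mono h5 ?_
    have e3 : N - (N - q) = q := by omega
    rw [hT, e3, e1, hLJ]
    have hq2 : (2 : ℝ) * p ^ q ≤ (p : ℝ) ^ N := by
      have a1 : 2 * p ^ q ≤ p ^ N := by
        calc 2 * p ^ q ≤ p * p ^ q := Nat.mul_le_mul_right _ hp2
          _ = p ^ (q + 1) := by ring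
          _ ≤ p ^ N := Nat.pow_le_pow_right hp0 hqN
      exact_mod_cast a1
    have e4 : (p : ℝ) ^ q * (p ^ N * n * η / p ^ q) = p ^ N * n * η := by field_simp
    have e5 : (p : ℝ) ^ q * (ε / p ^ N) ≤ ε := by
      rw [mul_div_assoc', div_le_iff₀ hQR]
      nlinarith
    have h7 : 0 ≤ (J : ℝ) * g := by positivity
    have h8 : 1 * g ≤ J * g := mul_le_mul_of_nonneg_right hJR hg0.le
    have h9 : 2 * p ^ q * (J * g) ≤ p ^ N * (J * g) := mul_le_mul_of_nonneg_right hq2 h7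
    have h10 : (p : ℝ) ^ q * (s - ((p ^ (N - q) * n : ℕ) : ℝ) * σ - p ^ N * n * η / p ^ q -
        (J * g + ε / p ^ N)) = p ^ q * s - ((p ^ q * (p ^ (N - q) * n) : ℕ) : ℝ) * σ -
        p ^ N * n * η - (p ^ q * (J * g) + p ^ q * (ε / p ^ N)) := by
      push_cast
      linear_combination -e4
    rw [h10]
    have h11 : (2 : ℝ) * g ≤ p ^ N * J * g := by rw [← hLJ]; exact hLg
    nlinarith
  -- the relation
  have h4 := rel hW hD hM' hθ.mem b.ok.mem b.nrm.BC (b.hJd hθ) b.e₀0.le (b.hΔv hθ hεe) hg' h.zg' hμ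
    0 (p ^ N * n)
  rw [hasseDeriv_zero', hasseDeriv_zero', hasseDeriv_zero'] at h4
  have h5 := shape_lead (m := m) (J := J) (x := κ + A N * (θ - θ₀).coeff J ^ p ^ N) h b.arc.iso
    (b.fm hθ) (b.nrm.clsX hθ.cls) (b.nrm.cls1 hθ.cls) hθ.lp hε.le hN1 b.J0 (b.xK hθ)
    (b.xl hθ hε.le) (b.xd hθ) hmμ hm (by rw [← hn]; exact hη) hmη
  rw [← hn, ← hT] at h5
  have hnullσ : T ≤ ν - (0 : ℕ) * ρ - (p ^ N * n : ℕ) * (σ + η) := by
    rw [hT, Nat.cast_zero, zero_mul, sub_zero, mul_add]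
    linarith
  have h6 : TWII.LP p v (cadj v K w) T _ := lp_mono (lp_of_pg h4) hnullσ
  have h7 : TWII.LP p v (cadj v K w) T _ := lp_mono (lp_of_pg hf0) (by
    rw [hT]
    have : 0 ≤ ((p ^ N * J : ℕ) : ℝ) * g := by positivity
    linarith)
  have h8 := (((h6.sub h2).sub h3).sub h7).add h5
  have e2 : Icc 1 N = insert N (Ico 1 N) := by
    ext c
    rw [mem_insert, mem_Icc, mem_Ico]
    omega
  have e3 : dl p Φ w Z n' (θ - θ₀) 0 (p ^ N * n) N = PhS Φ w Z n' n (θ - θ₀) := by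
    rw [dl, if_pos ⟨dvd_zero _, dvd_mul_right _ _⟩, Nat.mul_div_cancel_left _ hQ0, Nat.zero_div,
      hasseDeriv_zero']
  rw [e2, sum_insert (by simp), e3] at h8
  obtain ⟨cc, hcc⟩ : ∃ cc : ℕ → Ω, cc = fun j => PowerSeries.coeff (n - j) (Tn Φ w Z n' ψ ^ J) :=
    ⟨_, rfl⟩
  have hccF : ∀ j, cc j ∈ cadj v K w := fun j => by
    rw [hcc]
    exact pow_coeff_mem _ (rk_tn_mem hW hψ) J _
  have e4 : corrI S u Φ w Z n' ψ J n = ∑ j ∈ S, u j * cc j := by rw [corrI, hcc]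
  refine hI _ ((cadj v K w).sub_mem (hW.phS_mem hΔ n' n) ?_) cc hccF _ (fun j hj => ?_) ?_
  · rw [e4]
    exact sum_mem fun j _ => mul_mem (le_cadj v K w (hu j)) (hccF j)
  · rw [hcc]
    refine (pow_ge hT1 J (n - j)).mono ?_
    have hjn : j ≤ n := by
      rw [hn]
      exact hSn j hj
    rw [Nat.cast_sub hjn]
    have : 0 ≤ ε / (p : ℝ) ^ N := by positivity
    have h9 : 0 ≤ (J : ℝ) * g := by positivity
    nlinarith
  · have e5 : A N * (PhS Φ w Z n' n (θ - θ₀) - corrI S u Φ w Z n' ψ J n) ^ p ^ N +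
        ∑ j ∈ S, (Φ (p ^ N * j) κ + A N * u j ^ p ^ N) * cc j ^ p ^ N =
        A N * PhS Φ w Z n' n (θ - θ₀) ^ p ^ N + ∑ j ∈ S, Φ (p ^ N * j) κ * cc j ^ p ^ N := by
      rw [sub_pow_char_pow, e4, sum_pow_char_pow, mul_sub, mul_sum]
      have e6 : ∀ a c d f : Ω, a - c + d = a + f ↔ d - c = f := fun a c d f => by
        constructor
        · intro h
          linear_combination h
        · intro h
          linear_combination h
      rw [e6, ← sum_sub_distrib]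
      refine sum_congr rfl fun j _ => ?_
      rw [mul_pow]
      ring
    rw [e5]
    have e7 : ν - p ^ N * s + p ^ N * (s - (n : ℝ) * σ - J * g - ε / p ^ N) = T := by
      rw [hT]
      push_cast
      field_simp
      ring
    rw [e7]
    convert h8 using 1
    rw [hcc]
    ring

end Bse

end Pool.Agent.TWNI
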